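import Pool.Agent.H215_MRP.Comb

set_option autoImplicit false

universe u

namespace Pool.Agent.H215_MRP

open Cardinal Ordinal Set Filter

variable {S W : Type u}

section

theorem one_branch [LinearOrder W] [WellFoundedLT W] (hI : ∀ ζ : W, (Iio ζ).Countable) (hU : Uncountable W)
    {g : Set S → ℕ → Set S} {M : Set (Obj S W)} (hM : Good g M) {B : Set S} {FF SS : Set (Set S)}
    (hB : Br M B FF) (hSS : Obj.pp SS ∈ M) (hsub : SS ⊆ FF) (hcof : ∀ F ∈ FF, ∃ F' ∈ SS, F ⊆ F')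
    {Y : List (Set S) → Set (Set S)} (hY : Obj.fy Y ∈ M) (hYc : ∀ l, (Y l).Countable)
    {l : List (Set S)} (hl : Obj.lp l ∈ M) :
    ∃ F ∈ SS, Obj.p F ∈ M ∧ ∃ z, IsGuess M B F z ∧ z ∉ Y (F :: l) := by
  classical
  by_contra hcon
  push Not at hcon
  -- the traced function
  choose! s hsSS hsF using hcof
  have htr := hM.fy_trace FF SS Y l hB.mem hSS hY hl
    ⟨fun L => (fun b => b ∩ L.headD ∅) '' Y (s (L.headD ∅) :: l), fun F hF =>
      ⟨s F, hsSS F hF, hsF F hF, rfl⟩⟩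
  obtain ⟨Y', hY'M, hY'⟩ := htr
  have hc' : ∀ F ∈ FF, (Y' [F]).Countable := by
    intro F hF
    obtain ⟨F', -, -, he⟩ := hY' F hF
    rw [he]
    exact (hYc _).image _
  have hs' : ∀ F ∈ FF, ∀ b ∈ Y' [F], b ⊆ F := by
    intro F hF b hb
    obtain ⟨F', -, -, he⟩ := hY' F hF
    rw [he] at hb
    obtain ⟨b', -, rfl⟩ := hb
    exact Set.inter_subset_right
  -- (i)
  have hi : ∀ F ∈ FF, Obj.p F ∈ M → ∀ z, IsGuess M B F z → z ∈ Y' [F] := by
    intro F hF hFM z hz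
    obtain ⟨F', hF'SS, hF'M, hFF', he⟩ := hM.p_trace SS Y Y' l F hSS hY hY'M hl hFM (hY' F hF)
    obtain ⟨-, z', hz'⟩ := hB.sub F' (hsub hF'SS) hF'M
    have h1 := hcon F' hF'SS hF'M z' hz'
    have h2 := guess_sub hM hz' hFM hFF'
    have h3 := guess_unique hM h2 hz
    rw [he]
    exact ⟨z', h1, h3⟩
  -- (ii)
  have hsol := solid hI hU FF hB.ne hB.om (fun F => Y' [F]) hc' hs'
  obtain ⟨F₁, hF₁, hF₁M, hprop⟩ := hM.p_sharp FF Y' hB.mem hY'M hsol
  obtain ⟨-, b, hb⟩ := hB.sub F₁ hF₁ hF₁M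
  obtain ⟨F₀, hF₀, hF₀M, hF₀₁, hor⟩ := hM.p_solid FF Y' F₁ b hB.mem hY'M hF₁M hb.1 (hprop b hb.2.1)
  have hb₀ : IsGuess M B F₀ (b ∩ F₀) := guess_sub hM hb hF₀M hF₀₁
  have hb₀Y := hi F₀ hF₀ hF₀M _ hb₀
  have hS : Solid FF (fun F => Y' [F]) F₀ (b ∩ F₀) := by
    rcases hor with h | h
    · exact absurd hb₀Y h
    · exact h
  -- (iii)
  have key : ∀ F ∈ FF, Obj.p F ∈ M → F₀ ⊆ F → ∀ z, IsGuess M B F z → z ∈ Y' [F] ∧ z ∩ F₀ = b ∩ F₀ := by
    intro F hF hFM hF₀F z hz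
    exact ⟨hi F hF hFM z hz, guess_unique hM (guess_sub hM hz hF₀M hF₀F) hb₀⟩
  apply hB.not
  refine ⟨hM.pp_sUnion FF hB.mem, zstar FF (fun F => Y' [F]) F₀ (b ∩ F₀),
    hM.p_zstar FF Y' F₀ _ hB.mem hY'M hF₀M hb₀.1, ?_, ?_⟩
  · rintro x ⟨F, hF, -, -, b', ⟨hb'Y, -⟩, hxb'⟩
    exact ⟨F, hF, hs' F hF b' hb'Y hxb'⟩
  · intro x hxM
    constructor
    · intro hx
      obtain ⟨F, hF, hFM, hF₀F, huniq, b', ⟨hb'Y, hb'0⟩, hxb'⟩ :=
        hM.p_zz' FF Y' F₀ (b ∩ F₀) x hB.mem hY'M hF₀M hb₀.1 hxM hx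
      obtain ⟨-, z, hz⟩ := hB.sub F hF hFM
      have hk := key F hF hFM hF₀F z hz
      have hzb : z = b' := huniq.unique hk ⟨hb'Y, hb'0⟩
      subst hzb
      have hxBF := (hz.2.2 x hxM).1 hxb'
      exact ⟨hxBF.1, F, hF, hxBF.2⟩
    · rintro ⟨hxB, G, hG, hxG⟩
      obtain ⟨F', hF', hF₀F', hGF', huniq'⟩ := hS G hG
      obtain ⟨F, hF, hFM, hF₀F, hxF, huniq⟩ :=
        hM.p_zz FF Y' F₀ (b ∩ F₀) x hB.mem hY'M hF₀M hb₀.1 hxM ⟨F', hF', hF₀F', hGF' hxG, huniq'⟩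
      obtain ⟨-, z, hz⟩ := hB.sub F hF hFM
      have hk := key F hF hFM hF₀F z hz
      exact ⟨F, hF, hF₀F, huniq, z, hk, (hz.2.2 x hxM).2 ⟨hxB, hxF⟩⟩

end

section

/-- A list with entries in `M` is in `M`. -/
theorem avoidance_lp_mem {g : Set S → ℕ → Set S} {M : Set (Obj S W)} (hM : Good g M) (t : List (Set S))
    (ht : ∀ a ∈ t, Obj.p a ∈ M) : Obj.lp t ∈ M := by
  induction t with
  | nil => exact hM.lp_nil
  | cons a t ih =>
    exact hM.lp_cons a t (ht a (by simp)) (ih (fun b hb => ht b (List.mem_cons_of_mem _ hb)))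

/-- The guesses in matching lists are in `M`. -/
theorem avoidance_matches_mem {M : Set (Obj S W)} {l zs : List (Set S)} {L : List (Set S × Set (Set S))}
    (h : Matches M l zs L) : ∀ z ∈ zs, Obj.p z ∈ M := by
  induction h with
  | nil => intro z hz; simp at hz
  | cons hF hFM hz hm ih =>
    intro z' hz'
    rcases List.mem_cons.1 hz' with h | h
    · rw [h]; exact hz.1
    · exact ih z' h

theorem avoidance [LinearOrder W] [WellFoundedLT W] (hI : ∀ ζ : W, (Iio ζ).Countable) (hU : Uncountable W)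
    {g : Set S → ℕ → Set S} {M : Set (Obj S W)} (hM : Good g M) (L : List (Set S × Set (Set S)))
    (hL : ∀ q ∈ L, Br M q.1 q.2) (Y : List (Set S) → Set (Set S)) (hY : Obj.fy Y ∈ M)
    (hYc : ∀ l, (Y l).Countable) :
    ∃ CC : Set (Set S), Obj.pp CC ∈ M ∧ CC.Countable ∧
      ∀ t : List (Set S), (∀ a ∈ t, Obj.p a ∈ M ∧ a ∉ CC) →
        ∃ l zs, Matches M l zs L ∧ Obj.lp l ∈ M ∧ (∀ z ∈ zs, z ∉ Y l) ∧ ∀ a ∈ t, a ∉ Y l := by
  induction L generalizing Y with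
  | nil =>
    refine ⟨Y [], hM.fy_app Y [] hY hM.lp_nil, hYc [], ?_⟩
    intro t ht
    refine ⟨[], [], Matches.nil, hM.lp_nil, ?_, ?_⟩
    · intro z hz
      simp at hz
    · intro a ha
      exact (ht a ha).2
  | cons q L' ih =>
    obtain ⟨B, FF⟩ := q
    have hB : Br M B FF := hL (B, FF) (by simp)
    have hex : ∃ Y' : List (Set S) → Set (Set S), (∀ l, (Y' l).Countable) ∧
        ∀ l t, Captured FF (fun F => Y (F :: l)) t → ∃ a ∈ t, a ∈ Y' l := by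
      have h1 : ∀ l : List (Set S), ∃ C : Set (Set S), C.Countable ∧
          ∀ t : List (Set S), Captured FF (fun F => Y (F :: l)) t → ∃ a ∈ t, a ∈ C := by
        intro l
        exact cap (A := Set S) hI hU FF hB.om (fun F => Y (F :: l)) (fun F _ => hYc (F :: l))
      choose C hC1 hC2 using h1
      exact ⟨C, hC1, hC2⟩
    obtain ⟨Y1, hY1, hY1c, hY1cap⟩ := hM.fy_cap FF Y hB.mem hY hex
    obtain ⟨CC, hCC1, hCC2, hCC3⟩ := ih (fun q hq => hL q (List.mem_cons_of_mem _ hq)) Y1 hY1 hY1c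
    refine ⟨CC, hCC1, hCC2, ?_⟩
    intro t ht
    obtain ⟨l1, zs1, hm, hl1, hzs1, ht1⟩ := hCC3 t ht
    have hzsM : ∀ z ∈ zs1, Obj.p z ∈ M := avoidance_matches_mem hm
    have ht'M : Obj.lp (zs1 ++ t) ∈ M := by
      apply avoidance_lp_mem hM
      intro a ha
      rcases List.mem_append.1 ha with h | h
      · exact hzsM a h
      · exact (ht a h).1
    have hncap : ¬ Captured FF (fun F => Y (F :: l1)) (zs1 ++ t) := by
      intro hc
      obtain ⟨a, ha, haY⟩ := hY1cap l1 (zs1 ++ t) hc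
      rcases List.mem_append.1 ha with h | h
      · exact hzs1 a h haY
      · exact ht1 a h haY
    have hSSM : Obj.pp {F | F ∈ FF ∧ ∀ a ∈ zs1 ++ t, a ∉ Y (F :: l1)} ∈ M :=
      hM.pp_miss FF Y (zs1 ++ t) l1 hB.mem hY ht'M hl1
    have hcof : ∀ F ∈ FF, ∃ F' ∈ {F | F ∈ FF ∧ ∀ a ∈ zs1 ++ t, a ∉ Y (F :: l1)}, F ⊆ F' := by
      intro G hG
      by_contra hcon
      apply hncap
      refine ⟨G, hG, ?_⟩
      intro F hF hGF
      by_contra hno
      apply hcon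
      refine ⟨F, ⟨hF, ?_⟩, hGF⟩
      intro a ha haY
      exact hno ⟨a, ha, haY⟩
    obtain ⟨F, hF, hFM, z, hz, hzY⟩ := one_branch hI hU hM hB hSSM (fun F hF => hF.1) hcof hY hYc hl1
    refine ⟨F :: l1, z :: zs1, Matches.cons hF.1 hFM hz hm, hM.lp_cons F l1 hFM hl1, ?_, ?_⟩
    · intro z' hz'
      rcases List.mem_cons.1 hz' with h | h
      · rw [h]; exact hzY
      · exact hF.2 z' (List.mem_append.2 (Or.inl h))
    · intro a ha
      exact hF.2 a (List.mem_append.2 (Or.inr ha))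

end

section

theorem exists_Br {g : Set S → ℕ → Set S} {M : Set (Obj S W)} (hM : Good g M) (hne : Nonempty W) {B : Set S}
    (h : Set.univ ∉ GG M B) (hn : Nice M B) : ∃ FF, Br M B FF := by
  classical
  -- the least cardinality
  have hwf : WellFounded (InvImage (· < ·) (fun F : Set S => #F) : Set S → Set S → Prop) :=
    InvImage.wf _ Cardinal.lt_wf
  obtain ⟨Fs, ⟨hFp, hFn⟩, hmin⟩ := hwf.has_min {F : Set S | Obj.p F ∈ M ∧ F ∉ GG M B}
    ⟨Set.univ, hM.p_univ, h⟩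
  have hmin' : ∀ F : Set S, Obj.p F ∈ M → #F < #Fs → F ∈ GG M B := by
    intro F hF hlt
    by_contra hcon
    exact hmin F ⟨hF, hcon⟩ hlt
  have hempty : (∅ : Set S) ∈ GG M B :=
    ⟨hM.p_empty, ∅, hM.p_empty, Set.empty_subset _, fun x _ => by simp⟩
  have hne' : Fs.Nonempty := by
    rw [Set.nonempty_iff_ne_empty]
    intro he
    rw [he] at hFn
    exact hFn hempty
  have hpos : #(∅ : Set S) < #Fs := by
    rw [Cardinal.mk_eq_zero]
    obtain ⟨x, hx⟩ := hne'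
    have : Nonempty Fs := ⟨⟨x, hx⟩⟩
    exact Cardinal.mk_ne_zero Fs |>.bot_lt
  refine ⟨{F' : Set S | F' ⊆ Fs ∧ #F' < #Fs}, hM.pp_small Fs hFp, ⟨∅, Set.empty_subset _, hpos⟩,
    ?_, fun F hF hFM => hmin' F hFM hF.2, ?_⟩
  · intro f hf
    refine ⟨Set.iUnion_subset fun ζ => (hf ζ).1, ?_⟩
    by_contra hcon
    rw [not_lt] at hcon
    obtain ⟨φ⟩ := (Cardinal.le_def _ _).mp hcon
    have hex : ∃ f : W → Set S, (∀ ζ, f ζ ⊆ Fs ∧ #(f ζ) < #Fs) ∧ (⋃ ζ, f ζ) = Fs := by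
      refine ⟨fun ζ => {x | ∃ hx : x ∈ Fs, (φ ⟨x, hx⟩ : S) ∈ f ζ}, fun ζ => ⟨fun x hx => hx.1, ?_⟩,
        ?_⟩
      · refine lt_of_le_of_lt ?_ (hf ζ).2
        refine Cardinal.mk_le_of_injective
          (f := fun x : {x | ∃ hx : x ∈ Fs, (φ ⟨x, hx⟩ : S) ∈ f ζ} =>
            (⟨φ ⟨x.1, x.2.1⟩, x.2.2⟩ : f ζ)) ?_
        intro x y hxy
        have h3 : (φ ⟨x.1, x.2.1⟩ : S) = φ ⟨y.1, y.2.1⟩ := congrArg (fun z : f ζ => (z : S)) hxy
        have h4 := φ.injective (Subtype.ext h3)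
        exact Subtype.ext (congrArg (fun z : Fs => (z : S)) h4)
      · ext x
        simp only [Set.mem_iUnion]
        constructor
        · rintro ⟨ζ, hx, _⟩
          exact hx
        · intro hx
          obtain ⟨ζ, hζ⟩ := Set.mem_iUnion.mp (φ ⟨x, hx⟩).2
          exact ⟨ζ, hx, hζ⟩
    obtain ⟨f2, hf2M, hf2, hf2U⟩ := hM.fam_dec Fs hFp hex
    apply hFn
    rw [← hf2U]
    apply hn f2 hf2M
    intro ζ hζ
    exact hmin' _ (hM.fam_app f2 ζ hf2M hζ) (hf2 ζ).2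
  · intro hU
    rcases Set.subsingleton_or_nontrivial Fs with hs | hs
    · obtain ⟨x, hx⟩ := hne'
      have hFx : ∀ y ∈ Fs, y = x := fun y hy => hs hy hx
      obtain ⟨y, hyM, hy⟩ := hM.sep Fs ∅ hFp hM.p_empty (Set.Nonempty.ne_empty ⟨x, hx⟩)
      apply hFn
      by_cases hxB : x ∈ B
      · refine ⟨hFp, Fs, hFp, subset_rfl, fun z _ => ?_⟩
        constructor
        · intro hz
          rw [hFx z hz]
          exact ⟨hxB, hx⟩
        · exact fun hz => hz.2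
      · refine ⟨hFp, ∅, hM.p_empty, Set.empty_subset _, fun z _ => ?_⟩
        constructor
        · intro hz
          exact absurd hz (Set.notMem_empty z)
        · rintro ⟨hz1, hz2⟩
          rw [hFx z hz2] at hz1
          exact absurd hz1 hxB
    · have h1 : 1 < #Fs := by
        rw [Cardinal.one_lt_iff_nontrivial]
        exact hs.coe_sort
      have h2 : ⋃₀ {F' : Set S | F' ⊆ Fs ∧ #F' < #Fs} = Fs := by
        apply Set.Subset.antisymm
        · exact Set.sUnion_subset fun F hF => hF.1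
        · intro x hx
          refine ⟨{x}, ⟨Set.singleton_subset_iff.mpr hx, ?_⟩, rfl⟩
          rw [Cardinal.mk_singleton]
          exact h1
      rw [h2] at hU
      exact hFn hU

end

section

theorem exists_e_matches {M : Set (Obj S W)} {l zs : List (Set S)} {L : List (Set S × Set (Set S))}
    (h : Matches M l zs L) :
    ∀ q ∈ L, ∃ F ∈ l, ∃ z ∈ zs, IsGuess M q.1 F z ∧ Obj.p F ∈ M := by
  induction h with
  | nil => intro q hq; exact absurd hq List.not_mem_nil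
  | @cons F z B FF l zs L h1 h2 h3 _ ih =>
    intro q hq
    rcases List.mem_cons.1 hq with rfl | hq
    · exact ⟨F, List.mem_cons_self, z, List.mem_cons_self, h3, h2⟩
    · obtain ⟨F', hF', z', hz', h4, h5⟩ := ih q hq
      exact ⟨F', List.mem_cons_of_mem _ hF', z', List.mem_cons_of_mem _ hz', h4, h5⟩

theorem exists_e [LinearOrder W] [WellFoundedLT W] (hI : ∀ ζ : W, (Iio ζ).Countable) (hU : Uncountable W) [Infinite S]
    {g : Set S → ℕ → Set S} {M : Set (Obj S W)} (hM : Good g M) (hc : M.Countable) :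
    ∃ e : ℕ → Set S, (∀ n, Obj.p (e n) ∈ M) ∧
      ∀ E : Set (Set (Set S)), Obj.ppp E ∈ M → (∀ Y ∈ E, Y.Countable ∧ Y.Infinite) →
        (∀ t : Set (Set S), t.Countable → ∃ Y ∈ E, t ⊆ Y) → ∃ Y ∈ E, Y ∈ Sg g e M ∧ Obj.pp Y ∈ M := by
  classical
  have hne : Nonempty W := inferInstance
  have hBr : ∀ i, ∃ FF : Set (Set S), i ∈ IM g M → Br M (g (SM M) i) FF := by
    intro i
    by_cases hi : i ∈ IM g M
    · obtain ⟨FF, hFF⟩ := exists_Br hM hne hi.1 hi.2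
      exact ⟨FF, fun _ => hFF⟩
    · exact ⟨∅, fun h => absurd h hi⟩
  choose FF hFF using hBr
  let L : ℕ → List (Set S × Set (Set S)) := fun n =>
    ((List.range (n + 1)).filter (fun i => decide (i ∈ IM g M))).map fun i => (g (SM M) i, FF i)
  have hL : ∀ n, ∀ q ∈ L n, Br M q.1 q.2 := by
    intro n q hq
    obtain ⟨i, hi, rfl⟩ := List.mem_map.1 hq
    have := (List.mem_filter.1 hi).2
    exact hFF i (of_decide_eq_true this)
  let EE : Set (Set (Set (Set S))) := {E | Obj.ppp E ∈ M ∧ (∀ Y ∈ E, Y.Countable ∧ Y.Infinite) ∧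
    ∀ t : Set (Set S), t.Countable → ∃ Y ∈ E, t ⊆ Y}
  have hEEc : EE.Countable := by
    have h1 : (Obj.ppp ⁻¹' M : Set (Set (Set (Set S)))).Countable :=
      hc.preimage_of_injOn fun a _ b _ h => by injection h
    exact h1.mono fun E hE => hE.1
  rcases EE.eq_empty_or_nonempty with h0 | h0
  · refine ⟨fun _ => ∅, fun _ => hM.p_empty, fun E h1 h2 h3 => ?_⟩
    have h4 : E ∈ EE := ⟨h1, h2, h3⟩
    rw [h0] at h4
    exact absurd h4 (notMem_empty _)
  · obtain ⟨E, hE⟩ := hEEc.exists_eq_range h0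
    have hEn : ∀ n, E n ∈ EE := fun n => by rw [hE]; exact mem_range_self n
    have hY : ∀ n, ∃ Y : List (Set S) → Set (Set S), Obj.fy Y ∈ M ∧
        ∀ l, Y l ∈ E n ∧ ∀ F ∈ l, F ∈ Y l := by
      intro n
      refine hM.fy_E (E n) (hEn n).1 ?_
      have h1 : ∀ l : List (Set S), ∃ Y ∈ E n, {F | F ∈ l} ⊆ Y := fun l =>
        (hEn n).2.2 _ (List.finite_toSet l).countable
      choose Y h2 h3 using h1
      exact ⟨Y, fun l => ⟨h2 l, fun F hF => h3 l hF⟩⟩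
    choose Y hYM hYl using hY
    have hCC : ∀ n, ∃ CC : Set (Set S), Obj.pp CC ∈ M ∧ CC.Countable ∧
        ∀ t : List (Set S), (∀ a ∈ t, Obj.p a ∈ M ∧ a ∉ CC) →
        ∃ l zs, Matches M l zs (L n) ∧ Obj.lp l ∈ M ∧ (∀ z ∈ zs, z ∉ Y n l) ∧ ∀ a ∈ t, a ∉ Y n l :=
      fun n => avoidance hI hU hM (L n) (hL n) (Y n) (hYM n)
        fun l => ((hEn n).2.1 _ (hYl n l).1).1
    choose CC hCM hCc hCt using hCC
    have he : ∀ n, ∃ F, Obj.p F ∈ M ∧ F ∉ CC n := by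
      intro n
      refine hM.pp_avoid (CC n) (hCM n) ?_
      by_contra hcon
      push Not at hcon
      have h1 : (univ : Set (Set S)).Countable := (hCc n).mono fun F _ => hcon F
      have h2 : Countable (Set S) := countable_univ_iff.1 h1
      have h3 : Cardinal.mk (Set S) ≤ ℵ₀ := Cardinal.mk_le_aleph0_iff.2 h2
      rw [Cardinal.mk_set] at h3
      exact absurd ((Cardinal.cantor _).trans_le h3) (not_lt.2 (Cardinal.aleph0_le_mk S))
    choose e heM heC using he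
    refine ⟨e, heM, fun E' h1 h2 h3 => ?_⟩
    have h4 : E' ∈ EE := ⟨h1, h2, h3⟩
    rw [hE] at h4
    obtain ⟨n, rfl⟩ := h4
    obtain ⟨l, zs, h5, h6, h7, h8⟩ := hCt n [e n] (by
      intro a ha
      rw [List.mem_singleton] at ha
      subst ha
      exact ⟨heM n, heC n⟩)
    have h9 := hYl n l
    refine ⟨Y n l, h9.1, ⟨(h2 _ h9.1).1, (h2 _ h9.1).2, n, h8 _ (List.mem_singleton.2 rfl), ?_⟩,
      hM.fy_app _ _ (hYM n) h6⟩
    intro i hi hin
    have h10 : (g (SM M) i, FF i) ∈ L n := List.mem_map.2 ⟨i, List.mem_filter.2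
      ⟨List.mem_range.2 (Nat.lt_succ_of_le hin), decide_eq_true hi⟩, rfl⟩
    obtain ⟨F, hF, z, hz, h11, h12⟩ := exists_e_matches h5 _ h10
    exact ⟨F, h9.2 F hF, z, h11, h7 z hz, h12⟩

end

end Pool.Agent.H215_MRP
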