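import Pool.Agent.H215_MRP.Model

set_option autoImplicit false

universe u

namespace Pool.Agent.H215_MRP

open Cardinal Ordinal Set Filter

variable {S W : Type u}

theorem skolIn_mono {O : Type*} {N : Set O} {Φ Ψ : Set O → Prop} (h : SkolIn N Φ) (h' : ∀ M ⊆ N, Φ M → Ψ M) :
    SkolIn N Ψ := by
  obtain ⟨f, hf, h⟩ := h
  exact ⟨f, hf, fun M hM hc => h' M hM (h M hM hc)⟩

theorem skolIn_nat {O : Type*} {N : Set O} {Φ : ℕ → Set O → Prop} (h : ∀ n, SkolIn N (Φ n)) :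
    SkolIn N (fun M => ∀ n, Φ n M) := by
  choose f hf hΦ using h
  refine ⟨fun k l => f k.unpair.1 k.unpair.2 l, fun k l hl => hf _ _ l hl, fun M hM hc n => ?_⟩
  refine hΦ n M hM (fun m l hl => ?_)
  have := hc (Nat.pair n m) l hl
  simpa using this

theorem skolIn_and {O : Type*} {N : Set O} {Φ Ψ : Set O → Prop} (h : SkolIn N Φ) (h' : SkolIn N Ψ) :
    SkolIn N (fun M => Φ M ∧ Ψ M) := by
  have := skolIn_nat (N := N) (Φ := fun n M => if n = 0 then Φ M else Ψ M) (fun n => by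
    by_cases hn : n = 0
    · simpa [hn] using h
    · simpa [hn] using h')
  refine skolIn_mono this (fun M _ hM => ⟨?_, ?_⟩)
  · simpa using hM 0
  · simpa using hM 1

theorem skolIn_ex {O A B : Type*} {N : Set O} (hN : N.Nonempty) (a : A → List O) (ha : Function.Injective a)
    (b : B → O) (R : A → B → Prop)
    (h : ∀ x, (∀ o ∈ a x, o ∈ N) → (∃ y, R x y) → ∃ y, b y ∈ N ∧ R x y) :
    SkolIn N (fun M => ∀ x, (∀ o ∈ a x, o ∈ M) → (∃ y, R x y) → ∃ y, b y ∈ M ∧ R x y) := by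
  classical
  obtain ⟨o₀, ho₀⟩ := hN
  have key : ∀ l : List O, ∃ o ∈ N, ∀ x, a x = l → (∀ o ∈ a x, o ∈ N) → (∃ y, R x y) → ∃ y, b y = o ∧ R x y := by
    intro l
    by_cases hx : ∃ x, a x = l ∧ (∀ o ∈ a x, o ∈ N) ∧ (∃ y, R x y)
    · obtain ⟨x, hx1, hx2, hx3⟩ := hx
      obtain ⟨y, hy1, hy2⟩ := h x hx2 hx3
      refine ⟨b y, hy1, fun x' hx' _ _ => ⟨y, rfl, ?_⟩⟩
      have : x' = x := ha (hx'.trans hx1.symm)
      rwa [this]
    · refine ⟨o₀, ho₀, fun x h1 h2 h3 => absurd ⟨x, h1, h2, h3⟩ hx⟩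
  choose F hF1 hF2 using key
  refine ⟨fun _ l => F l, fun _ l _ => hF1 l, fun M hM hc x hx hy => ?_⟩
  obtain ⟨y, hy1, hy2⟩ := hF2 (a x) x rfl (fun o ho => hM (hx o ho)) hy
  exact ⟨y, hy1 ▸ hc 0 (a x) hx, hy2⟩

theorem guess_unique {g : Set S → ℕ → Set S} {M : Set (Obj S W)} (hM : Good g M) {B F z z' : Set S}
    (h : IsGuess M B F z) (h' : IsGuess M B F z') : z = z' := by
  by_contra hne
  obtain ⟨x, hx, hx'⟩ := hM.sep z z' h.1 h'.1 hne
  exact hx' ((h.2.2 x hx).trans (h'.2.2 x hx).symm)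

theorem guess_sub {g : Set S → ℕ → Set S} {M : Set (Obj S W)} (hM : Good g M) {B F F' z : Set S}
    (h : IsGuess M B F z) (hF' : Obj.p F' ∈ M) (hs : F' ⊆ F) : IsGuess M B F' (z ∩ F') := by
  refine ⟨hM.p_inter _ _ h.1 hF', inter_subset_right, fun x hx => ?_⟩
  rw [mem_inter_iff, h.2.2 x hx]
  exact ⟨fun h => ⟨h.1.1, h.2⟩, fun h => ⟨⟨h.1, hs h.2⟩, h.2⟩⟩

theorem sg_open (g : Set S → ℕ → Set S) (e : ℕ → Set S) (M : Set (Obj S W)) (Y : Set (Set S))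
    (hY : Y ∈ Sg g e M) : ∃ x : Finset (Set S), ↑x ⊆ Y ∧
      ∀ Y' : Set (Set S), ↑x ⊆ Y' → Y' ⊆ Y → Y'.Infinite → Y' ∈ Sg g e M := by
  classical
  obtain ⟨hc, hi, n, hn, h⟩ := hY
  have h' : ∀ i : ℕ, ∃ F ∈ Y, (i ∈ IM g M → i ≤ n → ∃ z, IsGuess M (g (SM M) i) F z ∧ z ∉ Y ∧ Obj.p F ∈ M) := by
    intro i
    by_cases hi' : i ∈ IM g M ∧ i ≤ n
    · obtain ⟨F, hF, h⟩ := h i hi'.1 hi'.2
      exact ⟨F, hF, fun _ _ => h⟩
    · obtain ⟨F, hF⟩ := hi.nonempty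
      exact ⟨F, hF, fun h1 h2 => absurd ⟨h1, h2⟩ hi'⟩
  choose F hF hF' using h'
  refine ⟨(Finset.range (n + 1)).image F, ?_, fun Y' h1 h2 h3 => ⟨hc.mono h2, h3, n, fun h => hn (h2 h), ?_⟩⟩
  · intro x hx
    simp only [Finset.coe_image, mem_image] at hx
    obtain ⟨i, _, rfl⟩ := hx
    exact hF i
  · intro i hi1 hi2
    obtain ⟨z, hz, hz', hz''⟩ := hF' i hi1 hi2
    refine ⟨F i, h1 ?_, z, hz, fun h => hz' (h2 h), hz''⟩
    simp only [Finset.coe_image, mem_image]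
    exact ⟨i, by simp; omega, rfl⟩

theorem wit_small {κ : Cardinal.{u}} {D : Ultrafilter ℕ} {g : Set S → ℕ → Set S}
    (hg : Coh κ D g) {F z : ℕ → Set S} (h : Wit D g F z) {X : Set S} (hX : #X < κ) :
    ∀ᶠ i in (D : Filter ℕ), z i ∩ X = g X i ∩ F i := by
  classical
  by_contra hcon
  rw [← Ultrafilter.frequently_iff_eventually, Filter.not_frequently] at hcon
  have key : ∀ i : ℕ, ∃ x : Option S, (∀ y ∈ x, y ∈ X) ∧ (¬ z i ∩ X = g X i ∩ F i →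
      ∃ y ∈ x, ¬ (y ∈ z i ↔ y ∈ g X i ∩ F i)) := by
    intro i
    by_cases hi : z i ∩ X = g X i ∩ F i
    · exact ⟨none, by simp, fun h => absurd hi h⟩
    · have : ∃ y, ¬ (y ∈ z i ∩ X ↔ y ∈ g X i ∩ F i) := by
        by_contra hno
        push Not at hno
        exact hi (Set.ext hno)
      obtain ⟨y, hy⟩ := this
      have hyX : y ∈ X := by
        by_contra hyX
        apply hy
        constructor
        · exact fun h => absurd h.2 hyX
        · exact fun h => absurd (hg.sub X i h.1) hyX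
      refine ⟨some y, by simpa using hyX, fun _ => ⟨y, by simp, ?_⟩⟩
      intro h
      apply hy
      rw [← h, mem_inter_iff]
      exact ⟨fun h => h.1, fun h => ⟨h, hyX⟩⟩
  choose x hx1 hx2 using key
  let X₀ : Set S := {y | ∃ i, y ∈ x i}
  have hX₀ : X₀.Countable := by
    have : X₀ = ⋃ i, {y | y ∈ x i} := by ext y; simp [X₀]
    rw [this]
    refine countable_iUnion (fun i => ?_)
    refine Set.Subsingleton.countable (fun a ha b hb => ?_)
    simp only [mem_setOf_eq] at ha hb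
    exact Option.mem_unique ha hb
  have hsub : X₀ ⊆ X := by
    rintro y ⟨i, hy⟩
    exact hx1 i y hy
  have h1 := h X₀ hX₀
  have h2 := hg.coh X₀ X hsub hX
  obtain ⟨i, h1, h2, h3⟩ := (h1.and (h2.and hcon)).exists
  obtain ⟨y, hy, hy'⟩ := hx2 i h3
  have hy0 : y ∈ X₀ := ⟨i, hy⟩
  apply hy'
  have e1 : y ∈ z i ↔ y ∈ z i ∩ X₀ := ⟨fun h => ⟨h, hy0⟩, fun h => h.1⟩
  rw [e1, h1, ← h2]
  simp only [mem_inter_iff]
  tauto

end Pool.Agent.H215_MRP
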