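import Pool.Agent.H215_MRP.Internal

set_option autoImplicit false

universe u

namespace Pool.Agent.H215_MRP

open Cardinal Ordinal Set Filter

variable {S W : Type u}

section

theorem chain_cl {O P : Type u} {jp : P → O} {Sg : Set O → Set (Set P)} {f : ℕ → List O → O}
    {c : ℕ → Set O → O} {N : Ordinal.{0} → Set O} (hN : AChain jp Sg f c N) :
    Cl f (⋃ ν ∈ Iio ω₁, N ν) := by
  intro n l hl
  have key : ∀ l : List O, (∀ x ∈ l, x ∈ ⋃ ν ∈ Iio ω₁, N ν) → ∃ ν < ω₁, ∀ x ∈ l, x ∈ N ν := by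
    intro l
    induction l with
    | nil =>
      intro _
      exact ⟨0, omega_pos 1, by simp⟩
    | cons a l ih =>
      intro h
      obtain ⟨ν, hν, h1⟩ := ih (fun x hx => h x (List.mem_cons_of_mem _ hx))
      have h3 := h a List.mem_cons_self
      simp only [mem_iUnion, mem_Iio, exists_prop] at h3
      obtain ⟨μ, hμ, h2⟩ := h3
      refine ⟨max ν μ, max_lt hν hμ, ?_⟩
      intro x hx
      rcases List.mem_cons.1 hx with rfl | hx
      · exact hN.mono _ (max_lt hν hμ) _ (le_max_right _ _) h2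
      · exact hN.mono _ (max_lt hν hμ) _ (le_max_left _ _) (h1 x hx)
  obtain ⟨ν, hν, h⟩ := key l hl
  exact mem_biUnion (show ν ∈ Iio ω₁ from hν) (hN.cl ν hν n l h)

end

section

theorem chain_ctbl {O P : Type u} {jp : P → O} {Sg : Set O → Set (Set P)} {f : ℕ → List O → O}
    {c : ℕ → Set O → O} {N : Ordinal.{0} → Set O} (hN : AChain jp Sg f c N) (C : Set O) (hC : C.Countable)
    (hCN : C ⊆ ⋃ ν ∈ Iio ω₁, N ν) : ∃ ν < ω₁, C ⊆ N ν := by
  rcases C.eq_empty_or_nonempty with rfl | hne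
  · exact ⟨0, Ordinal.omega_pos 1, empty_subset _⟩
  · obtain ⟨e, rfl⟩ := hC.exists_eq_range hne
    have h : ∀ n : ℕ, ∃ ν : Ordinal.{0}, ν < ω₁ ∧ e n ∈ N ν := by
      intro n
      have := hCN ⟨n, rfl⟩
      simp only [mem_iUnion, mem_Iio] at this
      obtain ⟨ν, h1, h2⟩ := this
      exact ⟨ν, h1, h2⟩
    choose g hg1 hg2 using h
    refine ⟨⨆ n, g n, Ordinal.iSup_lt_omega_one hg1, ?_⟩
    rintro _ ⟨n, rfl⟩
    exact hN.mono _ (Ordinal.iSup_lt_omega_one hg1) (g n) (Ordinal.le_iSup g n) (hg2 n)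

end

section

theorem chain_closed_point_sup {s : ℕ → Ordinal.{0}} (hs : ∀ n, s n < s (n + 1))
    (hω : ∀ n, s n < ω₁) :
    (⨆ n, s n) < ω₁ ∧ Order.IsSuccLimit (⨆ n, s n) ∧ (∀ n, s n < ⨆ n, s n) ∧
      ∀ ξ < ⨆ n, s n, ∃ n, ξ < s n := by
  have h1 : ∀ n, s n < ⨆ n, s n := fun n => (hs n).trans_le (Ordinal.le_iSup s (n + 1))
  have h2 : ∀ ξ < ⨆ n, s n, ∃ n, ξ < s n := fun ξ hξ => Ordinal.lt_iSup_iff.mp hξ
  refine ⟨Ordinal.iSup_lt_omega_one hω, ⟨?_, ?_⟩, h1, h2⟩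
  · intro hmin
    exact absurd (hmin.eq_bot ▸ h1 0) not_lt_bot
  · intro a ha
    obtain ⟨n, hn⟩ := h2 a ha.1
    exact ha.2 hn (h1 n)

theorem chain_closed_point_step {O P : Type u} {jp : P → O} {Sg : Set O → Set (Set P)}
    {f : ℕ → List O → O}
    {c : ℕ → Set O → O} {N : Ordinal.{0} → Set O} (hN : AChain jp Sg f c N) (h : ℕ → List O → O)
    (hh : Cl h (⋃ ν ∈ Iio ω₁, N ν)) (ν : Ordinal.{0}) (hν : ν < ω₁) :
    ∃ ν', ν < ν' ∧ ν' < ω₁ ∧ ∀ k l, (∀ x ∈ l, x ∈ N ν) → h k l ∈ N ν' := by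
  have hc := hN.ctbl ν hν
  have : Countable (N ν) := hc.to_subtype
  let C : Set O := Set.range fun p : ℕ × List (N ν) => h p.1 (p.2.map Subtype.val)
  have hC : C.Countable := Set.countable_range _
  have hmem : ∀ k l, (∀ x ∈ l, x ∈ N ν) → h k l ∈ C := by
    intro k l hl
    refine ⟨(k, l.attachWith (· ∈ N ν) hl), ?_⟩
    simp
  have hCN : C ⊆ ⋃ ν ∈ Iio ω₁, N ν := by
    rintro _ ⟨⟨k, l⟩, rfl⟩
    apply hh
    intro x hx
    rw [List.mem_map] at hx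
    obtain ⟨y, -, rfl⟩ := hx
    rw [Set.mem_iUnion₂]
    exact ⟨ν, hν, y.2⟩
  obtain ⟨ν₁, hν₁, hCν⟩ := chain_ctbl hN C hC hCN
  have hs : ν + 1 < ω₁ := by
    have := (Cardinal.isSuccLimit_omega 1).succ_lt hν
    rwa [Ordinal.add_one_eq_succ]
  refine ⟨max (ν + 1) ν₁, ?_, max_lt hs hν₁, ?_⟩
  · exact lt_of_lt_of_le (lt_add_one ν) (le_max_left _ _)
  · intro k l hl
    exact hN.mono _ (max_lt hs hν₁) _ (le_max_right _ _) (hCν (hmem k l hl))

/-- a finite set inside the model at a limit of a sequence lies in one of the models -/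
theorem chain_closed_point_fin {O P : Type u} {jp : P → O} {Sg : Set O → Set (Set P)}
    {f : ℕ → List O → O}
    {c : ℕ → Set O → O} {N : Ordinal.{0} → Set O} (hN : AChain jp Sg f c N)
    {s : ℕ → Ordinal.{0}} (hs : ∀ n, s n < s (n + 1)) (hω : ∀ n, s n < ω₁)
    (C : Set O) (hC : C.Finite) (hCN : C ⊆ N (⨆ n, s n)) : ∃ n, C ⊆ N (s n) := by
  obtain ⟨h1, h2, h3, h4⟩ := chain_closed_point_sup hs hω
  have hmono : StrictMono s := strictMono_nat_of_lt_succ hs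
  have h5 : ∀ x ∈ C, ∃ n, x ∈ N (s n) := by
    intro x hx
    obtain ⟨ξ, hξ, hxξ⟩ := hN.cont _ h1 h2 x (hCN hx)
    obtain ⟨n, hn⟩ := h4 ξ hξ
    exact ⟨n, hN.mono _ (hω n) _ hn.le hxξ⟩
  induction C, hC using Set.Finite.induction_on with
  | empty => exact ⟨0, Set.empty_subset _⟩
  | @insert a C ha hC ih =>
    obtain ⟨n, hn⟩ := ih (fun x hx => hCN (Set.mem_insert_of_mem _ hx))
      (fun x hx => h5 x (Set.mem_insert_of_mem _ hx))
    obtain ⟨m, hm⟩ := h5 a (Set.mem_insert _ _)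
    refine ⟨max n m, ?_⟩
    intro x hx
    rcases Set.mem_insert_iff.mp hx with rfl | hx
    · exact hN.mono _ (hω _) _ (hmono.monotone (le_max_right _ _)) hm
    · exact hN.mono _ (hω _) _ (hmono.monotone (le_max_left _ _)) (hn hx)

/-- closure at the limit of a sequence -/
theorem chain_closed_point_cl {O P : Type u} {jp : P → O} {Sg : Set O → Set (Set P)}
    {f : ℕ → List O → O}
    {c : ℕ → Set O → O} {N : Ordinal.{0} → Set O} (hN : AChain jp Sg f c N) (h : ℕ → List O → O)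
    {s : ℕ → Ordinal.{0}} (hs : ∀ n, s n < s (n + 1)) (hω : ∀ n, s n < ω₁)
    (hcl : ∀ n k l, (∀ x ∈ l, x ∈ N (s n)) → h k l ∈ N (⨆ n, s n)) : Cl h (N (⨆ n, s n)) := by
  intro k l hl
  obtain ⟨n, hn⟩ := chain_closed_point_fin hN hs hω {x | x ∈ l} (List.finite_toSet l) hl
  exact hcl n k l hn

theorem chain_closed_point_next {O P : Type u} {jp : P → O} {Sg : Set O → Set (Set P)}
    {f : ℕ → List O → O}
    {c : ℕ → Set O → O} {N : Ordinal.{0} → Set O} (hN : AChain jp Sg f c N) (h : ℕ → List O → O)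
    (hh : Cl h (⋃ ν ∈ Iio ω₁, N ν)) (ν : Ordinal.{0}) (hν : ν < ω₁) :
    ∃ μ, ν < μ ∧ μ < ω₁ ∧ Cl h (N μ) := by
  choose! F hF1 hF2 hF3 using chain_closed_point_step hN h hh
  let s : ℕ → Ordinal.{0} := fun n => F^[n] ν
  have hsucc : ∀ n, s (n + 1) = F (s n) := fun n => Function.iterate_succ_apply' F n ν
  have hω : ∀ n, s n < ω₁ := by
    intro n
    induction n with
    | zero => exact hν
    | succ n ih => rw [hsucc]; exact hF2 _ ih
  have hs : ∀ n, s n < s (n + 1) := fun n => by rw [hsucc]; exact hF1 _ (hω n)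
  obtain ⟨h1, h2, h3, h4⟩ := chain_closed_point_sup hs hω
  refine ⟨⨆ n, s n, h3 0, h1, chain_closed_point_cl hN h hs hω ?_⟩
  intro n k l hl
  have h5 := hF3 _ (hω n) k l hl
  rw [← hsucc] at h5
  exact hN.mono _ h1 _ (h3 (n + 1)).le h5

theorem chain_closed_point {O P : Type u} {jp : P → O} {Sg : Set O → Set (Set P)} {f : ℕ → List O → O}
    {c : ℕ → Set O → O} {N : Ordinal.{0} → Set O} (hN : AChain jp Sg f c N) (h : ℕ → List O → O)
    (hh : Cl h (⋃ ν ∈ Iio ω₁, N ν)) :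
    ∃ ν < ω₁, Order.IsSuccLimit ν ∧ Cl h (N ν) ∧
      ∀ ν₀ < ν, ∀ C : Set O, C.Finite → C ⊆ N ν → ∃ ξ, ν₀ < ξ ∧ ξ < ν ∧ C ⊆ N ξ ∧ Cl h (N ξ) := by
  choose! F hF1 hF2 hF3 using chain_closed_point_next hN h hh
  have h0 : (0 : Ordinal.{0}) < ω₁ := Ordinal.omega_pos 1
  let s : ℕ → Ordinal.{0} := fun n => F^[n] (F 0)
  have hsucc : ∀ n, s (n + 1) = F (s n) := fun n => Function.iterate_succ_apply' F n (F 0)
  have hω : ∀ n, s n < ω₁ := by
    intro n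
    induction n with
    | zero => exact hF2 0 h0
    | succ n ih => rw [hsucc]; exact hF2 _ ih
  have hcl : ∀ n, Cl h (N (s n)) := by
    intro n
    cases n with
    | zero => exact hF3 0 h0
    | succ n => rw [hsucc]; exact hF3 _ (hω n)
  have hs : ∀ n, s n < s (n + 1) := fun n => by rw [hsucc]; exact hF1 _ (hω n)
  have hmono : StrictMono s := strictMono_nat_of_lt_succ hs
  obtain ⟨h1, h2, h3, h4⟩ := chain_closed_point_sup hs hω
  refine ⟨⨆ n, s n, h1, h2, chain_closed_point_cl hN h hs hω ?_, ?_⟩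
  · intro n k l hl
    exact hN.mono _ h1 _ (h3 n).le (hcl n k l hl)
  · intro ν₀ hν₀ C hC hCN
    obtain ⟨n, hn⟩ := chain_closed_point_fin hN hs hω C hC hCN
    obtain ⟨m, hm⟩ := h4 ν₀ hν₀
    refine ⟨s (max n m), hm.trans_le (hmono.monotone (le_max_right _ _)), h3 _, ?_, hcl _⟩
    exact hn.trans (hN.mono _ (hω _) _ (hmono.monotone (le_max_left _ _)))

end

section

theorem reflection {κ : Cardinal.{u}} {D : Ultrafilter ℕ} {g : Set S → ℕ → Set S} (hg : Coh κ D g)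
    {f : ℕ → List (Obj S W) → Obj S W} {c : ℕ → Set (Obj S W) → Obj S W} {e : Set (Obj S W) → ℕ → Set S}
    (hf : ∀ M, Cl f M → Good g M) (he : ∀ M : Set (Obj S W), M.Countable → Good g M → ∀ n, Obj.p (e M n) ∈ M)
    {N : Ordinal.{0} → Set (Obj S W)} (hN : AChain Obj.p (fun M => Sg g (e M) M) f c N)
    (hs : #(SM (⋃ ν ∈ Iio ω₁, N ν)) < κ) (hW : ∀ ζ, Obj.w ζ ∈ ⋃ ν ∈ Iio ω₁, N ν) :
    ¬ ∀ᶠ i in (D : Filter ℕ), i ∈ IM g (⋃ ν ∈ Iio ω₁, N ν) := by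
  intro hA
  have hcl : Cl f (⋃ ν ∈ Iio ω₁, N ν) := chain_cl hN
  have hgood : Good g (⋃ ν ∈ Iio ω₁, N ν) := hf _ hcl
  have hsubN : ∀ ν < ω₁, N ν ⊆ ⋃ ν ∈ Iio ω₁, N ν := by
    intro ν hν
    exact subset_biUnion_of_mem (u := N) (show ν ∈ Iio ω₁ from hν)
  generalize hNN : (⋃ ν ∈ Iio ω₁, N ν) = NN at *
  have hne : NN.Nonempty := ⟨_, hgood.p_empty⟩
  have C1 : ∀ i, SkolIn NN (fun M => ∀ F : Set S, (∀ o ∈ [(Obj.p F : Obj S W)], o ∈ M) →
      (∃ z, IsGuess NN (g (SM NN) i) F z) → ∃ z, Obj.p z ∈ M ∧ IsGuess NN (g (SM NN) i) F z) := by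
    intro i
    refine skolIn_ex hne (fun F : Set S => [(Obj.p F : Obj S W)]) ?_ Obj.p
      (fun F z => IsGuess NN (g (SM NN) i) F z) ?_
    · intro F F' h
      simpa using h
    · rintro F _ ⟨z, hz⟩
      exact ⟨z, hz.1, hz⟩
  have C2 : ∀ i, SkolIn NN (fun M => ∀ q : Set S × Set S,
      (∀ o ∈ [(Obj.p q.1 : Obj S W), Obj.p q.2], o ∈ M) →
      (∃ x, Obj.el x ∈ NN ∧ ¬ (x ∈ q.2 ↔ x ∈ g (SM NN) i ∧ x ∈ q.1)) →
      ∃ x, Obj.el x ∈ M ∧ (Obj.el x ∈ NN ∧ ¬ (x ∈ q.2 ↔ x ∈ g (SM NN) i ∧ x ∈ q.1))) := by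
    intro i
    refine skolIn_ex hne (fun q : Set S × Set S => [(Obj.p q.1 : Obj S W), Obj.p q.2]) ?_ Obj.el
      (fun q x => Obj.el x ∈ NN ∧ ¬ (x ∈ q.2 ↔ x ∈ g (SM NN) i ∧ x ∈ q.1)) ?_
    · rintro ⟨F, z⟩ ⟨F', z'⟩ h
      simpa using h
    · rintro q _ ⟨x, hx⟩
      exact ⟨x, hx.1, hx⟩
  have C3 : ∀ i, SkolIn NN (fun M => ∀ fm : W → Set S,
      (∀ o ∈ [(Obj.fam fm : Obj S W)], o ∈ M) →
      (∃ ζ, fm ζ ∉ GG NN (g (SM NN) i)) →
      ∃ ζ, Obj.w ζ ∈ M ∧ fm ζ ∉ GG NN (g (SM NN) i)) := by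
    intro i
    refine skolIn_ex hne (fun fm : W → Set S => [(Obj.fam fm : Obj S W)]) ?_ Obj.w
      (fun fm ζ => fm ζ ∉ GG NN (g (SM NN) i)) ?_
    · intro F F' h
      simpa using h
    · rintro F _ ⟨z, hz⟩
      exact ⟨z, hW z, hz⟩
  obtain ⟨h, hh, hM⟩ := skolIn_nat (fun i => skolIn_and (C1 i) (skolIn_and (C2 i) (C3 i)))
  obtain ⟨ν, hν, hlim, hclν, happ⟩ := chain_closed_point hN h (by rw [hNN]; exact hh)
  have hνN : N ν ⊆ NN := hsubN ν hν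
  have hSM : SM (N ν) ⊆ SM NN := fun x hx => hνN hx
  obtain ⟨i, hiA, hib⟩ := (hA.and (hg.coh (SM (N ν)) (SM NN) hSM hs)).exists
  have hgoodν : Good g (N ν) := hf _ (hN.cl ν hν)
  have hctν : (N ν).Countable := hN.ctbl ν hν
  obtain ⟨c1, c2, c3⟩ := hM (N ν) hνN hclν i
  have hbb : ∀ x, Obj.el x ∈ N ν → (x ∈ g (SM (N ν)) i ↔ x ∈ g (SM NN) i) := by
    intro x hx
    rw [← hib]
    exact ⟨fun h => h.1, fun h => ⟨h, hx⟩⟩
  -- G1'
  have G1' : ∀ F z, Obj.p z ∈ N ν → IsGuess NN (g (SM NN) i) F z → IsGuess (N ν) (g (SM (N ν)) i) F z := by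
    intro F z hz hgz
    refine ⟨hz, hgz.2.1, ?_⟩
    intro x hx
    rw [hbb x hx]
    exact hgz.2.2 x (hνN hx)
  have G1 : ∀ F, Obj.p F ∈ N ν → F ∈ GG NN (g (SM NN) i) → F ∈ GG (N ν) (g (SM (N ν)) i) := by
    intro F hF hFG
    obtain ⟨z, hz, hgz⟩ := c1 F (by simpa using hF) hFG.2
    exact ⟨hF, z, G1' F z hz hgz⟩
  have G2 : ∀ F z, Obj.p F ∈ N ν → IsGuess (N ν) (g (SM (N ν)) i) F z →
      IsGuess NN (g (SM NN) i) F z := by
    intro F z hF hgz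
    refine ⟨hνN hgz.1, hgz.2.1, ?_⟩
    by_contra hcon
    push Not at hcon
    obtain ⟨x, hx, hxn⟩ := hcon
    obtain ⟨y, hyM, hyN, hyn⟩ := c2 (F, z) (by
      intro o ho
      simp only [List.mem_cons, List.not_mem_nil, or_false] at ho
      rcases ho with rfl | rfl
      · exact hF
      · exact hgz.1) ⟨x, hx, by
        intro hiff
        rcases hxn with ⟨h1, h2⟩ | ⟨h1, h2⟩
        · exact absurd (hiff.1 h1) (by
            intro hc
            exact h2 hc.1 hc.2)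
        · exact h1 (hiff.2 h2)⟩
    apply hyn
    have := hgz.2.2 y hyM
    rw [hbb y hyM] at this
    exact this
  have G2' : ∀ F, F ∈ GG (N ν) (g (SM (N ν)) i) → F ∈ GG NN (g (SM NN) i) := by
    rintro F ⟨hF, z, hz⟩
    exact ⟨hνN hF, z, G2 F z hF hz⟩
  have hIM : i ∈ IM g (N ν) := by
    refine ⟨fun hu => hiA.1 (G2' _ hu), ?_⟩
    intro fm hfm hall
    have hfmN : Obj.fam fm ∈ NN := hνN hfm
    have hall' : ∀ ζ, fm ζ ∈ GG NN (g (SM NN) i) := by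
      by_contra hcon
      push Not at hcon
      obtain ⟨ζ, hζ⟩ := hcon
      obtain ⟨ζ', hζM, hζ'⟩ := c3 fm (by simpa using hfm) ⟨ζ, hζ⟩
      exact hζ' (G2' _ (hall ζ' hζM))
    have hun := hiA.2 fm hfmN (fun ζ _ => hall' ζ)
    exact G1 _ (hgoodν.fam_union fm hfm) hun
  obtain ⟨ν₀, hν₀, hrefl⟩ := hN.refl ν hν hlim
  obtain ⟨ξ, hξ0, hξν, hCξ, hclξ⟩ := happ ν₀ hν₀ ((fun j => Obj.p (e (N ν) j)) '' (Set.Iic i))
    ((Set.finite_Iic i).image _) (by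
      rintro _ ⟨j, _, rfl⟩
      exact he (N ν) hctν hgoodν j)
  obtain ⟨_, _, n, hn, hall⟩ := hrefl ξ hξ0 hξν
  have hin : i < n := by
    by_contra hle
    push Not at hle
    exact hn (hCξ ⟨n, hle, rfl⟩)
  obtain ⟨F, hFY, z, hgz, hzY, hFν⟩ := hall i hIM hin.le
  have hFξ : Obj.p F ∈ N ξ := hFY
  have hξN : N ξ ⊆ N ν := hN.mono ν hν ξ hξν.le
  have hgzN := G2 F z hFν hgz
  obtain ⟨d1, _, _⟩ := hM (N ξ) (hξN.trans hνN) hclξ i
  obtain ⟨z', hz', hgz'⟩ := d1 F (by simpa using hFξ) ⟨z, hgzN⟩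
  have hgz'' := G1' F z' (hξN hz') hgz'
  have := guess_unique hgoodν hgz hgz''
  subst this
  exact hzY hz'

end

section

theorem chain_big_countable_SM {M : Set (Obj S W)} (hM : M.Countable) : (SM M).Countable := by
  have : SM M = Obj.el ⁻¹' M := rfl
  rw [this]
  exact hM.preimage (fun a b h => by injection h)

theorem chain_big_countable_PM {M : Set (Obj S W)} (hM : M.Countable) :
    {F : Set S | (Obj.p F : Obj S W) ∈ M}.Countable := by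
  have : {F : Set S | (Obj.p F : Obj S W) ∈ M} = Obj.p ⁻¹' M := rfl
  rw [this]
  exact hM.preimage (fun a b h => by injection h)

theorem chain_big_small {κ : Cardinal.{u}} (hκ : ℵ₀ < κ) (hs : κ.IsStrongLimit)
    (A : Ordinal.{0} → Set S) (hA : ∀ ν < ω₁, (A ν).Countable) :
    #(⋃ ν ∈ Iio ω₁, A ν : Set S) < κ := by
  have h1 : (⋃ ν ∈ Iio ω₁, A ν : Set S) =
      ⋃ i : (ω₁ : Ordinal.{0}).ToType, A (Ordinal.ToType.mk.symm i).1 := by
    ext x
    simp only [mem_iUnion, exists_prop]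
    constructor
    · rintro ⟨ν, hν, hx⟩
      exact ⟨Ordinal.ToType.mk ⟨ν, hν⟩, by simpa using hx⟩
    · rintro ⟨i, hx⟩
      exact ⟨_, (Ordinal.ToType.mk.symm i).2, hx⟩
  rw [h1]
  have h2 := mk_iUnion_le_lift.{u, 0} (fun i : (ω₁ : Ordinal.{0}).ToType =>
    A (Ordinal.ToType.mk.symm i).1)
  rw [Cardinal.lift_uzero] at h2
  have h3 : (⨆ i : (ω₁ : Ordinal.{0}).ToType,
      Cardinal.lift.{0} #(A (Ordinal.ToType.mk.symm i).1)) ≤ ℵ₀ := by
    refine ciSup_le' fun i => ?_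
    rw [Cardinal.lift_uzero]
    exact (hA _ (Ordinal.ToType.mk.symm i).2).le_aleph0
  have h4 : Cardinal.lift.{u} #(ω₁ : Ordinal.{0}).ToType ≤ 𝔠 := by
    have h5 : #(ω₁ : Ordinal.{0}).ToType = ℵ₁ := by
      rw [Cardinal.mk_toType, Ordinal.card_omega]
    rw [h5]
    have h6 := Cardinal.aleph_one_le_continuum.{0}
    have h7 := (Cardinal.lift_le.{u}).2 h6
    rwa [Cardinal.lift_continuum] at h7
  have h8 : 𝔠 < κ := by
    rw [← Cardinal.two_power_aleph0]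
    exact hs.isStrongPrelimit hκ
  refine lt_of_le_of_lt (h2.trans (mul_le_mul' h4 h3)) ?_
  rw [Cardinal.continuum_mul_aleph0]
  exact h8

theorem chain_big [LinearOrder W] [WellFoundedLT W] (hI : ∀ ζ : W, (Iio ζ).Countable) (hU : Uncountable W)
    {κ : Cardinal.{u}} (hκ : ℵ₀ < κ) (hs : κ.IsStrongLimit) {D : Ultrafilter ℕ} {g : Set S → ℕ → Set S}
    (hg : Coh κ D g)
    {f : ℕ → List (Obj S W) → Obj S W} (hf : ∀ M, Cl f M → Good g M) :
    ∃ c : ℕ → Set (Obj S W) → Obj S W, ∀ Sg' N, AChain Obj.p Sg' f c N → Big κ D g (⋃ ν ∈ Iio ω₁, N ν) := by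
  classical
  have e1 : ∀ m : Set (Set S), ∃ X, m.Countable → X1spec κ D g m X := by
    intro m
    by_cases hm : m.Countable
    · obtain ⟨X, hX⟩ := exists_X1 hκ hs hg m hm
      exact ⟨X, fun _ => hX⟩
    · exact ⟨∅, fun h => absurd h hm⟩
  have e2 : ∀ m : Set (Set S), ∃ X Q, m.Countable → X2spec κ D g m X Q := by
    intro m
    by_cases hm : m.Countable
    · obtain ⟨X, Q, hX⟩ := exists_X2 (D := D) (g := g) hκ hs m hm
      exact ⟨X, Q, fun _ => hX⟩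
    · exact ⟨∅, ∅, fun h => absurd h hm⟩
  choose X1 hX1 using e1
  choose X2 Q hX2 using e2
  let PM : Set (Obj S W) → Set (Set S) := fun M => {F | Obj.p F ∈ M}
  have e3 : ∀ M : Set (Obj S W), ∃ o : Obj S W, ∀ ζ : W, Obj.w ζ ∉ M →
      (∀ η < ζ, Obj.w η ∈ M) → o = Obj.w ζ := by
    intro M
    by_cases h : ∃ ζ : W, Obj.w ζ ∉ M ∧ ∀ η < ζ, Obj.w η ∈ M
    · obtain ⟨ζ, h1, h2⟩ := h
      refine ⟨Obj.w ζ, fun ζ' h1' h2' => ?_⟩
      rcases lt_trichotomy ζ ζ' with h3 | h3 | h3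
      · exact absurd (h2' _ h3) h1
      · rw [h3]
      · exact absurd (h2 _ h3) h1'
    · exact ⟨Obj.p ∅, fun ζ' h1' h2' => absurd ⟨ζ', h1', h2'⟩ h⟩
  choose c0 hc0 using e3
  refine ⟨fun k M => if k = 0 then c0 M else if k = 1 then Obj.p (X1 (PM M)) else
    if k = 2 then Obj.p (X2 (PM M)) else if k = 3 then Obj.pp (Q (PM M)) else Obj.p ∅, ?_⟩
  intro Sg' N hN
  have hlim : ∀ ν : Ordinal.{0}, ν < ω₁ → ν + 1 < ω₁ := fun ν hν =>
    (Cardinal.isSuccLimit_omega 1).add_one_lt hν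
  have hmem : ∀ ν < ω₁, ∀ x ∈ N ν, x ∈ ⋃ ν ∈ Iio ω₁, N ν := fun ν hν x hx =>
    mem_biUnion (mem_Iio.2 hν) hx
  refine ⟨hf _ (chain_cl hN), ?_, ?_, ?_⟩
  · have h1 : SM (⋃ ν ∈ Iio ω₁, N ν) = ⋃ ν ∈ Iio ω₁, SM (N ν) := by
      ext x
      simp [SM]
    rw [h1]
    exact chain_big_small hκ hs _ fun ν hν => chain_big_countable_SM (hN.ctbl ν hν)
  · intro ζ
    induction ζ using WellFoundedLT.induction with
    | ind ζ ih =>
      obtain ⟨ν, hν, hsub⟩ := chain_ctbl hN (Obj.w '' Iio ζ) ((hI ζ).image _) (by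
        rintro _ ⟨η, hη, rfl⟩
        exact ih η hη)
      by_cases h : Obj.w ζ ∈ N ν
      · exact hmem ν hν _ h
      · have h1 := hN.code ν hν 0
        simp only [if_true] at h1
        rw [hc0 (N ν) ζ h fun η hη => hsub ⟨η, hη, rfl⟩] at h1
        exact hmem _ (hlim ν hν) _ h1
  · intro C hC hCN
    obtain ⟨ν, hν, hsub⟩ := chain_ctbl hN (Obj.p '' C) (hC.image _) (by
      rintro _ ⟨F, hF, rfl⟩
      exact hCN F hF)
    have hc := chain_big_countable_PM (hN.ctbl ν hν)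
    refine ⟨PM (N ν), X1 (PM (N ν)), X2 (PM (N ν)), Q (PM (N ν)), fun F hF => hsub ⟨F, hF, rfl⟩,
      ?_, ?_, ?_, hX1 _ hc, hX2 _ hc⟩
    · have h1 := hN.code ν hν 1
      simp only [one_ne_zero, if_false, if_true] at h1
      exact hmem _ (hlim ν hν) _ h1
    · have h1 := hN.code ν hν 2
      simp only [OfNat.ofNat_ne_zero, OfNat.ofNat_ne_one, if_false, if_true] at h1
      exact hmem _ (hlim ν hν) _ h1
    · have h1 := hN.code ν hν 3
      simp only [OfNat.ofNat_ne_zero, OfNat.ofNat_ne_one, if_false, if_true,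
        show ¬ ((3 : ℕ) = 2) by norm_num] at h1
      exact hmem _ (hlim ν hν) _ h1

end

end Pool.Agent.H215_MRP
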