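import Pool.Agent.H215_MRP.Base

set_option autoImplicit false

universe u

namespace Pool.Agent.H215_MRP

open Cardinal Ordinal Set Filter

variable {S W : Type u}

section

theorem wrec [LinearOrder W] [WellFoundedLT W] {A : Type*} (hI : ∀ ζ : W, (Iio ζ).Countable) (Q : Set A → A → Prop)
    (h : ∀ C : Set A, C.Countable → ∃ a, Q C a) : ∃ t : W → A, ∀ ζ, Q (t '' Iio ζ) (t ζ) := by
  classical
  have hwf : WellFounded ((· < ·) : W → W → Prop) := wellFounded_lt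
  let ch : Set A → A := fun C => if hC : C.Countable then (h C hC).choose else (h ∅ Set.countable_empty).choose
  have hch : ∀ C : Set A, C.Countable → Q C (ch C) := by
    intro C hC
    simp only [ch, dif_pos hC]
    exact (h C hC).choose_spec
  let F : ∀ x : W, (∀ y : W, y < x → A) → A := fun x f => ch {a | ∃ (y : W) (hy : y < x), f y hy = a}
  let t : W → A := hwf.fix F
  have ht : ∀ x, t x = ch (t '' Iio x) := by
    intro x
    have h1 : t x = F x (fun y _ => t y) := hwf.fix_eq F x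
    rw [h1]
    show ch _ = ch _
    congr 1
    ext a
    constructor
    · rintro ⟨y, hy, rfl⟩
      exact ⟨y, hy, rfl⟩
    · rintro ⟨y, hy, rfl⟩
      exact ⟨y, hy, rfl⟩
  refine ⟨t, fun ζ => ?_⟩
  have h2 := hch (t '' Iio ζ) ((hI ζ).image t)
  rwa [← ht ζ] at h2

end

section

theorem cap [LinearOrder W] [WellFoundedLT W] {A : Type u} (hI : ∀ ζ : W, (Iio ζ).Countable) (hU : Uncountable W) (FF : Set (Set S))
    (hFF : OmClosed W FF) (Y : Set S → Set A) (hY : ∀ F ∈ FF, (Y F).Countable) :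
    ∃ C : Set A, C.Countable ∧ ∀ t : List A, Captured FF Y t → ∃ a ∈ t, a ∈ C := by
  by_contra hne
  push Not at hne
  obtain ⟨t, ht⟩ := wrec hI (fun (T : Set (List A)) (t : List A) =>
    Captured FF Y t ∧ ∀ s ∈ T, ∀ a ∈ t, a ∉ s) (fun T hT => by
      obtain ⟨t, ht1, ht2⟩ := hne (⋃ s ∈ T, {a | a ∈ s})
        (hT.biUnion fun s _ => (List.finite_toSet s).countable)
      refine ⟨t, ht1, fun s hs a ha has => ht2 a ha ?_⟩
      exact mem_biUnion hs has)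
  have hcap : ∀ ζ, ∃ G ∈ FF, ∀ F ∈ FF, G ⊆ F → ∃ a ∈ t ζ, a ∈ Y F := fun ζ => (ht ζ).1
  choose G hG hGF using hcap
  have hF := hFF G hG
  choose a ha haY using fun ζ => hGF ζ _ hF (subset_iUnion G ζ)
  have hlt : ∀ η ζ, η < ζ → a η ≠ a ζ := by
    intro η ζ h heq
    refine (ht ζ).2 (t η) ⟨η, h, rfl⟩ (a ζ) (ha ζ) ?_
    rw [← heq]
    exact ha η
  have hinj : Function.Injective (fun ζ => (⟨a ζ, haY ζ⟩ : Y (⋃ ζ, G ζ))) := by
    intro η ζ h
    have h' : a η = a ζ := congrArg Subtype.val h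
    rcases lt_trichotomy η ζ with hlt' | heq | hlt'
    · exact absurd h' (hlt η ζ hlt')
    · exact heq
    · exact absurd h'.symm (hlt ζ η hlt')
  have hc : Countable (Y (⋃ ζ, G ζ)) := (hY _ hF).to_subtype
  exact not_countable_iff.2 hU hinj.countable

end

section

theorem solid [LinearOrder W] [WellFoundedLT W] (hI : ∀ ζ : W, (Iio ζ).Countable) (hU : Uncountable W) (FF : Set (Set S)) (hne : FF.Nonempty)
    (hFF : OmClosed W FF) (Y : Set S → Set (Set S)) (hY : ∀ F ∈ FF, (Y F).Countable)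
    (hsub : ∀ F ∈ FF, ∀ b ∈ Y F, b ⊆ F) :
    ∃ F₁ ∈ FF, ∀ b ⊆ F₁, ∃ F ∈ FF, F ⊆ F₁ ∧ (b ∩ F ∉ Y F ∨ Solid FF Y F (b ∩ F)) := by
  classical
  -- upper bounds of countable families
  have hub : ∀ C : Set (Set S), C.Countable → C ⊆ FF → ∃ F ∈ FF, ∀ F' ∈ C, F' ⊆ F := by
    intro C hC hCF
    rcases C.eq_empty_or_nonempty with rfl | hCne
    · obtain ⟨F, hF⟩ := hne
      exact ⟨F, hF, fun F' h => absurd h (notMem_empty F')⟩
    · obtain ⟨h, rfl⟩ := hC.exists_eq_range hCne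
      have hs : Function.Surjective (Function.invFun (Infinite.natEmbedding W)) :=
        Function.invFun_surjective (Infinite.natEmbedding W).injective
      refine ⟨⋃ ζ : W, h (Function.invFun (Infinite.natEmbedding W) ζ),
        hFF _ fun ζ => hCF ⟨_, rfl⟩, ?_⟩
      rintro _ ⟨n, rfl⟩
      obtain ⟨ζ, hζ⟩ := hs n
      intro x hx
      rw [mem_iUnion]
      exact ⟨ζ, by rw [hζ]; exact hx⟩
  by_contra hcon
  push Not at hcon
  let P : Set S → Set (Set S) := fun F => {b | b ⊆ F ∧ ∀ F' ∈ FF, F' ⊆ F → b ∩ F' ∈ Y F' ∧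
    ¬ Solid FF Y F' (b ∩ F')}
  have hPne : ∀ F ∈ FF, (P F).Nonempty := by
    intro F hF
    obtain ⟨b, hb, h⟩ := hcon F hF
    exact ⟨b, hb, h⟩
  have hPY : ∀ F ∈ FF, P F ⊆ Y F := by
    intro F hF b hb
    have := (hb.2 F hF (Subset.refl F)).1
    rwa [inter_eq_left.2 hb.1] at this
  have hPc : ∀ F ∈ FF, (P F).Countable := fun F hF => (hY F hF).mono (hPY F hF)
  have hG : ∀ F b : Set S, ∃ G : Set S, F ∈ FF → b ∈ P F → G ∈ FF ∧ ∀ F'' ∈ FF, F ⊆ F'' →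
      G ⊆ F'' → ¬ ∃! c, c ∈ Y F'' ∧ c ∩ F = b := by
    intro F b
    by_cases h : F ∈ FF ∧ b ∈ P F
    · have h1 := (h.2.2 F h.1 (Subset.refl F)).2
      rw [inter_eq_left.2 h.2.1] at h1
      unfold Solid at h1
      push Not at h1
      obtain ⟨G, hG, h2⟩ := h1
      exact ⟨G, fun _ _ => ⟨hG, fun F'' hF'' h3 h4 h5 => h2 F'' hF'' h3 h4 h5⟩⟩
    · exact ⟨∅, fun h1 h2 => absurd ⟨h1, h2⟩ h⟩
  choose Gf hGf using hG
  obtain ⟨t, ht⟩ := wrec (A := {F : Set S // F ∈ FF}) hI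
    (fun C a => ∀ F ∈ C, (F : Set S) ⊆ a ∧ ∀ b ∈ P F, Gf F b ⊆ a) (by
      intro C hC
      obtain ⟨F, hF, h⟩ := hub ((Subtype.val '' C) ∪ ⋃ F ∈ C, Gf (F : Set S) '' P F)
        ((hC.image _).union (hC.biUnion fun F _ => (hPc F F.2).image _)) (by
          rintro X (⟨F, _, rfl⟩ | hX)
          · exact F.2
          · rw [mem_iUnion₂] at hX
            obtain ⟨F, _, b, hb, rfl⟩ := hX
            exact (hGf F b F.2 hb).1)
      refine ⟨⟨F, hF⟩, fun F' hF' => ⟨h F' (Or.inl ⟨F', hF', rfl⟩), fun b hb => h _ (Or.inr ?_)⟩⟩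
      rw [mem_iUnion₂]
      exact ⟨F', hF', b, hb, rfl⟩)
  have htm : ∀ η ζ : W, η < ζ → (t η : Set S) ⊆ t ζ := fun η ζ h => (ht ζ (t η) ⟨η, h, rfl⟩).1
  have htG : ∀ η ζ : W, η < ζ → ∀ b ∈ P (t η), Gf (t η) b ⊆ (t ζ : Set S) := fun η ζ h =>
    (ht ζ (t η) ⟨η, h, rfl⟩).2
  set Fs : Set S := ⋃ ζ, (t ζ : Set S) with hFs
  have hFsF : Fs ∈ FF := hFF _ fun ζ => (t ζ).2
  have htFs : ∀ ζ, (t ζ : Set S) ⊆ Fs := fun ζ => subset_iUnion (fun ζ => (t ζ : Set S)) ζ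
  obtain ⟨b, hb⟩ := hPne Fs hFsF
  have hbY : b ∈ Y Fs := hPY Fs hFsF hb
  have hmax : ∀ ζ : W, ∃ ζ', ζ < ζ' := by
    intro ζ
    by_contra h
    push Not at h
    have h1 : (univ : Set W) ⊆ insert ζ (Iio ζ) := by
      intro ζ' _
      rcases (h ζ').eq_or_lt with h2 | h2
      · exact Or.inl h2
      · exact Or.inr h2
    have h2 : (univ : Set W).Countable := ((hI ζ).insert ζ).mono h1
    exact not_countable (countable_univ_iff.1 h2)
  have hbP : ∀ ζ, b ∩ t ζ ∈ P (t ζ) := by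
    intro ζ
    refine ⟨inter_subset_right, fun F' hF' hF'' => ?_⟩
    have h1 : b ∩ t ζ ∩ F' = b ∩ F' := by
      rw [inter_assoc, inter_eq_right.2 hF'']
    rw [h1]
    exact hb.2 F' hF' (hF''.trans (htFs ζ))
  have hc : ∀ ζ, ∃ c, c ∈ Y Fs ∧ c ∩ t ζ = b ∩ t ζ ∧ c ≠ b := by
    intro ζ
    obtain ⟨ζ', hζ'⟩ := hmax ζ
    have h1 := (hGf (t ζ) (b ∩ t ζ) (t ζ).2 (hbP ζ)).2 Fs hFsF (htFs ζ)
      ((htG ζ ζ' hζ' _ (hbP ζ)).trans (htFs ζ'))
    by_contra h2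
    push Not at h2
    exact h1 ⟨b, ⟨hbY, rfl⟩, fun c hc => h2 c hc.1 hc.2⟩
  choose c hcY hcb hcne using hc
  -- pigeonhole
  have hpig : ∃ c₀ ∈ Y Fs, ¬ {ζ | c ζ = c₀}.Countable := by
    by_contra h
    push Not at h
    have h1 : (univ : Set W) ⊆ ⋃ c₀ ∈ Y Fs, {ζ | c ζ = c₀} := by
      intro ζ _
      rw [mem_iUnion₂]
      exact ⟨c ζ, hcY ζ, rfl⟩
    have h2 : (univ : Set W).Countable := ((hY Fs hFsF).biUnion h).mono h1
    exact not_countable (countable_univ_iff.1 h2)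
  obtain ⟨c₀, hc₀, hunc⟩ := hpig
  have hcof : ∀ ζ, ∃ ζ', ζ ≤ ζ' ∧ c ζ' = c₀ := by
    intro ζ
    by_contra h
    push Not at h
    apply hunc
    apply (hI ζ).mono
    intro ζ' hζ'
    by_contra h1
    exact h ζ' (not_lt.1 h1) hζ'
  have heq : ∀ ζ, c₀ ∩ t ζ = b ∩ t ζ := by
    intro ζ
    obtain ⟨ζ', h1, h2⟩ := hcof ζ
    have h3 : (t ζ : Set S) ⊆ t ζ' := by
      rcases h1.eq_or_lt with h4 | h4
      · rw [h4]
      · exact htm _ _ h4
    have h4 := hcb ζ'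
    rw [h2] at h4
    have h5 : c₀ ∩ t ζ' ∩ t ζ = b ∩ t ζ' ∩ t ζ := by rw [h4]
    rwa [inter_assoc, inter_assoc, inter_eq_right.2 h3] at h5
  have hfin : c₀ = b := by
    have h1 : c₀ ⊆ Fs := hsub Fs hFsF c₀ hc₀
    have h2 : b ⊆ Fs := hb.1
    ext x
    constructor
    · intro hx
      obtain ⟨ζ, hζ⟩ := mem_iUnion.1 (h1 hx)
      have : x ∈ b ∩ t ζ := by rw [← heq ζ]; exact ⟨hx, hζ⟩
      exact this.1
    · intro hx
      obtain ⟨ζ, hζ⟩ := mem_iUnion.1 (h2 hx)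
      have : x ∈ c₀ ∩ t ζ := by rw [heq ζ]; exact ⟨hx, hζ⟩
      exact this.1
  have hne' : {ζ | c ζ = c₀}.Nonempty := by
    rw [nonempty_iff_ne_empty]
    intro h
    rw [h] at hunc
    exact hunc countable_empty
  obtain ⟨ζ, hζ⟩ := hne'
  exact hcne ζ (hζ.trans hfin)

end

end Pool.Agent.H215_MRP
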