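import Mathlib

set_option autoImplicit false

/-!
# Basic definitions: the mapping reflection principle and the statement `(*)`

Everything takes place in the cumulative hierarchy `ZFSet.{u}` (Mathlib's model of ZFC) and in the cardinals
`Cardinal.{u}`.
-/

universe u

namespace Pool.Agent.H215_MRP

open Cardinal Ordinal Set

/-! ## Ultrafilters on cardinals -/

/-- The underlying set of the cardinal `κ`: the canonical type of order type `κ.ord`. -/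
abbrev Car (κ : Cardinal.{u}) : Type u := κ.ord.ToType

/-- The ultrafilter `U` on `κ` is uniform: every member has cardinality `κ`. -/
def IsUniform (κ : Cardinal.{u}) (U : Ultrafilter (Car κ)) : Prop :=
  ∀ A : Set (Car κ), A ∈ U → #A = κ

/-- `U` is `lam`-decomposable: there is `f : κ → lam` with `f ⁻¹[A] ∉ U` for all `A ⊆ lam`, `|A| < lam`. -/
def IsDecomposable (κ lam : Cardinal.{u}) (U : Ultrafilter (Car κ)) : Prop :=
  ∃ f : Car κ → Car lam, ∀ A : Set (Car lam), #A < lam → f ⁻¹' A ∉ U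

/-- `U` is indecomposable: not `lam`-decomposable for any cardinal `lam` with `ω < lam < κ`. -/
def IsIndecomposable (κ : Cardinal.{u}) (U : Ultrafilter (Car κ)) : Prop :=
  ∀ lam : Cardinal.{u}, ℵ₀ < lam → lam < κ → ¬ IsDecomposable κ lam U

/-- `κ` is a measurable cardinal: it is uncountable and carries a nonprincipal `κ`-complete ultrafilter. -/
def IsMeasurable (κ : Cardinal.{u}) : Prop :=
  ℵ₀ < κ ∧ ∃ U : Ultrafilter (Car κ), (∀ x : Car κ, {x} ∉ U) ∧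
    ∀ 𝒜 : Set (Set (Car κ)), #𝒜 < κ → (∀ A ∈ 𝒜, A ∈ U) → ⋂₀ 𝒜 ∈ U

/-- The statement `(*)` of the problem: every uncountable strong limit cardinal which carries a uniform
indecomposable ultrafilter is measurable or the supremum of a countable set of measurable cardinals. -/
def Star : Prop :=
  ∀ κ : Cardinal.{u}, ℵ₀ < κ → κ.IsStrongLimit →
    (∃ U : Ultrafilter (Car κ), IsUniform κ U ∧ IsIndecomposable κ U) →
    IsMeasurable κ ∨ ∃ 𝒞 : Set Cardinal.{u}, 𝒞.Countable ∧ (∀ c ∈ 𝒞, IsMeasurable c) ∧ IsLUB 𝒞 κ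

/-! ## The mapping reflection principle -/

/-- `[X]^ω`, the (class of codes of) countably infinite subsets of `X`. Here `X` is given as a collection of
`ZFSet`s; it is `(X : Set ZFSet)` for a set `X` and `H θ` for the model `H(θ)`. -/
def CtblSub (X : Set ZFSet.{u}) : Set ZFSet.{u} :=
  {Y | (Y : Set ZFSet.{u}) ⊆ X ∧ (Y : Set ZFSet.{u}).Countable ∧ (Y : Set ZFSet.{u}).Infinite}

/-- `E` is a club in `[X]^ω`: unbounded, and closed under unions of increasing `ω`-chains. -/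
def IsClubIn (X : Set ZFSet.{u}) (E : Set ZFSet.{u}) : Prop :=
  E ⊆ CtblSub X ∧
  (∀ Y ∈ CtblSub X, ∃ Z ∈ E, Y ⊆ Z) ∧
  (∀ s : ℕ → ZFSet.{u}, (∀ n, s n ∈ E) → (∀ n, s n ⊆ s (n + 1)) →
    ∀ Z : ZFSet.{u}, (∀ x, x ∈ Z ↔ ∃ n, x ∈ s n) → Z ∈ E)

/-- `O` is an open subset of `[X]^ω` in the topology with the basic open sets `{Y : x ⊆ Y ⊆ N}`, where `x` is
finite and `x ⊆ N ∈ [X]^ω`. -/
def IsOpenIn (X : Set ZFSet.{u}) (O : Set ZFSet.{u}) : Prop :=
  O ⊆ CtblSub X ∧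
  ∀ Y ∈ O, ∃ x : Finset ZFSet.{u}, ∃ N ∈ CtblSub X, (∀ z ∈ x, z ∈ N) ∧ (∀ z ∈ x, z ∈ Y) ∧ Y ⊆ N ∧
    ∀ Y' ∈ CtblSub X, (∀ z ∈ x, z ∈ Y') → Y' ⊆ N → Y' ∈ O

/-- `H(θ)`: the sets whose transitive closure has cardinality less than `θ`. -/
def H (θ : Cardinal.{u}) : Set ZFSet.{u} :=
  {x | ∃ t : ZFSet.{u}, t.IsTransitive ∧ x ⊆ t ∧ t.card < θ}

/-- The relation symbols of the language of set theory: one binary symbol. -/
inductive memRel : ℕ → Type
  | mem : memRel 2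

/-- The language of set theory. -/
def langMem : FirstOrder.Language := ⟨fun _ => Empty, memRel⟩

/-- The structure `(H(θ), ∈)`. -/
instance memStructure (θ : Cardinal.{u}) : langMem.Structure (H θ) where
  funMap := fun f => f.elim
  RelMap := fun {_} r => match r with
    | memRel.mem => fun v => (v 0 : ZFSet.{u}) ∈ (v 1 : ZFSet.{u})

/-- `M ≺ H(θ)`: `M` is (the underlying set of) an elementary substructure of `(H(θ), ∈)`. -/
def IsElem (θ : Cardinal.{u}) (M : ZFSet.{u}) : Prop :=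
  (M : Set ZFSet.{u}) ⊆ H θ ∧ ∃ S : langMem.ElementarySubstructure (H θ), ∀ x : H θ, x ∈ S ↔ (x : ZFSet.{u}) ∈ M

/-- `Σ` (with domain `𝒟`) is an open stationary set mapping for `X` and `θ`. -/
structure IsOpenStationaryMapping (X : ZFSet.{u}) (θ : Cardinal.{u}) (𝒟 : Set ZFSet.{u})
    (Sg : ZFSet.{u} → Set ZFSet.{u}) : Prop where
  /-- `X` is uncountable -/
  uncountable : ¬ (X : Set ZFSet.{u}).Countable
  /-- `θ` is regular -/
  regular : θ.IsRegular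
  /-- `[X]^ω ∈ H(θ)` -/
  large : ∃ z ∈ H θ, ∀ Y : ZFSet.{u}, Y ∈ z ↔ Y ∈ CtblSub (X : Set ZFSet.{u})
  /-- the domain is a club in `[H(θ)]^ω` -/
  club : IsClubIn (H θ) 𝒟
  /-- of elementary submodels -/
  elem : ∀ M ∈ 𝒟, IsElem θ M
  /-- containing `X` -/
  mem : ∀ M ∈ 𝒟, X ∈ M
  /-- the values are open subsets of `[X]^ω` -/
  isOpen : ∀ M ∈ 𝒟, IsOpenIn (X : Set ZFSet.{u}) (Sg M)
  /-- the values are `M`-stationary: `E ∩ Σ(M) ∩ M ≠ ∅` for every club `E ⊆ [X]^ω` with `E ∈ M` -/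
  stationary : ∀ M ∈ 𝒟, ∀ E ∈ M, IsClubIn (X : Set ZFSet.{u}) (E : Set ZFSet.{u}) →
    ∃ Y, Y ∈ E ∧ Y ∈ Sg M ∧ Y ∈ M

/-- The mapping reflection principle. -/
def MRP : Prop :=
  ∀ (X : ZFSet.{u}) (θ : Cardinal.{u}) (𝒟 : Set ZFSet.{u}) (Sg : ZFSet.{u} → Set ZFSet.{u}),
    IsOpenStationaryMapping X θ 𝒟 Sg →
    ∃ N : Ordinal.{0} → ZFSet.{u},
      (∀ ν < ω₁, N ν ∈ 𝒟) ∧
      (∀ ν < ω₁, N ν ∈ N (ν + 1)) ∧
      (∀ ν < ω₁, Order.IsSuccLimit ν → ∀ x, x ∈ N ν ↔ ∃ ξ < ν, x ∈ N ξ) ∧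
      ∀ ν < ω₁, Order.IsSuccLimit ν → ∃ ν₀ < ν, ∀ ξ, ν₀ < ξ → ξ < ν →
        N ξ ∩ X ∈ Sg (N ν)

/-! ## Closure under functions -/

section Cl

variable {O : Type*}

/-- `M` is closed under the functions `f n`, which take finite lists as arguments. -/
def Cl (f : ℕ → List O → O) (M : Set O) : Prop := ∀ n l, (∀ x ∈ l, x ∈ M) → f n l ∈ M

/-- `Φ` holds for all `M ⊆ N` closed under a suitable countable set of functions, which map `N` to `N`. -/
def SkolIn (N : Set O) (Φ : Set O → Prop) : Prop :=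
  ∃ f : ℕ → List O → O, Cl f N ∧ ∀ M, M ⊆ N → Cl f M → Φ M

end Cl

/-! ## An abstract consequence of MRP -/

/-- The chain of models given by MRP. -/
structure AChain {O P : Type u} (jp : P → O) (Sg : Set O → Set (Set P)) (f : ℕ → List O → O)
    (c : ℕ → Set O → O) (N : Ordinal.{0} → Set O) : Prop where
  ctbl : ∀ ν < ω₁, (N ν).Countable
  cl : ∀ ν < ω₁, Cl f (N ν)
  mono : ∀ ν < ω₁, ∀ ξ ≤ ν, N ξ ⊆ N ν
  code : ∀ ν < ω₁, ∀ k, c k (N ν) ∈ N (ν + 1)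
  cont : ∀ ν < ω₁, Order.IsSuccLimit ν → ∀ x ∈ N ν, ∃ ξ < ν, x ∈ N ξ
  refl : ∀ ν < ω₁, Order.IsSuccLimit ν → ∃ ν₀ < ν, ∀ ξ, ν₀ < ξ → ξ < ν → {F | jp F ∈ N ξ} ∈ Sg (N ν)

/-- The abstract form of MRP for models which are subsets of a type `O`. -/
def AMRP : Prop :=
  ∀ (O P : Type u) (jp : P → O) (jpp : Set P → O) (jppp : Set (Set P) → O),
    Function.Injective jp → Function.Injective jpp → Function.Injective jppp → Uncountable P →
    ∀ (f : ℕ → List O → O) (c : ℕ → Set O → O) (Sg : Set O → Set (Set P)),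
    (∀ M : Set O, M.Countable → Cl f M →
      (∀ Y ∈ Sg M, Y.Countable ∧ Y.Infinite) ∧
      (∀ Y ∈ Sg M, ∃ x : Finset P, ↑x ⊆ Y ∧ ∀ Y' : Set P, ↑x ⊆ Y' → Y' ⊆ Y → Y'.Infinite → Y' ∈ Sg M) ∧
      (∀ E : Set (Set P), jppp E ∈ M → (∀ Y ∈ E, Y.Countable ∧ Y.Infinite) →
        (∀ t : Set P, t.Countable → ∃ Y ∈ E, t ⊆ Y) → ∃ Y ∈ E, Y ∈ Sg M ∧ jpp Y ∈ M)) →
    ∃ N : Ordinal.{0} → Set O, AChain jp Sg f c N

end Pool.Agent.H215_MRP
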