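import Pool.Agent.H215_MRP.Base

set_option autoImplicit false

universe u

namespace Pool.Agent.H215_MRP

open Cardinal Ordinal Set Filter

variable {S W : Type u}

section

theorem wit_union {κ : Cardinal.{u}} (hκ : ℵ₀ < κ) {D : Ultrafilter ℕ} {g : Set S → ℕ → Set S}
    (hg : Coh κ D g) {Λ : Type u} (hne : Nonempty Λ) (hΛ : #(ℕ → Λ) < κ) (F : ℕ → Λ → Set S)
    (hF : ∀ h : ℕ → Λ, ∃ z, Wit D g (fun i => F i (h i)) z) :
    ∃ z, Wit D g (fun i => ⋃ ζ, F i ζ) z := by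
  classical
  rcases isEmpty_or_nonempty S with hS | hS
  · refine ⟨fun _ => ∅, fun X _ => Filter.Eventually.of_forall fun i => ?_⟩
    ext x
    exact (hS.false x).elim
  choose G hG using hF
  have hx : ∀ (h h' : ℕ → Λ) (i : ℕ), ∃ x : S,
      (∃ y, y ∈ F i (h i) ∧ y ∈ F i (h' i) ∧ ¬ (y ∈ G h i ↔ y ∈ G h' i)) →
      (x ∈ F i (h i) ∧ x ∈ F i (h' i) ∧ ¬ (x ∈ G h i ↔ x ∈ G h' i)) := by
    intro h h' i
    by_cases hc : ∃ y, y ∈ F i (h i) ∧ y ∈ F i (h' i) ∧ ¬ (y ∈ G h i ↔ y ∈ G h' i)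
    · obtain ⟨y, hy⟩ := hc
      exact ⟨y, fun _ => hy⟩
    · exact ⟨Classical.arbitrary S, fun h => absurd h hc⟩
  choose xx hxx using hx
  set X : Set S := Set.range (fun p : (ℕ → Λ) × (ℕ → Λ) × ℕ => xx p.1 p.2.1 p.2.2) with hXdef
  have hX : #X < κ := by
    refine lt_of_le_of_lt Cardinal.mk_range_le ?_
    have h1 : #((ℕ → Λ) × (ℕ → Λ) × ℕ) = #(ℕ → Λ) * (#(ℕ → Λ) * ℵ₀) := by
      simp [Cardinal.mk_prod]
    rw [h1]
    exact Cardinal.mul_lt_of_lt hκ.le hΛ (Cardinal.mul_lt_of_lt hκ.le hΛ hκ)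
  have hE : ∀ h : ℕ → Λ, ∀ᶠ i in (D : Filter ℕ), G h i ∩ X = g X i ∩ F i (h i) := fun h =>
    wit_small hg (hG h) hX
  have hagree : ∀ (h h' : ℕ → Λ) (i : ℕ), G h i ∩ X = g X i ∩ F i (h i) →
      G h' i ∩ X = g X i ∩ F i (h' i) → ∀ y, y ∈ F i (h i) → y ∈ F i (h' i) →
      (y ∈ G h i ↔ y ∈ G h' i) := by
    intro h h' i e1 e2 y hy hy'
    by_contra hcon
    obtain ⟨h1, h2, h3⟩ := hxx h h' i ⟨y, hy, hy', hcon⟩
    have hmem : xx h h' i ∈ X := ⟨(h, h', i), rfl⟩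
    apply h3
    have e1' := Set.ext_iff.1 e1 (xx h h' i)
    have e2' := Set.ext_iff.1 e2 (xx h h' i)
    simp only [Set.mem_inter_iff, hmem, h1, h2, and_true] at e1' e2'
    rw [e1', e2']
  refine ⟨fun i => {y | ∃ h : ℕ → Λ, G h i ∩ X = g X i ∩ F i (h i) ∧ y ∈ G h i ∧ y ∈ F i (h i)},
    fun X' hX' => ?_⟩
  by_contra hcon
  rw [← Ultrafilter.eventually_not] at hcon
  have hch : ∀ i : ℕ, ∃ (y : S) (ζ : Λ),
      ¬ ({y | ∃ h : ℕ → Λ, G h i ∩ X = g X i ∩ F i (h i) ∧ y ∈ G h i ∧ y ∈ F i (h i)} ∩ X' =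
        g X' i ∩ ⋃ ζ, F i ζ) →
      (y ∈ F i ζ ∧ y ∈ X' ∧ ¬ ((∃ h : ℕ → Λ, G h i ∩ X = g X i ∩ F i (h i) ∧ y ∈ G h i ∧
        y ∈ F i (h i)) ↔ y ∈ g X' i)) := by
    intro i
    by_cases hc : {y | ∃ h : ℕ → Λ, G h i ∩ X = g X i ∩ F i (h i) ∧ y ∈ G h i ∧ y ∈ F i (h i)} ∩
        X' = g X' i ∩ ⋃ ζ, F i ζ
    · exact ⟨Classical.arbitrary S, Classical.choice hne, fun h => absurd hc h⟩
    · have hc' := hc
      rw [Set.ext_iff] at hc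
      push Not at hc
      obtain ⟨y, hy⟩ := hc
      rcases hy with ⟨⟨⟨h, h1, h2, h3⟩, h4⟩, h5⟩ | ⟨h4, h5, h6⟩
      · refine ⟨y, h i, fun _ => ⟨h3, h4, fun h6 => h5 ⟨h6.1 ⟨h, h1, h2, h3⟩, ?_⟩⟩⟩
        exact Set.mem_iUnion.2 ⟨h i, h3⟩
      · obtain ⟨ζ, hζ⟩ := Set.mem_iUnion.1 h6
        have hyX : y ∈ X' := hg.sub X' i h5
        exact ⟨y, ζ, fun _ => ⟨hζ, hyX, fun h7 => h4 ⟨h7.2 h5, hyX⟩⟩⟩
  choose y h hyh using hch
  obtain ⟨i, h1, h2, h3⟩ := (hcon.and ((hE h).and (hG h X' hX'))).exists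
  obtain ⟨h4, h5, h6⟩ := hyh i h1
  apply h6
  have h7 := Set.ext_iff.1 h3 (y i)
  simp only [Set.mem_inter_iff, h5, and_true] at h7
  have h8 : y i ∈ G h i ↔ y i ∈ g X' i := by
    rw [h7]
    exact ⟨fun h => h.1, fun h => ⟨h, h4⟩⟩
  constructor
  · rintro ⟨h', h9, h10, h11⟩
    exact h8.1 ((hagree h h' i h2 h9 (y i) h4 h11).2 h10)
  · intro h9
    exact ⟨h, h2, h8.2 h9, h4⟩

end

section

theorem exists_X1 {κ : Cardinal.{u}} (hκ : ℵ₀ < κ) (hs : κ.IsStrongLimit) {D : Ultrafilter ℕ}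
    {g : Set S → ℕ → Set S} (hg : Coh κ D g) (m : Set (Set S)) (hm : m.Countable) :
    ∃ X, X1spec κ D g m X := by
  classical
  have hpick : ∀ q : (ℕ → m) × (ℕ → m), ∃ X : Set S, X.Countable ∧
      (¬ Wit D g (fun i => (q.1 i : Set S)) (fun i => (q.2 i : Set S)) →
        ¬ ∀ᶠ i in (D : Filter ℕ), (q.2 i : Set S) ∩ X = g X i ∩ (q.1 i : Set S)) := by
    intro q
    by_cases h : Wit D g (fun i => (q.1 i : Set S)) (fun i => (q.2 i : Set S))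
    · exact ⟨∅, Set.countable_empty, fun h' => absurd h h'⟩
    · have h1 := h
      unfold Wit at h1
      push Not at h1
      obtain ⟨X, hX, h2⟩ := h1
      exact ⟨X, hX, fun _ => by simpa using h2⟩
  choose X0 hX0 hX1 using hpick
  have hc : Cardinal.lift.{u} (#ℕ) = ℵ₀ := by simp
  have hm' : #m ≤ ℵ₀ := Cardinal.le_aleph0_iff_set_countable.2 hm
  have hseq : #(ℕ → m) ≤ 2 ^ (ℵ₀ : Cardinal.{u}) := by
    rw [Cardinal.mk_arrow]
    simp only [Cardinal.lift_uzero, Cardinal.mk_nat, Cardinal.lift_aleph0]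
    calc #m ^ (ℵ₀ : Cardinal.{u}) ≤ ℵ₀ ^ (ℵ₀ : Cardinal.{u}) :=
          Cardinal.power_le_power_right hm'
      _ = 2 ^ (ℵ₀ : Cardinal.{u}) := Cardinal.power_self_eq le_rfl
  have hinf : (ℵ₀ : Cardinal.{u}) ≤ 2 ^ (ℵ₀ : Cardinal.{u}) := (Cardinal.cantor _).le
  have hpairs : #((ℕ → m) × (ℕ → m)) ≤ 2 ^ (ℵ₀ : Cardinal.{u}) := by
    rw [Cardinal.mk_prod]
    simp only [Cardinal.lift_id]
    calc #(ℕ → m) * #(ℕ → m) ≤ 2 ^ (ℵ₀ : Cardinal.{u}) * 2 ^ (ℵ₀ : Cardinal.{u}) :=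
          mul_le_mul' hseq hseq
      _ = 2 ^ (ℵ₀ : Cardinal.{u}) := Cardinal.mul_eq_self hinf
  have hsmall : #(⋃ q, X0 q : Set S) < κ := by
    have h1 : #(⋃ q, X0 q : Set S) ≤ 2 ^ (ℵ₀ : Cardinal.{u}) := by
      refine (Cardinal.mk_iUnion_le_sum_mk).trans ?_
      calc Cardinal.sum (fun q => #(X0 q)) ≤ Cardinal.sum (fun _ : (ℕ → m) × (ℕ → m) => ℵ₀) :=
            Cardinal.sum_le_sum _ _ fun q => Cardinal.le_aleph0_iff_set_countable.2 (hX0 q)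
        _ = #((ℕ → m) × (ℕ → m)) * ℵ₀ := by rw [Cardinal.sum_const']
        _ ≤ 2 ^ (ℵ₀ : Cardinal.{u}) * 2 ^ (ℵ₀ : Cardinal.{u}) := mul_le_mul' hpairs hinf
        _ = 2 ^ (ℵ₀ : Cardinal.{u}) := Cardinal.mul_eq_self hinf
    exact h1.trans_lt (hs.two_power_lt hκ)
  refine ⟨⋃ q, X0 q, hsmall, ?_⟩
  intro F z hF hz h
  by_contra hW
  set q : (ℕ → m) × (ℕ → m) := (fun i => ⟨F i, hF i⟩, fun i => ⟨z i, hz i⟩) with hq
  have h1 := hX1 q hW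
  apply h1
  have hsub : X0 q ⊆ ⋃ q, X0 q := Set.subset_iUnion X0 q
  filter_upwards [h, hg.coh (X0 q) _ hsub hsmall] with i h2 h3
  show z i ∩ X0 q = g (X0 q) i ∩ F i
  rw [← h3]
  have h4 : z i ∩ X0 q = (z i ∩ ⋃ q, X0 q) ∩ X0 q := by
    rw [Set.inter_assoc, Set.inter_eq_self_of_subset_right hsub]
  rw [h4, h2]
  ext x
  simp only [Set.mem_inter_iff]
  tauto

end

section

theorem exists_X2 {κ : Cardinal.{u}} (hκ : ℵ₀ < κ) (hs : κ.IsStrongLimit) {D : Ultrafilter ℕ}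
    {g : Set S → ℕ → Set S} (m : Set (Set S)) (hm : m.Countable) :
    ∃ X Q, X2spec κ D g m X Q := by
  classical
  let I : Type u := {F : ℕ → m // ∃ z, Wit D g (fun i => (F i : Set S)) z}
  let zf : I → ℕ → Set S := fun F => F.2.choose
  have hzf : ∀ F : I, Wit D g (fun i => (F.1 i : Set S)) (zf F) := fun F => F.2.choose_spec
  let Q : Set (Set S) := Set.range (fun p : I × ℕ => zf p.1 p.2)
  have hI : #I < κ := by
    have h1 : #I ≤ #(ℕ → m) := Cardinal.mk_subtype_le _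
    have h2 : #(ℕ → m) ≤ 2 ^ (ℵ₀ : Cardinal.{u}) := by
      have hmm : #m ≤ ℵ₀ := Cardinal.mk_le_aleph0_iff.2 hm.to_subtype
      rw [Cardinal.mk_pi]
      simp only [Cardinal.prod_const, Cardinal.mk_nat, Cardinal.lift_aleph0, Cardinal.lift_uzero]
      calc #m ^ (ℵ₀ : Cardinal.{u}) ≤ ℵ₀ ^ (ℵ₀ : Cardinal.{u}) := Cardinal.power_le_power_right hmm
        _ = 2 ^ (ℵ₀ : Cardinal.{u}) := Cardinal.power_self_eq le_rfl
    exact (h1.trans h2).trans_lt (hs.two_power_lt hκ)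
  have hQ : #Q < κ := by
    have h1 : #Q ≤ #(I × ℕ) := Cardinal.mk_range_le
    refine h1.trans_lt ?_
    rw [Cardinal.mk_prod]
    simp only [Cardinal.lift_uzero, Cardinal.mk_nat, Cardinal.lift_aleph0]
    exact Cardinal.mul_lt_of_lt hκ.le hI hκ
  have hsep : ∀ p : Set S × Set S, p.1 ≠ p.2 → ∃ x, ¬ (x ∈ p.1 ↔ x ∈ p.2) := by
    intro p hp
    by_contra hcon
    push Not at hcon
    exact hp (Set.ext hcon)
  let J : Type u := {p : Q × Q // (p.1 : Set S) ≠ p.2}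
  let xf : J → S := fun p => (hsep (p.1.1, p.1.2) p.2).choose
  have hxf : ∀ p : J, ¬ (xf p ∈ (p.1.1 : Set S) ↔ xf p ∈ (p.1.2 : Set S)) := fun p =>
    (hsep (p.1.1, p.1.2) p.2).choose_spec
  refine ⟨Set.range xf, Q, ?_, ?_, ?_⟩
  · have h1 : #(Set.range xf) ≤ #J := Cardinal.mk_range_le
    have h2 : #J ≤ #(Q × Q) := Cardinal.mk_subtype_le _
    refine (h1.trans h2).trans_lt ?_
    rw [Cardinal.mul_def Q Q |>.symm]
    exact Cardinal.mul_lt_of_lt hκ.le hQ hQ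
  · intro F hF hz
    let G : I := ⟨fun i => ⟨F i, hF i⟩, hz⟩
    exact ⟨zf G, hzf G, fun i => ⟨(G, i), rfl⟩⟩
  · intro z hz z' hz' h
    by_contra hne
    let p : J := ⟨(⟨z, hz⟩, ⟨z', hz'⟩), hne⟩
    have hx : xf p ∈ Set.range xf := ⟨p, rfl⟩
    apply hxf p
    constructor
    · intro hxz
      have : xf p ∈ z' ∩ Set.range xf := h ▸ (⟨hxz, hx⟩ : xf p ∈ z ∩ Set.range xf)
      exact this.1
    · intro hxz
      have : xf p ∈ z ∩ Set.range xf := h.symm ▸ (⟨hxz, hx⟩ : xf p ∈ z' ∩ Set.range xf)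
      exact this.1

end

section

theorem big_wit {κ : Cardinal.{u}} (hκ : ℵ₀ < κ) {D : Ultrafilter ℕ} {g : Set S → ℕ → Set S}
    (hg : Coh κ D g) {N : Set (Obj S W)} (hN : Big κ D g N) {F z : ℕ → Set S} (hF : ∀ i, Obj.p (F i) ∈ N)
    (hz : ∀ i, Obj.p (z i) ∈ N)
    (h : ∀ᶠ i in (D : Filter ℕ), IsGuess N (g (SM N) i) (F i) (z i)) : Wit D g F z := by
  obtain ⟨m, X₁, X₂, Q, hCm, hX₁, -, -, hspec, -⟩ := hN.code (Set.range F ∪ Set.range z)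
    ((Set.countable_range F).union (Set.countable_range z)) (by
      rintro A (⟨i, rfl⟩ | ⟨i, rfl⟩)
      · exact hF i
      · exact hz i)
  refine hspec.2 F z (fun i => hCm (Or.inl ⟨i, rfl⟩)) (fun i => hCm (Or.inr ⟨i, rfl⟩)) ?_
  have hX' : #(↥(SM N ∪ X₁)) < κ :=
    lt_of_le_of_lt (Cardinal.mk_union_le _ _) (Cardinal.add_lt_of_lt hκ.le hN.small hspec.1)
  filter_upwards [hg.coh X₁ (SM N ∪ X₁) Set.subset_union_right hX',
    hg.coh (SM N) (SM N ∪ X₁) Set.subset_union_left hX', h] with i h1 h2 h3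
  by_contra hne
  have hA : Obj.p (z i ∩ X₁) ∈ N := hN.good.p_inter _ _ (hz i) hX₁
  have hB : Obj.p (g X₁ i ∩ F i) ∈ N := hN.good.p_inter _ _ (hN.good.gmem _ hX₁ i) (hF i)
  obtain ⟨x, hx, hxn⟩ := hN.good.sep _ _ hA hB hne
  apply hxn
  have hxS : x ∈ SM N := hx
  by_cases hxX : x ∈ X₁
  · have e1 : x ∈ z i ↔ x ∈ g (SM N) i ∧ x ∈ F i := h3.2.2 x hx
    have e2 : x ∈ g (SM N) i ↔ x ∈ g (SM N ∪ X₁) i := by
      rw [← h2]
      exact ⟨fun h => h.1, fun h => ⟨h, hxS⟩⟩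
    have e3 : x ∈ g X₁ i ↔ x ∈ g (SM N ∪ X₁) i := by
      rw [← h1]
      exact ⟨fun h => h.1, fun h => ⟨h, hxX⟩⟩
    constructor
    · rintro ⟨hz1, -⟩
      obtain ⟨h4, h5⟩ := e1.1 hz1
      exact ⟨e3.2 (e2.1 h4), h5⟩
    · rintro ⟨h4, h5⟩
      exact ⟨e1.2 ⟨e2.2 (e3.1 h4), h5⟩, hxX⟩
  · constructor
    · rintro ⟨-, h4⟩
      exact absurd h4 hxX
    · rintro ⟨h4, -⟩
      exact absurd (hg.sub X₁ i h4) hxX

end

section

theorem big_guess {κ : Cardinal.{u}} {D : Ultrafilter ℕ} {g : Set S → ℕ → Set S}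
    (hg : Coh κ D g) {N : Set (Obj S W)} (hN : Big κ D g N) {F : ℕ → Set S} (hF : ∀ i, Obj.p (F i) ∈ N)
    (h : ∃ z, Wit D g F z) : ∀ᶠ i in (D : Filter ℕ), F i ∈ GG N (g (SM N) i) := by
  obtain ⟨m, X₁, X₂, Q, hCm, hX1, hX2, hQ, hs1, hs2⟩ := hN.code (range F) (countable_range F)
    (by rintro _ ⟨i, rfl⟩; exact hF i)
  obtain ⟨hX2small, hQw, hQsep⟩ := hs2
  obtain ⟨z, hz, hzQ⟩ := hQw F (fun i => hCm (mem_range_self i)) h
  filter_upwards [wit_small hg hz hX2small, wit_small hg hz hN.small] with i h1 h2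
  have ht : Obj.p (g X₂ i ∩ F i) ∈ N := hN.good.p_inter _ _ (hN.good.gmem _ hX2 i) (hF i)
  obtain ⟨z', hz'Q, hz'N, hz'X⟩ := hN.good.p_retr Q X₂ (g X₂ i ∩ F i) hQ hX2 ht ⟨z i, hzQ i, h1⟩
  have hzz : z' = z i := hQsep z' hz'Q (z i) (hzQ i) (hz'X.trans h1.symm)
  rw [hzz] at hz'N
  refine ⟨hF i, z i ∩ F i, hN.good.p_inter _ _ hz'N (hF i), inter_subset_right, fun x hx => ?_⟩
  have hxN : x ∈ SM N := hx
  constructor
  · rintro ⟨hxz, _⟩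
    have h3 : x ∈ z i ∩ SM N := ⟨hxz, hxN⟩
    rw [h2] at h3
    exact h3
  · rintro ⟨hxg, hxF⟩
    have h3 : x ∈ g (SM N) i ∩ F i := ⟨hxg, hxF⟩
    rw [← h2] at h3
    exact ⟨h3.1, hxF⟩

end

section

theorem big_nice {κ : Cardinal.{u}} (hκ : ℵ₀ < κ) {D : Ultrafilter ℕ} {g : Set S → ℕ → Set S}
    (hg : Coh κ D g) (hne : Nonempty W) (hW : #(ℕ → W) < κ) {N : Set (Obj S W)} (hN : Big κ D g N) :
    ∀ᶠ i in (D : Filter ℕ), Nice N (g (SM N) i) := by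
  classical
  by_contra hcon
  have hev : ∀ᶠ i in (D : Filter ℕ), ¬ Nice N (g (SM N) i) := Ultrafilter.eventually_not.mpr hcon
  have hch : ∀ i, ∃ f : W → Set S, Obj.fam f ∈ N ∧ (¬ Nice N (g (SM N) i) →
      (∀ ζ, f ζ ∈ GG N (g (SM N) i)) ∧ (⋃ ζ, f ζ) ∉ GG N (g (SM N) i)) := by
    intro i
    by_cases h : Nice N (g (SM N) i)
    · exact ⟨fun _ => ∅, hN.good.fam_empty, fun h' => absurd h h'⟩
    · unfold Nice at h
      push Not at h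
      obtain ⟨f, hf, h1, h2⟩ := h
      exact ⟨f, hf, fun _ => ⟨fun ζ => h1 ζ (hN.allW ζ), h2⟩⟩
  choose f hf1 hf2 using hch
  have hu : ∃ z, Wit D g (fun i => ⋃ ζ, f i ζ) z := by
    refine wit_union hκ hg hne hW f ?_
    intro h
    have hz : ∀ i, ∃ z : Set S, Obj.p z ∈ N ∧ ((∃ z, IsGuess N (g (SM N) i) (f i (h i)) z) →
        IsGuess N (g (SM N) i) (f i (h i)) z) := by
      intro i
      by_cases h' : ∃ z, IsGuess N (g (SM N) i) (f i (h i)) z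
      · obtain ⟨z, hz⟩ := h'
        exact ⟨z, hz.1, fun _ => hz⟩
      · exact ⟨∅, hN.good.p_empty, fun h'' => absurd h'' h'⟩
    choose z hz1 hz2 using hz
    refine ⟨z, big_wit hκ hg hN (fun i => hN.good.fam_app _ _ (hf1 i) (hN.allW _)) hz1 ?_⟩
    filter_upwards [hev] with i hi
    exact hz2 i ((hf2 i hi).1 (h i)).2
  have hev2 := big_guess hg hN (fun i => hN.good.fam_union _ (hf1 i)) hu
  obtain ⟨i, h1, h2⟩ := (hev.and hev2).exists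
  exact (hf2 i h1).2 h2

end

end Pool.Agent.H215_MRP
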