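import Pool.Agent.H215_MRP.Base

set_option autoImplicit false

universe u

namespace Pool.Agent.H215_MRP

open Cardinal Ordinal Set Filter

variable {S W : Type u}

section

theorem exists_good_sk0 {O B : Type*} [Nonempty O] (b : B → O) (R : B → Prop) (h : ∃ y, R y) :
    SkolIn Set.univ (fun M => ∃ y, b y ∈ M ∧ R y) := by
  refine skolIn_mono (skolIn_ex Set.univ_nonempty (fun _ : Unit => ([] : List O))
    (fun _ _ _ => rfl) b (fun _ y => R y) (fun x _ hx => ?_)) ?_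
  · obtain ⟨y, hy⟩ := hx
    exact ⟨y, Set.mem_univ _, hy⟩
  · intro M _ hM
    exact hM () (by simp) h

theorem exists_good_sk1 {O A1 B : Type*} [Nonempty O] (a1 : A1 → O) (h1 : Function.Injective a1)
    (b : B → O) (R : A1 → B → Prop) :
    SkolIn Set.univ (fun M => ∀ x1, a1 x1 ∈ M → (∃ y, R x1 y) → ∃ y, b y ∈ M ∧ R x1 y) := by
  refine skolIn_mono (skolIn_ex Set.univ_nonempty (fun x : A1 => [a1 x])
    (fun x y hxy => h1 (by simpa using hxy)) b R (fun x _ hx => ?_)) ?_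
  · obtain ⟨y, hy⟩ := hx
    exact ⟨y, Set.mem_univ _, hy⟩
  · intro M _ hM x1 hx1 h
    exact hM x1 (by simpa using hx1) h

theorem exists_good_sk2 {O A1 A2 B : Type*} [Nonempty O] (a1 : A1 → O)
    (h1 : Function.Injective a1) (a2 : A2 → O) (h2 : Function.Injective a2)
    (b : B → O) (R : A1 → A2 → B → Prop) :
    SkolIn Set.univ (fun M => ∀ x1 x2, a1 x1 ∈ M → a2 x2 ∈ M → (∃ y, R x1 x2 y) →
      ∃ y, b y ∈ M ∧ R x1 x2 y) := by
  refine skolIn_mono (skolIn_ex Set.univ_nonempty (fun x : A1 × A2 => [a1 x.1, a2 x.2])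
    (fun x y hxy => ?_) b (fun x y => R x.1 x.2 y) (fun x _ hx => ?_)) ?_
  · simp only [List.cons.injEq, and_true] at hxy
    exact Prod.ext (h1 hxy.1) (h2 hxy.2)
  · obtain ⟨y, hy⟩ := hx
    exact ⟨y, Set.mem_univ _, hy⟩
  · intro M _ hM x1 x2 hx1 hx2 h
    exact hM (x1, x2) (by simp [hx1, hx2]) h

theorem exists_good_sk3 {O A1 A2 A3 B : Type*} [Nonempty O] (a1 : A1 → O)
    (h1 : Function.Injective a1) (a2 : A2 → O) (h2 : Function.Injective a2)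
    (a3 : A3 → O) (h3 : Function.Injective a3)
    (b : B → O) (R : A1 → A2 → A3 → B → Prop) :
    SkolIn Set.univ (fun M => ∀ x1 x2 x3, a1 x1 ∈ M → a2 x2 ∈ M → a3 x3 ∈ M →
      (∃ y, R x1 x2 x3 y) → ∃ y, b y ∈ M ∧ R x1 x2 x3 y) := by
  refine skolIn_mono (skolIn_ex Set.univ_nonempty
    (fun x : A1 × A2 × A3 => [a1 x.1, a2 x.2.1, a3 x.2.2])
    (fun x y hxy => ?_) b (fun x y => R x.1 x.2.1 x.2.2 y) (fun x _ hx => ?_)) ?_
  · simp only [List.cons.injEq, and_true] at hxy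
    exact Prod.ext (h1 hxy.1) (Prod.ext (h2 hxy.2.1) (h3 hxy.2.2))
  · obtain ⟨y, hy⟩ := hx
    exact ⟨y, Set.mem_univ _, hy⟩
  · intro M _ hM x1 x2 x3 hx1 hx2 hx3 h
    exact hM (x1, x2, x3) (by simp [hx1, hx2, hx3]) h

theorem exists_good_sk4 {O A1 A2 A3 A4 B : Type*} [Nonempty O] (a1 : A1 → O)
    (h1 : Function.Injective a1) (a2 : A2 → O) (h2 : Function.Injective a2)
    (a3 : A3 → O) (h3 : Function.Injective a3) (a4 : A4 → O) (h4 : Function.Injective a4)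
    (b : B → O) (R : A1 → A2 → A3 → A4 → B → Prop) :
    SkolIn Set.univ (fun M => ∀ x1 x2 x3 x4, a1 x1 ∈ M → a2 x2 ∈ M → a3 x3 ∈ M → a4 x4 ∈ M →
      (∃ y, R x1 x2 x3 x4 y) → ∃ y, b y ∈ M ∧ R x1 x2 x3 x4 y) := by
  refine skolIn_mono (skolIn_ex Set.univ_nonempty
    (fun x : A1 × A2 × A3 × A4 => [a1 x.1, a2 x.2.1, a3 x.2.2.1, a4 x.2.2.2])
    (fun x y hxy => ?_) b (fun x y => R x.1 x.2.1 x.2.2.1 x.2.2.2 y) (fun x _ hx => ?_)) ?_
  · simp only [List.cons.injEq, and_true] at hxy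
    exact Prod.ext (h1 hxy.1) (Prod.ext (h2 hxy.2.1) (Prod.ext (h3 hxy.2.2.1) (h4 hxy.2.2.2)))
  · obtain ⟨y, hy⟩ := hx
    exact ⟨y, Set.mem_univ _, hy⟩
  · intro M _ hM x1 x2 x3 x4 hx1 hx2 hx3 hx4 h
    exact hM (x1, x2, x3, x4) (by simp [hx1, hx2, hx3, hx4]) h

theorem exists_good_sk5 {O A1 A2 A3 A4 A5 B : Type*} [Nonempty O] (a1 : A1 → O)
    (h1 : Function.Injective a1) (a2 : A2 → O) (h2 : Function.Injective a2)
    (a3 : A3 → O) (h3 : Function.Injective a3) (a4 : A4 → O) (h4 : Function.Injective a4)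
    (a5 : A5 → O) (h5 : Function.Injective a5)
    (b : B → O) (R : A1 → A2 → A3 → A4 → A5 → B → Prop) :
    SkolIn Set.univ (fun M => ∀ x1 x2 x3 x4 x5, a1 x1 ∈ M → a2 x2 ∈ M → a3 x3 ∈ M → a4 x4 ∈ M →
      a5 x5 ∈ M → (∃ y, R x1 x2 x3 x4 x5 y) → ∃ y, b y ∈ M ∧ R x1 x2 x3 x4 x5 y) := by
  refine skolIn_mono (skolIn_ex Set.univ_nonempty
    (fun x : A1 × A2 × A3 × A4 × A5 => [a1 x.1, a2 x.2.1, a3 x.2.2.1, a4 x.2.2.2.1, a5 x.2.2.2.2])
    (fun x y hxy => ?_) b (fun x y => R x.1 x.2.1 x.2.2.1 x.2.2.2.1 x.2.2.2.2 y)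
    (fun x _ hx => ?_)) ?_
  · simp only [List.cons.injEq, and_true] at hxy
    exact Prod.ext (h1 hxy.1) (Prod.ext (h2 hxy.2.1) (Prod.ext (h3 hxy.2.2.1)
      (Prod.ext (h4 hxy.2.2.2.1) (h5 hxy.2.2.2.2))))
  · obtain ⟨y, hy⟩ := hx
    exact ⟨y, Set.mem_univ _, hy⟩
  · intro M _ hM x1 x2 x3 x4 x5 hx1 hx2 hx3 hx4 hx5 h
    exact hM (x1, x2, x3, x4, x5) (by simp [hx1, hx2, hx3, hx4, hx5]) h

instance exists_good_nonempty : Nonempty (Obj S W) := ⟨Obj.p ∅⟩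

theorem exists_good_el : Function.Injective (Obj.el : S → Obj S W) := fun _ _ h => Obj.el.inj h
theorem exists_good_p : Function.Injective (Obj.p : Set S → Obj S W) := fun _ _ h => Obj.p.inj h
theorem exists_good_pp : Function.Injective (Obj.pp : Set (Set S) → Obj S W) :=
  fun _ _ h => Obj.pp.inj h
theorem exists_good_ppp : Function.Injective (Obj.ppp : Set (Set (Set S)) → Obj S W) :=
  fun _ _ h => Obj.ppp.inj h
theorem exists_good_fy :
    Function.Injective (Obj.fy : (List (Set S) → Set (Set S)) → Obj S W) :=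
  fun _ _ h => Obj.fy.inj h
theorem exists_good_fam : Function.Injective (Obj.fam : (W → Set S) → Obj S W) :=
  fun _ _ h => Obj.fam.inj h
theorem exists_good_w : Function.Injective (Obj.w : W → Obj S W) := fun _ _ h => Obj.w.inj h
theorem exists_good_lp : Function.Injective (Obj.lp : List (Set S) → Obj S W) :=
  fun _ _ h => Obj.lp.inj h

theorem exists_good (g : Set S → ℕ → Set S) : SkolIn Set.univ (fun M : Set (Obj S W) => Good g M) := by
  have e1 := exists_good_sk0 (Obj.p : Set S → Obj S W) (fun y => y = ∅) ⟨_, rfl⟩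
  have e2 := exists_good_sk0 (Obj.p : Set S → Obj S W) (fun y => y = Set.univ) ⟨_, rfl⟩
  have e3 := exists_good_sk2 (Obj.p : Set S → Obj S W) exists_good_p (Obj.p : Set S → Obj S W)
    exists_good_p (Obj.p : Set S → Obj S W) (fun F F' y => y = F ∩ F')
  have e4 := exists_good_sk2 (Obj.p : Set S → Obj S W) exists_good_p (Obj.p : Set S → Obj S W)
    exists_good_p (Obj.el : S → Obj S W) (fun F F' x => ¬ (x ∈ F ↔ x ∈ F'))
  have e5 := skolIn_nat (fun i => exists_good_sk1 (Obj.p : Set S → Obj S W) exists_good_p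
    (Obj.p : Set S → Obj S W) (fun X y => y = g X i))
  have e6 := exists_good_sk2 (Obj.fam : (W → Set S) → Obj S W) exists_good_fam
    (Obj.w : W → Obj S W) exists_good_w (Obj.p : Set S → Obj S W) (fun f ζ y => y = f ζ)
  have e7 := exists_good_sk1 (Obj.fam : (W → Set S) → Obj S W) exists_good_fam
    (Obj.p : Set S → Obj S W) (fun f y => y = ⋃ ζ, f ζ)
  have e8 := exists_good_sk0 (Obj.fam : (W → Set S) → Obj S W) (fun y => y = fun _ => ∅) ⟨_, rfl⟩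
  have e9 := exists_good_sk1 (Obj.pp : Set (Set S) → Obj S W) exists_good_pp
    (Obj.p : Set S → Obj S W) (fun A F => F ∉ A)
  have e10 := exists_good_sk1 (Obj.pp : Set (Set S) → Obj S W) exists_good_pp
    (Obj.p : Set S → Obj S W) (fun A y => y = ⋃₀ A)
  have e11 := exists_good_sk1 (Obj.p : Set S → Obj S W) exists_good_p
    (Obj.pp : Set (Set S) → Obj S W) (fun F y => y = {F' : Set S | F' ⊆ F ∧ #F' < #F})
  have e12 := exists_good_sk1 (Obj.p : Set S → Obj S W) exists_good_p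
    (Obj.fam : (W → Set S) → Obj S W)
    (fun F f => (∀ ζ, f ζ ⊆ F ∧ #(f ζ) < #F) ∧ (⋃ ζ, f ζ) = F)
  have e13 := exists_good_sk0 (Obj.lp : List (Set S) → Obj S W) (fun y => y = []) ⟨_, rfl⟩
  have e14 := exists_good_sk2 (Obj.p : Set S → Obj S W) exists_good_p
    (Obj.lp : List (Set S) → Obj S W) exists_good_lp (Obj.lp : List (Set S) → Obj S W)
    (fun F l y => y = F :: l)
  have e15 := exists_good_sk2 (Obj.fy : (List (Set S) → Set (Set S)) → Obj S W) exists_good_fy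
    (Obj.lp : List (Set S) → Obj S W) exists_good_lp (Obj.pp : Set (Set S) → Obj S W)
    (fun Y l y => y = Y l)
  have e16 := exists_good_sk2 (Obj.pp : Set (Set S) → Obj S W) exists_good_pp
    (Obj.fy : (List (Set S) → Set (Set S)) → Obj S W) exists_good_fy
    (Obj.fy : (List (Set S) → Set (Set S)) → Obj S W)
    (fun FF Y Y' => (∀ l, (Y' l).Countable) ∧
      ∀ l t, Captured FF (fun F => Y (F :: l)) t → ∃ a ∈ t, a ∈ Y' l)
  have e17 := exists_good_sk4 (Obj.pp : Set (Set S) → Obj S W) exists_good_pp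
    (Obj.fy : (List (Set S) → Set (Set S)) → Obj S W) exists_good_fy
    (Obj.lp : List (Set S) → Obj S W) exists_good_lp (Obj.lp : List (Set S) → Obj S W)
    exists_good_lp (Obj.pp : Set (Set S) → Obj S W)
    (fun FF Y t l y => y = {F | F ∈ FF ∧ ∀ a ∈ t, a ∉ Y (F :: l)})
  have e18 := exists_good_sk4 (Obj.pp : Set (Set S) → Obj S W) exists_good_pp
    (Obj.pp : Set (Set S) → Obj S W) exists_good_pp
    (Obj.fy : (List (Set S) → Set (Set S)) → Obj S W) exists_good_fy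
    (Obj.lp : List (Set S) → Obj S W) exists_good_lp
    (Obj.fy : (List (Set S) → Set (Set S)) → Obj S W)
    (fun FF SS Y l Y' => ∀ F ∈ FF, ∃ F' ∈ SS, F ⊆ F' ∧
      Y' [F] = (fun b => b ∩ F) '' Y (F' :: l))
  have e19 := exists_good_sk5 (Obj.pp : Set (Set S) → Obj S W) exists_good_pp
    (Obj.fy : (List (Set S) → Set (Set S)) → Obj S W) exists_good_fy
    (Obj.fy : (List (Set S) → Set (Set S)) → Obj S W) exists_good_fy
    (Obj.lp : List (Set S) → Obj S W) exists_good_lp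
    (Obj.p : Set S → Obj S W) exists_good_p
    (Obj.p : Set S → Obj S W)
    (fun SS Y Y' l F F' => F' ∈ SS ∧ F ⊆ F' ∧ Y' [F] = (fun b => b ∩ F) '' Y (F' :: l))
  have e20 := exists_good_sk2 (Obj.pp : Set (Set S) → Obj S W) exists_good_pp
    (Obj.fy : (List (Set S) → Set (Set S)) → Obj S W) exists_good_fy
    (Obj.p : Set S → Obj S W)
    (fun FF Y F₁ => F₁ ∈ FF ∧
      ∀ b ⊆ F₁, ∃ F ∈ FF, F ⊆ F₁ ∧ (b ∩ F ∉ Y [F] ∨ Solid FF (fun F => Y [F]) F (b ∩ F)))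
  have e21 := exists_good_sk4 (Obj.pp : Set (Set S) → Obj S W) exists_good_pp
    (Obj.fy : (List (Set S) → Set (Set S)) → Obj S W) exists_good_fy
    (Obj.p : Set S → Obj S W) exists_good_p (Obj.p : Set S → Obj S W) exists_good_p
    (Obj.p : Set S → Obj S W)
    (fun FF Y F₁ b F => F ∈ FF ∧ F ⊆ F₁ ∧
      (b ∩ F ∉ Y [F] ∨ Solid FF (fun F => Y [F]) F (b ∩ F)))
  have e22 := exists_good_sk4 (Obj.pp : Set (Set S) → Obj S W) exists_good_pp
    (Obj.fy : (List (Set S) → Set (Set S)) → Obj S W) exists_good_fy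
    (Obj.p : Set S → Obj S W) exists_good_p (Obj.p : Set S → Obj S W) exists_good_p
    (Obj.p : Set S → Obj S W)
    (fun FF Y F₀ b₀ y => y = zstar FF (fun F => Y [F]) F₀ b₀)
  have e23 := exists_good_sk5 (Obj.pp : Set (Set S) → Obj S W) exists_good_pp
    (Obj.fy : (List (Set S) → Set (Set S)) → Obj S W) exists_good_fy
    (Obj.p : Set S → Obj S W) exists_good_p (Obj.p : Set S → Obj S W) exists_good_p
    (Obj.el : S → Obj S W) exists_good_el
    (Obj.p : Set S → Obj S W)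
    (fun FF Y F₀ b₀ x F => F ∈ FF ∧ F₀ ⊆ F ∧ x ∈ F ∧ ∃! b, b ∈ Y [F] ∧ b ∩ F₀ = b₀)
  have e24 := exists_good_sk5 (Obj.pp : Set (Set S) → Obj S W) exists_good_pp
    (Obj.fy : (List (Set S) → Set (Set S)) → Obj S W) exists_good_fy
    (Obj.p : Set S → Obj S W) exists_good_p (Obj.p : Set S → Obj S W) exists_good_p
    (Obj.el : S → Obj S W) exists_good_el
    (Obj.p : Set S → Obj S W)
    (fun FF Y F₀ b₀ x F => F ∈ FF ∧ F₀ ⊆ F ∧ (∃! b, b ∈ Y [F] ∧ b ∩ F₀ = b₀) ∧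
      ∃ b, (b ∈ Y [F] ∧ b ∩ F₀ = b₀) ∧ x ∈ b)
  have e25 := exists_good_sk1 (Obj.ppp : Set (Set (Set S)) → Obj S W) exists_good_ppp
    (Obj.fy : (List (Set S) → Set (Set S)) → Obj S W)
    (fun E Y => ∀ l, Y l ∈ E ∧ ∀ F ∈ l, F ∈ Y l)
  have e26 := exists_good_sk3 (Obj.pp : Set (Set S) → Obj S W) exists_good_pp
    (Obj.p : Set S → Obj S W) exists_good_p (Obj.p : Set S → Obj S W) exists_good_p
    (Obj.p : Set S → Obj S W)
    (fun Q X t z => z ∈ Q ∧ z ∩ X = t)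
  have f1 := skolIn_and e1 (skolIn_and e2 (skolIn_and e3 (skolIn_and e4 (skolIn_and e5 e6))))
  have f2 := skolIn_and e7 (skolIn_and e8 (skolIn_and e9 (skolIn_and e10 (skolIn_and e11 e12))))
  have f3 := skolIn_and e13 (skolIn_and e14 (skolIn_and e15 (skolIn_and e16 (skolIn_and e17 e18))))
  have f4 := skolIn_and e19 (skolIn_and e20 (skolIn_and e21 (skolIn_and e22 (skolIn_and e23 e24))))
  have f5 := skolIn_and e25 e26
  refine skolIn_mono (skolIn_and f1 (skolIn_and f2 (skolIn_and f3 (skolIn_and f4 f5)))) ?_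
  clear e1 e2 e3 e4 e5 e6 e7 e8 e9 e10 e11 e12 e13 e14 e15 e16 e17 e18 e19 e20 e21 e22 e23 e24 e25
    e26 f1 f2 f3 f4 f5
  rintro M - ⟨⟨m1, m2, m3, m4, m5, m6⟩, ⟨m7, m8, m9, m10, m11, m12⟩, ⟨m13, m14, m15, m16, m17, m18⟩,
    ⟨m19, m20, m21, m22, m23, m24⟩, m25, m26⟩
  constructor
  · obtain ⟨y, hy, rfl⟩ := m1
    exact hy
  · obtain ⟨y, hy, rfl⟩ := m2
    exact hy
  · intro F F' hF hF'
    obtain ⟨y, hy, rfl⟩ := m3 F F' hF hF' ⟨_, rfl⟩
    exact hy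
  · intro F F' hF hF' hne
    refine m4 F F' hF hF' ?_
    by_contra hcon
    push Not at hcon
    exact hne (Set.ext fun x => hcon x)
  · intro X hX i
    obtain ⟨y, hy, rfl⟩ := m5 i X hX ⟨_, rfl⟩
    exact hy
  · intro f ζ hf hζ
    obtain ⟨y, hy, rfl⟩ := m6 f ζ hf hζ ⟨_, rfl⟩
    exact hy
  · intro f hf
    obtain ⟨y, hy, rfl⟩ := m7 f hf ⟨_, rfl⟩
    exact hy
  · obtain ⟨y, hy, rfl⟩ := m8
    exact hy
  · intro A hA h
    exact m9 A hA h
  · intro A hA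
    obtain ⟨y, hy, rfl⟩ := m10 A hA ⟨_, rfl⟩
    exact hy
  · intro F hF
    obtain ⟨y, hy, rfl⟩ := m11 F hF ⟨_, rfl⟩
    exact hy
  · intro F hF h
    obtain ⟨f, h1, h2⟩ := m12 F hF h
    exact ⟨f, h1, h2⟩
  · obtain ⟨y, hy, rfl⟩ := m13
    exact hy
  · intro F l hF hl
    obtain ⟨y, hy, rfl⟩ := m14 F l hF hl ⟨_, rfl⟩
    exact hy
  · intro Y l hY hl
    obtain ⟨y, hy, rfl⟩ := m15 Y l hY hl ⟨_, rfl⟩
    exact hy
  · intro FF Y hFF hY h
    obtain ⟨f, h1, h2⟩ := m16 FF Y hFF hY h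
    exact ⟨f, h1, h2⟩
  · intro FF Y t l hFF hY ht hl
    obtain ⟨y, hy, rfl⟩ := m17 FF Y t l hFF hY ht hl ⟨_, rfl⟩
    exact hy
  · intro FF SS Y l hFF hSS hY hl h
    exact m18 FF SS Y l hFF hSS hY hl h
  · intro SS Y Y' l F hSS hY hY' hl hF h
    obtain ⟨F', h1, h2, h3⟩ := m19 SS Y Y' l F hSS hY hY' hl hF h
    exact ⟨F', h2, h1, h3⟩
  · intro FF Y hFF hY h
    obtain ⟨F', h1, h2, h3⟩ := m20 FF Y hFF hY h
    exact ⟨F', h2, h1, h3⟩
  · intro FF Y F₁ b hFF hY hF₁ hb h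
    obtain ⟨F', h1, h2, h3⟩ := m21 FF Y F₁ b hFF hY hF₁ hb h
    exact ⟨F', h2, h1, h3⟩
  · intro FF Y F₀ b₀ hFF hY hF₀ hb₀
    obtain ⟨y, hy, rfl⟩ := m22 FF Y F₀ b₀ hFF hY hF₀ hb₀ ⟨_, rfl⟩
    exact hy
  · intro FF Y F₀ b₀ x hFF hY hF₀ hb₀ hx h
    obtain ⟨F', h1, h2, h3⟩ := m23 FF Y F₀ b₀ x hFF hY hF₀ hb₀ hx h
    exact ⟨F', h2, h1, h3⟩
  · intro FF Y F₀ b₀ x hFF hY hF₀ hb₀ hx h
    obtain ⟨F', h1, h2, h3, h4⟩ := h
    obtain ⟨F', k1, k2, k3⟩ := m24 FF Y F₀ b₀ x hFF hY hF₀ hb₀ hx ⟨F', h1, h2, h3, h4⟩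
    exact ⟨F', k2, k1, k3⟩
  · intro E hE h
    exact m25 E hE h
  · intro Q X t hQ hX ht h
    obtain ⟨z, h1, h2, h3⟩ := m26 Q X t hQ hX ht h
    exact ⟨z, h2, h1, h3⟩

end

end Pool.Agent.H215_MRP
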