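import Pool.Agent.H215_MRP.Base

set_option autoImplicit false

universe u

namespace Pool.Agent.H215_MRP

open Cardinal Ordinal Set Filter

variable {S W : Type u}

section

theorem ctbl_valued {κ : Cardinal.{u}} {U : Ultrafilter (Car κ)} (hi : IsIndecomposable κ U) {T : Type u}
    (hT : #T < κ) (f : Car κ → T) : ∃ A : Set T, A.Countable ∧ f ⁻¹' A ∈ U := by
  classical
  set S : Set Cardinal.{u} := {μ | ∃ B : Set T, #B = μ ∧ f ⁻¹' B ∈ U} with hS
  have hne : S.Nonempty := ⟨#(univ : Set T), univ, rfl, by rw [preimage_univ]; exact univ_mem⟩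
  obtain ⟨B, hB, hfB⟩ : sInf S ∈ S := csInf_mem hne
  by_cases h : sInf S ≤ ℵ₀
  · exact ⟨B, Cardinal.le_aleph0_iff_set_countable.1 (by rw [hB]; exact h), hfB⟩
  rw [not_le] at h
  have hμκ : sInf S < κ := by
    rw [← hB]
    exact lt_of_le_of_lt (mk_set_le B) hT
  exfalso
  refine hi (sInf S) h hμκ ?_
  have hcard : #B = #(Car (sInf S)) := by
    rw [hB, Cardinal.mk_ord_toType]
  obtain ⟨e⟩ := Cardinal.eq.1 hcard
  have hBne : Nonempty B := by
    rw [← Cardinal.mk_ne_zero_iff, hB]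
    exact (lt_of_le_of_lt (zero_le) h).ne'
  obtain ⟨b0⟩ := hBne
  refine ⟨fun α => if hα : f α ∈ B then e ⟨f α, hα⟩ else e b0, fun A hA hmem => ?_⟩
  have hB' : f ⁻¹' (Subtype.val '' (e ⁻¹' A)) ∈ U := by
    refine mem_of_superset (inter_mem hmem hfB) ?_
    rintro α ⟨h1, h2⟩
    have h3 : f α ∈ B := h2
    simp only [mem_preimage, h3, dif_pos] at h1
    exact ⟨⟨f α, h3⟩, h1, rfl⟩
  have h4 : sInf S ≤ #(Subtype.val '' (e ⁻¹' A) : Set T) := csInf_le' ⟨_, rfl, hB'⟩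
  have h5 : #(Subtype.val '' (e ⁻¹' A) : Set T) ≤ #A := by
    refine (mk_image_le).trans ?_
    exact mk_preimage_of_injective _ _ e.injective
  exact absurd (h4.trans h5) (not_le.2 hA)

end

section

theorem silver_classes {κ : Cardinal.{u}} (hs : κ.IsStrongLimit) (hκ : ℵ₀ < κ) {U : Ultrafilter (Car κ)}
    (hi : IsIndecomposable κ U) :
    ∃ R : Set (Car κ → ℕ), #R ≤ 2 ^ ℵ₀ ∧ ∀ f : Car κ → ℕ, ∃ f' ∈ R, ∀ᶠ α in (U : Filter (Car κ)), f α = f' α := by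
  classical
  let r : Setoid (Car κ → ℕ) :=
    { r := fun f g => ∀ᶠ α in (U : Filter (Car κ)), f α = g α
      iseqv :=
        { refl := fun f => Eventually.of_forall fun α => rfl
          symm := fun {f g} h => by filter_upwards [h] with α hα; exact hα.symm
          trans := fun {f g h} h1 h2 => by
            filter_upwards [h1, h2] with α h3 h4
            exact h3.trans h4 } }
  refine ⟨range (Quotient.out : Quotient r → (Car κ → ℕ)), ?_, ?_⟩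
  swap
  · intro f
    refine ⟨Quotient.out (Quotient.mk r f), ⟨_, rfl⟩, ?_⟩
    have h1 : r.r (Quotient.out (Quotient.mk r f)) f := Quotient.mk_out f
    exact r.iseqv.symm h1
  by_contra hcon
  rw [not_le] at hcon
  obtain ⟨R', hR', hcard⟩ := Cardinal.le_mk_iff_exists_subset.1 (Order.succ_le_of_lt hcon)
  have hlam : (ℵ₀ : Cardinal.{u}) ≤ Order.succ (2 ^ ℵ₀) :=
    (Cardinal.cantor ℵ₀).le.trans (Order.le_succ _)
  have hlt : Order.succ (2 ^ (ℵ₀ : Cardinal.{u})) < κ := by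
    refine lt_of_le_of_lt (Order.succ_le_of_lt (Cardinal.cantor _)) ?_
    exact hs.two_power_lt (hs.two_power_lt hκ)
  have hT : #(R' → ℕ) < κ := by
    rw [Cardinal.mk_arrow, hcard]
    simp only [Cardinal.mk_nat, Cardinal.lift_aleph0, Cardinal.lift_id, Cardinal.lift_uzero]
    rw [Cardinal.power_eq_two_power hlam (by exact_mod_cast (Cardinal.nat_lt_aleph0 2).le) hlam]
    exact hs.two_power_lt hlt
  obtain ⟨A, hA, hAU⟩ := ctbl_valued hi hT (fun α (ξ : R') => (ξ : Car κ → ℕ) α)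
  have hne : A.Nonempty := by
    obtain ⟨α, hα⟩ := U.nonempty_of_mem hAU
    exact ⟨_, hα⟩
  obtain ⟨a, rfl⟩ := hA.exists_eq_range hne
  have hh : ∃ h : Car κ → ℕ, ∀ᶠ α in (U : Filter (Car κ)), ∀ ξ : R',
      (ξ : Car κ → ℕ) α = a (h α) ξ := by
    refine ⟨fun α => if h : ∃ n, a n = (fun (ξ : R') => (ξ : Car κ → ℕ) α) then h.choose else 0, ?_⟩
    have hAU' : ∀ᶠ α in (U : Filter (Car κ)), (fun (ξ : R') => (ξ : Car κ → ℕ) α) ∈ range a := hAU
    filter_upwards [hAU'] with α hα ξ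
    obtain ⟨n, hn⟩ := hα
    have hex : ∃ n, a n = (fun (ξ : R') => (ξ : Car κ → ℕ) α) := ⟨n, hn⟩
    rw [dif_pos hex]
    exact (congrFun hex.choose_spec ξ).symm
  obtain ⟨h, hh⟩ := hh
  have hninj : ¬ Function.Injective (fun (ξ : R') (n : ℕ) => a n ξ) := by
    intro hinj
    have h1 := Cardinal.lift_mk_le_lift_mk_of_injective hinj
    have h2 : #(ℕ → ℕ) = 2 ^ (ℵ₀ : Cardinal.{0}) := by
      rw [Cardinal.mk_arrow]
      simp only [Cardinal.mk_nat, Cardinal.lift_aleph0]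
      exact Cardinal.power_eq_two_power le_rfl (by exact_mod_cast (Cardinal.nat_lt_aleph0 2).le)
        le_rfl
    rw [h2, hcard] at h1
    simp only [Cardinal.lift_uzero, Cardinal.lift_power, Cardinal.lift_two, Cardinal.lift_aleph0] at h1
    exact absurd h1 (not_le.2 (Order.lt_succ _))
  rw [Function.Injective] at hninj
  push Not at hninj
  obtain ⟨ξ, ξ', h1, h2⟩ := hninj
  apply h2
  apply Subtype.ext
  have h3 : r.r (ξ : Car κ → ℕ) ξ' := by
    change ∀ᶠ α in (U : Filter (Car κ)), (ξ : Car κ → ℕ) α = (ξ' : Car κ → ℕ) α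
    filter_upwards [hh] with α hα
    rw [hα ξ, hα ξ']
    exact congrFun h1 (h α)
  obtain ⟨q, hq⟩ := hR' ξ.2
  obtain ⟨q', hq'⟩ := hR' ξ'.2
  rw [← hq, ← hq'] at h3 ⊢
  have h4 : Quotient.mk r q.out = Quotient.mk r q'.out := Quotient.sound h3
  rw [Quotient.out_eq, Quotient.out_eq] at h4
  rw [h4]

end

section

theorem silver_card {κ : Cardinal.{u}} (hκ : ℵ₀ < κ) (hs : κ.IsStrongLimit)
    {R : Set (Car κ → ℕ)} (hR : #R ≤ 2 ^ (ℵ₀ : Cardinal.{u})) : #(R → ℕ) < κ := by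
  have h1 : (2 : Cardinal.{u}) ^ (ℵ₀ : Cardinal.{u}) < κ := hs.two_power_lt hκ
  have h2 : (2 : Cardinal.{u}) ^ ((2 : Cardinal.{u}) ^ (ℵ₀ : Cardinal.{u})) < κ := hs.two_power_lt h1
  refine lt_of_le_of_lt ?_ h2
  have h3 : #(R → ℕ) = (ℵ₀ : Cardinal.{u}) ^ #R := by
    rw [Cardinal.mk_arrow]
    simp
  rw [h3]
  have h4 : (ℵ₀ : Cardinal.{u}) ≤ 2 ^ (ℵ₀ : Cardinal.{u}) := (Cardinal.cantor _).le
  calc (ℵ₀ : Cardinal.{u}) ^ #R ≤ (2 ^ (ℵ₀ : Cardinal.{u})) ^ #R :=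
        Cardinal.power_le_power_right h4
    _ ≤ (2 ^ (ℵ₀ : Cardinal.{u})) ^ ((2 : Cardinal.{u}) ^ (ℵ₀ : Cardinal.{u})) := by
        apply Cardinal.power_le_power_left _ hR
        exact (lt_of_lt_of_le Cardinal.aleph0_pos h4).ne'
    _ = 2 ^ ((ℵ₀ : Cardinal.{u}) * 2 ^ (ℵ₀ : Cardinal.{u})) := by rw [Cardinal.power_mul]
    _ = 2 ^ ((2 : Cardinal.{u}) ^ (ℵ₀ : Cardinal.{u})) := by
        rw [Cardinal.mul_eq_right h4 h4 Cardinal.aleph0_ne_zero]

theorem silver_enum {κ : Cardinal.{u}} {U : Ultrafilter (Car κ)} (hi : IsIndecomposable κ U)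
    {T : Type u} (hT : #T < κ) (f : Car κ → T) :
    ∃ (a : ℕ → T) (h : Car κ → ℕ), ∀ᶠ α in (U : Filter (Car κ)), f α = a (h α) := by
  obtain ⟨A, hA, hU⟩ := ctbl_valued hi hT f
  have hne : A.Nonempty := by
    by_contra hcon
    rw [Set.not_nonempty_iff_eq_empty] at hcon
    rw [hcon, Set.preimage_empty] at hU
    exact Ultrafilter.empty_notMem hU
  obtain ⟨a, ha⟩ := hA.exists_eq_range hne
  classical
  refine ⟨a, fun α => if hα : ∃ n, f α = a n then hα.choose else 0, ?_⟩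
  filter_upwards [hU] with α hα
  have h1 : ∃ n, f α = a n := by
    have h2 : f α ∈ A := hα
    rw [ha] at h2
    obtain ⟨n, hn⟩ := h2
    exact ⟨n, hn.symm⟩
  rw [dif_pos h1]
  exact h1.choose_spec

theorem silver {κ : Cardinal.{u}} (hκ : ℵ₀ < κ) (hs : κ.IsStrongLimit) {U : Ultrafilter (Car κ)}
    (hi : IsIndecomposable κ U) :
    ∃ h : Car κ → ℕ, ∀ T : Type u, #T < κ → ∀ f : Car κ → T, ∃ t : ℕ → T, ∀ᶠ α in (U : Filter (Car κ)), f α = t (h α) := by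
  obtain ⟨R, hR, hRf⟩ := silver_classes hs hκ hi
  obtain ⟨a, h, hah⟩ := silver_enum hi (silver_card hκ hs hR) (fun (α : Car κ) (ξ : R) => ξ.1 α)
  refine ⟨h, fun T hT f => ?_⟩
  obtain ⟨t', f1, hf1⟩ := silver_enum hi hT f
  obtain ⟨ξ, hξ, hfξ⟩ := hRf f1
  refine ⟨fun n => t' (a n ⟨ξ, hξ⟩), ?_⟩
  filter_upwards [hah, hf1, hfξ] with α h1 h2 h3
  have h4 := congrFun h1 ⟨ξ, hξ⟩
  rw [h2, h3]
  exact congrArg t' h4

end

section

/-- a nonprincipal ultrafilter with least incompleteness `c` gives measurability of `c` -/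
theorem measurable_of_compl {K : Type u} (V : Ultrafilter K) {c : Cardinal.{u}} (hc : ℵ₀ < c)
    (h : ∀ 𝒜 : Set (Set K), #𝒜 < c → (∀ A ∈ 𝒜, A ∈ V) → ⋂₀ 𝒜 ∈ V)
    (h' : ∃ 𝒜 : Set (Set K), #𝒜 = c ∧ (∀ A ∈ 𝒜, A ∈ V) ∧ ⋂₀ 𝒜 ∉ V) : IsMeasurable c := by
  classical
  obtain ⟨F, hF, hFV, hFn⟩ := h'
  have hcard : #(Car c) = #F := by rw [hF]; exact Cardinal.mk_ord_toType c
  obtain ⟨e⟩ := Cardinal.eq.1 hcard
  have hne : Nonempty (Car c) := by
    rw [← Cardinal.mk_ne_zero_iff, Cardinal.mk_ord_toType]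
    exact (lt_trans Cardinal.aleph0_pos hc).ne'
  obtain ⟨x0⟩ := hne
  have hcompl : (⋂₀ F)ᶜ ∈ V := Ultrafilter.compl_mem_iff_notMem.2 hFn
  have hex : ∀ a : K, ∃ x : Car c, a ∈ (⋂₀ F)ᶜ → a ∉ (e x : Set K) := by
    intro a
    by_cases ha : a ∈ (⋂₀ F)ᶜ
    · simp only [Set.mem_compl_iff, Set.mem_sInter, not_forall] at ha
      obtain ⟨A, hA, haA⟩ := ha
      exact ⟨e.symm ⟨A, hA⟩, fun _ => by simpa using haA⟩
    · exact ⟨x0, fun h => absurd h ha⟩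
  choose f hf using hex
  refine ⟨hc, V.map f, fun x hx => ?_, fun B hB hBV => ?_⟩
  · rw [Ultrafilter.mem_map] at hx
    have h1 : f ⁻¹' {x} ∩ (⋂₀ F)ᶜ ∈ V := V.inter_mem hx hcompl
    have h2 : ((e x : Set K))ᶜ ∈ V := by
      refine V.mem_of_superset h1 ?_
      rintro a ⟨ha1, ha2⟩
      have : f a = x := ha1
      have h3 := hf a ha2
      rw [this] at h3
      exact h3
    exact (Ultrafilter.compl_mem_iff_notMem.1 h2) (hFV _ (e x).2)
  · rw [Ultrafilter.mem_map]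
    have h1 : ⋂₀ ((fun A => f ⁻¹' A) '' B) ∈ V := by
      refine h _ (lt_of_le_of_lt Cardinal.mk_image_le hB) ?_
      rintro _ ⟨A, hA, rfl⟩
      exact Ultrafilter.mem_map.1 (hBV A hA)
    refine V.mem_of_superset h1 ?_
    intro a ha
    simp only [Set.mem_preimage, Set.mem_sInter]
    intro A hA
    exact ha _ ⟨A, hA, rfl⟩

end

section

theorem f4_realize_step {κ : Cardinal.{u}} (hs : κ.IsStrongLimit) {U : Ultrafilter (Car κ)}
    {h : Car κ → ℕ}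
    (hh : ∀ T : Type u, #T < κ → ∀ f : Car κ → T, ∃ t : ℕ → T, ∀ᶠ α in (U : Filter (Car κ)), f α = t (h α))
    (G : ℕ → Set (Set (Car κ)))
    (hG : ∀ X : Set (Set (Car κ)), X.Countable → ∀ᶠ α in (U : Filter (Car κ)), G (h α) ∩ X = {A | A ∈ X ∧ α ∈ A})
    (X : Set (Set (Car κ))) (hX : #X < κ) :
    ∀ᶠ α in (U : Filter (Car κ)), ∀ A ∈ X, A ∈ G (h α) ↔ α ∈ A := by
  classical
  obtain ⟨t, ht⟩ := hh (Set X) (by rw [mk_set]; exact hs.isStrongPrelimit hX)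
    (fun α => {A : X | α ∈ A.1})
  let bad : ℕ → Prop := fun i => ∃ A : X, ¬ (A.1 ∈ G i ↔ A ∈ t i)
  let x : ℕ → Set (Car κ) := fun i => if hb : bad i then (Classical.choose hb).1 else ∅
  have hx : ∀ i (hb : bad i), x i = (Classical.choose hb).1 := fun i hb => dif_pos hb
  have hc : (Set.range x ∩ X).Countable := (Set.countable_range x).mono Set.inter_subset_left
  filter_upwards [ht, hG _ hc] with α h1 h2
  by_contra hcon
  have hb : bad (h α) := by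
    by_contra hnb
    apply hcon
    intro A hA
    have h3 : A ∈ G (h α) ↔ (⟨A, hA⟩ : X) ∈ t (h α) := by
      by_contra h4
      exact hnb ⟨⟨A, hA⟩, h4⟩
    rw [h3, ← h1]
    exact Iff.rfl
  have h5 := Classical.choose_spec hb
  set B := Classical.choose hb with hB
  have hBx : B.1 ∈ Set.range x ∩ X := ⟨⟨h α, hx _ hb⟩, B.2⟩
  apply h5
  have h6 : B.1 ∈ G (h α) ↔ α ∈ B.1 := by
    have h7 : B.1 ∈ G (h α) ∩ (Set.range x ∩ X) ↔ B.1 ∈ {A | A ∈ Set.range x ∩ X ∧ α ∈ A} := by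
      rw [h2]
    constructor
    · intro h8
      exact (h7.mp ⟨h8, hBx⟩).2
    · intro h8
      exact (h7.mpr ⟨hBx, h8⟩).1
  rw [h6, ← h1]
  exact Iff.rfl

theorem f4_realize {κ : Cardinal.{u}} (hκ : ℵ₀ < κ) (hs : κ.IsStrongLimit) {U : Ultrafilter (Car κ)}
    {h : Car κ → ℕ}
    (hh : ∀ T : Type u, #T < κ → ∀ f : Car κ → T, ∃ t : ℕ → T, ∀ᶠ α in (U : Filter (Car κ)), f α = t (h α))
    (G : ℕ → Set (Set (Car κ)))
    (hG : ∀ X : Set (Set (Car κ)), X.Countable → ∀ᶠ α in (U : Filter (Car κ)), G (h α) ∩ X = {A | A ∈ X ∧ α ∈ A})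
    (lam : Cardinal.{u}) (hl : lam < κ) :
    ∀ᶠ α in (U : Filter (Car κ)), ∀ X : Set (Set (Car κ)), #X ≤ lam → ∃ β : Car κ, ∀ A ∈ X, A ∈ G (h α) ↔ β ∈ A := by
  classical
  let bad : ℕ → Prop := fun i => ∃ X : Set (Set (Car κ)), #X ≤ lam ∧
    ∀ β : Car κ, ∃ A ∈ X, ¬ (A ∈ G i ↔ β ∈ A)
  let Y : ℕ → Set (Set (Car κ)) := fun i => if hb : bad i then Classical.choose hb else ∅
  have hY : ∀ i (hb : bad i), Y i = Classical.choose hb := fun i hb => dif_pos hb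
  have hYc : ∀ i, #(Y i) ≤ lam := by
    intro i
    by_cases hb : bad i
    · rw [hY i hb]; exact (Classical.choose_spec hb).1
    · have : Y i = ∅ := dif_neg hb
      rw [this, mk_eq_zero]
      exact zero_le
  have hX : #(⋃ i, Y i : Set (Set (Car κ))) < κ := by
    have h1 := mk_iUnion_le_lift Y
    rw [Cardinal.lift_uzero, mk_nat, lift_aleph0] at h1
    refine h1.trans_lt ?_
    have h2 : (⨆ i, lift.{0} #(Y i)) ≤ max lam ℵ₀ := by
      apply ciSup_le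
      intro i
      rw [Cardinal.lift_uzero]
      exact (hYc i).trans (le_max_left _ _)
    calc ℵ₀ * (⨆ i, lift.{0} #(Y i)) ≤ ℵ₀ * max lam ℵ₀ := by gcongr
      _ = max lam ℵ₀ := aleph0_mul_eq (le_max_right _ _)
      _ < κ := max_lt hl hκ
  filter_upwards [f4_realize_step hs hh G hG _ hX] with α h1
  by_contra hcon
  have hb : bad (h α) := by
    push Not at hcon
    obtain ⟨X, hX1, hX2⟩ := hcon
    refine ⟨X, hX1, fun β => ?_⟩
    obtain ⟨A, hA, h3⟩ := hX2 β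
    refine ⟨A, hA, ?_⟩
    tauto
  obtain ⟨A, hA, h3⟩ := (Classical.choose_spec hb).2 α
  apply h3
  apply h1
  rw [Set.mem_iUnion]
  exact ⟨h α, by rw [hY _ hb]; exact hA⟩

end

section

theorem f4_nonprincipal {κ : Cardinal.{u}} (hκ : ℵ₀ < κ) {U : Ultrafilter (Car κ)}
    (hu : IsUniform κ U) {h : Car κ → ℕ} (G : ℕ → Set (Set (Car κ)))
    (hG : ∀ X : Set (Set (Car κ)), X.Countable → ∀ᶠ α in (U : Filter (Car κ)), G (h α) ∩ X = {A | A ∈ X ∧ α ∈ A}) :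
    ∀ᶠ α in (U : Filter (Car κ)), ∀ x : Car κ, {x} ∉ G (h α) := by
  classical
  by_contra hcon
  rw [← Ultrafilter.eventually_not] at hcon
  have hne : Nonempty (Car κ) := Filter.NeBot.nonempty (U : Filter (Car κ))
  have e : ∀ i, ∃ x : Car κ, (∃ y : Car κ, {y} ∈ G i) → {x} ∈ G i := by
    intro i
    by_cases hy : ∃ y : Car κ, {y} ∈ G i
    · obtain ⟨y, hy⟩ := hy
      exact ⟨y, fun _ => hy⟩
    · exact ⟨hne.some, fun h1 => absurd h1 hy⟩
  choose x hx using e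
  have h1 := hG (range fun i => ({x i} : Set (Car κ))) (countable_range _)
  have h2 : range x ∈ U := by
    filter_upwards [hcon, h1] with α ha hb
    simp only [not_forall, not_not] at ha
    have h3 : ({x (h α)} : Set (Car κ)) ∈
        G (h α) ∩ (range fun i => ({x i} : Set (Car κ))) := ⟨hx _ ha, ⟨h α, rfl⟩⟩
    rw [hb] at h3
    exact ⟨h α, (mem_singleton_iff.1 h3.2).symm⟩
  have h4 := hu _ h2
  have h5 : #(range x) ≤ ℵ₀ := (countable_range x).le_aleph0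
  rw [h4] at h5
  exact absurd h5 (not_le.2 hκ)

/-- The realisation property. -/
def f4_R {K : Type u} (G : Set (Set K)) (lam : Cardinal.{u}) : Prop :=
  ∀ X : Set (Set K), #X ≤ lam → ∃ β : K, ∀ A ∈ X, A ∈ G ↔ β ∈ A

theorem f4_R_mono {K : Type u} {G : Set (Set K)} {l l' : Cardinal.{u}} (h : l ≤ l') (hR : f4_R G l') :
    f4_R G l := fun X hX => hR X (hX.trans h)

theorem f4_R_sInter {K : Type u} {G : Set (Set K)} {lam : Cardinal.{u}} (hR : f4_R G lam)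
    (hl : ℵ₀ ≤ lam) {A : Set (Set K)} (hA : #A ≤ lam) (h : ∀ s ∈ A, s ∈ G) : ⋂₀ A ∈ G := by
  obtain ⟨β, hβ⟩ := hR (insert (⋂₀ A) A) (by
    refine (Cardinal.mk_insert_le).trans ?_
    calc #A + 1 ≤ lam + lam := add_le_add hA ((one_lt_aleph0.le).trans hl)
      _ = lam := Cardinal.add_eq_self hl)
  rw [hβ _ (mem_insert _ _)]
  intro s hs
  exact (hβ s (mem_insert_of_mem _ hs)).1 (h s hs)

theorem f4_finite {K : Type u} {G : Set (Set K)} (hR : f4_R G ℵ₀) (X : Set (Set K)) (hX : X.Finite) :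
    ∃ β : K, ∀ A ∈ X, A ∈ G ↔ β ∈ A := hR X hX.countable.le_aleph0

/-- `G` is an ultrafilter. -/
theorem f4_ultra {K : Type u} {G : Set (Set K)} (hR : f4_R G ℵ₀) :
    ∃ V : Ultrafilter K, ∀ A, A ∈ V ↔ A ∈ G := by
  let F : Filter K :=
    { sets := G
      univ_sets := by
        obtain ⟨β, hβ⟩ := f4_finite hR {(Set.univ : Set K)} (finite_singleton _)
        exact (hβ Set.univ rfl).2 (mem_univ _)
      sets_of_superset := by
        intro A B hA hAB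
        obtain ⟨β, hβ⟩ := f4_finite hR {A, B} (by simp)
        rw [hβ B (by simp)]
        exact hAB ((hβ A (by simp)).1 hA)
      inter_sets := by
        intro A B hA hB
        obtain ⟨β, hβ⟩ := f4_finite hR {A, B, A ∩ B} (by simp)
        rw [hβ (A ∩ B) (by simp)]
        exact ⟨(hβ A (by simp)).1 hA, (hβ B (by simp)).1 hB⟩ }
  refine ⟨Ultrafilter.ofComplNotMemIff F ?_, fun A => Iff.rfl⟩
  intro s
  change sᶜ ∉ G ↔ s ∈ G
  obtain ⟨β, hβ⟩ := f4_finite hR {s, sᶜ} (by simp)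
  rw [hβ s (by simp), hβ sᶜ (by simp)]
  simp

/-- The cardinalities of the families of sets in `G` whose intersection is not in `G`. -/
def f4_C {K : Type u} (G : Set (Set K)) : Set Cardinal.{u} :=
  {c | ∃ A : Set (Set K), #A = c ∧ (∀ s ∈ A, s ∈ G) ∧ ⋂₀ A ∉ G}

theorem f4_C_le {K : Type u} {G : Set (Set K)} (hR : f4_R G ℵ₀) (hG : ∀ x : K, {x} ∉ G) :
    ∃ c ∈ f4_C G, c ≤ #K := by
  obtain ⟨V, hV⟩ := f4_ultra hR
  refine ⟨_, ⟨range fun x : K => ({x}ᶜ : Set K), rfl, ?_, ?_⟩, Cardinal.mk_range_le⟩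
  · rintro _ ⟨x, rfl⟩
    rw [← hV, Ultrafilter.compl_mem_iff_notMem, hV]
    exact hG x
  · have : ⋂₀ (range fun x : K => ({x}ᶜ : Set K)) = ∅ := by
      ext y
      simp
    rw [this, ← hV]
    exact V.empty_notMem

theorem f4_lt {K : Type u} {G : Set (Set K)} {lam : Cardinal.{u}} (hR : f4_R G lam)
    (hl : ℵ₀ ≤ lam) (hne : (f4_C G).Nonempty) : lam < sInf (f4_C G) := by
  by_contra hcon
  rw [not_lt] at hcon
  obtain ⟨A, h1, h2, h3⟩ := csInf_mem hne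
  exact h3 (f4_R_sInter hR hl (h1.trans_le hcon) h2)

theorem f4 {κ : Cardinal.{u}} (hκ : ℵ₀ < κ) (hs : κ.IsStrongLimit) {U : Ultrafilter (Car κ)}
    (hu : IsUniform κ U) {h : Car κ → ℕ}
    (hh : ∀ T : Type u, #T < κ → ∀ f : Car κ → T, ∃ t : ℕ → T, ∀ᶠ α in (U : Filter (Car κ)), f α = t (h α))
    (G : ℕ → Set (Set (Car κ)))
    (hG : ∀ X : Set (Set (Car κ)), X.Countable → ∀ᶠ α in (U : Filter (Car κ)), G (h α) ∩ X = {A | A ∈ X ∧ α ∈ A}) :
    ∃ 𝒞 : Set Cardinal.{u}, 𝒞.Countable ∧ (∀ c ∈ 𝒞, IsMeasurable c) ∧ IsLUB 𝒞 κ := by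
  have hR : ∀ lam < κ, ∀ᶠ α in (U : Filter (Car κ)), f4_R (G (h α)) lam := fun lam hl =>
    f4_realize hκ hs hh G hG lam hl
  have hnp := f4_nonprincipal hκ hu G hG
  have hcar : #(Car κ) = κ := by simp
  refine ⟨(fun i => sInf (f4_C (G i))) '' {i | f4_R (G i) ℵ₀ ∧ ∀ x : Car κ, {x} ∉ G i},
    (to_countable _).image _, ?_, ?_, ?_⟩
  · rintro _ ⟨i, ⟨h1, h2⟩, rfl⟩
    obtain ⟨c, hc, _⟩ := f4_C_le h1 h2
    obtain ⟨V, hV⟩ := f4_ultra h1
    have hne : (f4_C (G i)).Nonempty := ⟨c, hc⟩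
    refine measurable_of_compl V (f4_lt h1 le_rfl hne) ?_ ?_
    · intro A hA h3
      by_contra h4
      refine absurd hA (not_lt.2 (csInf_le' ⟨A, rfl, fun s hs => (hV s).1 (h3 s hs), ?_⟩))
      rwa [← hV]
    · obtain ⟨A, h3, h4, h5⟩ := csInf_mem hne
      exact ⟨A, h3, fun s hs => (hV s).2 (h4 s hs), by rwa [hV]⟩
  · rintro _ ⟨i, ⟨h1, h2⟩, rfl⟩
    obtain ⟨c, hc, hc2⟩ := f4_C_le h1 h2
    rw [hcar] at hc2
    exact (csInf_le' hc).trans hc2
  · intro b hb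
    by_contra hcon
    rw [not_le] at hcon
    have hl : max b ℵ₀ < κ := max_lt hcon hκ
    obtain ⟨α, h1, h2⟩ := ((hR _ hl).and hnp).exists
    have h3 := f4_R_mono (le_max_right b ℵ₀) h1
    obtain ⟨c, hc, _⟩ := f4_C_le h3 h2
    have h4 := f4_lt h1 (le_max_right b ℵ₀) ⟨c, hc⟩
    have h5 : sInf (f4_C (G (h α))) ≤ b := hb ⟨h α, ⟨h3, h2⟩, rfl⟩
    exact absurd (h5.trans (le_max_left b ℵ₀)) (not_le.2 h4)

end

end Pool.Agent.H215_MRP
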