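import Pool.Agent.H215_MRP.Transfer
import Pool.Agent.H215_MRP.Skolem
import Pool.Agent.H215_MRP.Avoid
import Pool.Agent.H215_MRP.Chain
import Pool.Agent.H215_MRP.Ultra

set_option autoImplicit false

universe u

namespace Pool.Agent.H215_MRP

open Cardinal Ordinal Set Filter

variable {S W : Type u}

section

theorem thmA (hA : AMRP.{u}) [Infinite S] {κ : Cardinal.{u}} (hκ : ℵ₀ < κ) (hs : κ.IsStrongLimit)
    (D : Ultrafilter ℕ) (g : Set S → ℕ → Set S) (hg : Coh κ D g) :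
    ∃ G : ℕ → Set S, ∀ X : Set S, X.Countable → ∀ᶠ i in (D : Filter ℕ), G i ∩ X = g X i := by
  classical
  let W : Type u := (ℵ₁ : Cardinal.{u}).ord.ToType
  have hWcard : #W = ℵ₁ := Cardinal.mk_ord_toType _
  have hI : ∀ ζ : W, (Iio ζ).Countable := by
    intro ζ
    have h1 : #(Iio ζ) < (ℵ₁ : Cardinal.{u}) := Cardinal.mk_Iio_toType_ord_lt ζ
    rw [← Cardinal.le_aleph0_iff_set_countable]
    have h2 : #(Iio ζ) < Order.succ (ℵ₀ : Cardinal.{u}) := h1.trans_le Cardinal.succ_aleph0.ge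
    exact Order.lt_succ_iff.1 h2
  have hU : Uncountable W := by
    rw [← Cardinal.aleph0_lt_mk_iff, hWcard]
    exact Cardinal.aleph0_lt_aleph_one
  have hne : Nonempty W := by
    obtain ⟨x⟩ := (inferInstance : Nonempty W)
    exact ⟨x⟩
  have hW : #(ℕ → W) < κ := by
    have h1 : #(ℕ → W) = (ℵ₁ : Cardinal.{u}) ^ (ℵ₀ : Cardinal.{u}) := by
      rw [Cardinal.mk_arrow, hWcard]
      simp
    have h2 : (ℵ₁ : Cardinal.{u}) ≤ 2 ^ (ℵ₀ : Cardinal.{u}) := by
      rw [← Cardinal.succ_aleph0]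
      exact Order.succ_le_of_lt (Cardinal.cantor _)
    calc #(ℕ → W) = (ℵ₁ : Cardinal.{u}) ^ (ℵ₀ : Cardinal.{u}) := h1
      _ ≤ (2 ^ (ℵ₀ : Cardinal.{u})) ^ (ℵ₀ : Cardinal.{u}) := Cardinal.power_le_power_right h2
      _ = 2 ^ (ℵ₀ : Cardinal.{u}) := by
        rw [← Cardinal.power_mul, Cardinal.aleph0_mul_aleph0]
      _ < κ := hs.isStrongPrelimit hκ
  obtain ⟨f, -, hf⟩ := exists_good (W := W) g
  have hf' : ∀ M : Set (Obj S W), Cl f M → Good g M := fun M hM => hf M (subset_univ M) hM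
  obtain ⟨c, hc⟩ := chain_big hI hU hκ hs hg hf'
  have hex : ∀ M : Set (Obj S W), ∃ e : ℕ → Set S, M.Countable → Good g M →
      (∀ n, Obj.p (e n) ∈ M) ∧
      ∀ E : Set (Set (Set S)), Obj.ppp E ∈ M → (∀ Y ∈ E, Y.Countable ∧ Y.Infinite) →
        (∀ t : Set (Set S), t.Countable → ∃ Y ∈ E, t ⊆ Y) → ∃ Y ∈ E, Y ∈ Sg g e M ∧ Obj.pp Y ∈ M := by
    intro M
    by_cases h : M.Countable ∧ Good g M
    · obtain ⟨e, he⟩ := exists_e hI hU h.2 h.1
      exact ⟨e, fun _ _ => he⟩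
    · exact ⟨fun _ => ∅, fun h1 h2 => absurd ⟨h1, h2⟩ h⟩
  choose e he using hex
  have hunc : Uncountable (Set S) := by
    rw [← Cardinal.aleph0_lt_mk_iff, Cardinal.mk_set]
    exact (Cardinal.aleph0_le_mk S).trans_lt (Cardinal.cantor _)
  obtain ⟨N, hN⟩ := hA (Obj S W) (Set S) Obj.p Obj.pp Obj.ppp
    (fun a b h => by injection h) (fun a b h => by injection h) (fun a b h => by injection h) hunc
    f c (fun M => Sg g (e M) M) (by
      intro M hMc hMf
      refine ⟨fun Y hY => ⟨hY.1, hY.2.1⟩, fun Y hY => sg_open g (e M) M Y hY, ?_⟩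
      exact (he M hMc (hf' M hMf)).2)
  have hBig := hc _ N hN
  set NN : Set (Obj S W) := ⋃ ν ∈ Iio ω₁, N ν with hNN
  have href := reflection hg hf' (fun M h1 h2 => (he M h1 h2).1) hN hBig.small hBig.allW
  have hnice := big_nice hκ hg hne hW hBig
  have href' : ∀ᶠ i in (D : Filter ℕ), i ∉ IM g NN := Ultrafilter.eventually_not.2 href
  have hgg : ∀ᶠ i in (D : Filter ℕ), Set.univ ∈ GG NN (g (SM NN) i) := by
    filter_upwards [hnice, href'] with i h1 h2
    by_contra h3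
    exact h2 ⟨h3, h1⟩
  have hz : ∀ i, ∃ z, Obj.p z ∈ NN ∧
      (Set.univ ∈ GG NN (g (SM NN) i) → IsGuess NN (g (SM NN) i) Set.univ z) := by
    intro i
    by_cases h : Set.univ ∈ GG NN (g (SM NN) i)
    · obtain ⟨-, z, hz⟩ := h
      exact ⟨z, hz.1, fun _ => hz⟩
    · exact ⟨∅, hBig.good.p_empty, fun h' => absurd h' h⟩
  choose z hz1 hz2 using hz
  have hwit := big_wit hκ hg hBig (F := fun _ => Set.univ) (z := z)
    (fun _ => hBig.good.p_univ) hz1 (hgg.mono fun i hi => hz2 i hi)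
  refine ⟨z, fun X hX => ?_⟩
  filter_upwards [hwit X hX] with i hi
  rw [hi, inter_univ]

end

section

theorem star_of_mrp (h : MRP.{u}) : Star.{u} := by
  classical
  intro κ hκ hs hex
  obtain ⟨U, hu, hi⟩ := hex
  right
  obtain ⟨k, hk⟩ := silver hκ hs hi
  have hcar : #(Car κ) = κ := by
    rw [Cardinal.mk_toType, Cardinal.card_ord]
  have hinf : Infinite (Car κ) := by
    rw [Cardinal.infinite_iff, hcar]
    exact hκ.le
  -- the choice of the functions
  have hpow : ∀ X : Set (Set (Car κ)), #X < κ → #(Set X) < κ := by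
    intro X hX
    rw [Cardinal.mk_set]
    exact hs.two_power_lt hX
  have hex : ∀ X : Set (Set (Car κ)), ∃ t : ℕ → Set (Set (Car κ)), (∀ i, t i ⊆ X) ∧
      (#X < κ → ∀ᶠ α in (U : Filter (Car κ)), t (k α) = {A | A ∈ X ∧ α ∈ A}) := by
    intro X
    by_cases hX : #X < κ
    · obtain ⟨t, ht⟩ := hk (Set X) (hpow X hX) (fun α => {A : X | α ∈ A.1})
      refine ⟨fun i => Subtype.val '' t i, ?_, fun _ => ?_⟩
      · rintro i _ ⟨a, _, rfl⟩
        exact a.2
      · filter_upwards [ht] with α hα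
        rw [← hα]
        ext A
        constructor
        · rintro ⟨a, ha, rfl⟩
          exact ⟨a.2, ha⟩
        · rintro ⟨h1, h2⟩
          exact ⟨⟨A, h1⟩, h2, rfl⟩
    · exact ⟨fun _ => ∅, fun _ => Set.empty_subset _, fun h => absurd h hX⟩
  choose g hg1 hg2 using hex
  have hcoh : Coh κ (U.map k) g := by
    refine ⟨hg1, ?_⟩
    intro X X' hXX' hX'
    have hX : #X < κ := (Cardinal.mk_le_mk_of_subset hXX').trans_lt hX'
    rw [Ultrafilter.coe_map, Filter.eventually_map]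
    filter_upwards [hg2 X hX, hg2 X' hX'] with α h1 h2
    rw [h1, h2]
    ext A
    constructor
    · rintro ⟨⟨_, h4⟩, h5⟩
      exact ⟨h5, h4⟩
    · rintro ⟨h3, h4⟩
      exact ⟨⟨hXX' h3, h4⟩, h3⟩
  obtain ⟨G, hG⟩ := thmA (amrp_of_mrp h) hκ hs (U.map k) g hcoh
  refine f4 hκ hs hu hk G ?_
  intro X hX
  have hXκ : #X < κ := (Cardinal.le_aleph0_iff_set_countable.2 hX).trans_lt hκ
  have h1 := hG X hX
  rw [Ultrafilter.coe_map, Filter.eventually_map] at h1
  filter_upwards [h1, hg2 X hXκ] with α h2 h3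
  rw [h2, h3]

end

end Pool.Agent.H215_MRP
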