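import Pool.Agent.H215_MRP.Defs

set_option autoImplicit false

universe u

namespace Pool.Agent.H215_MRP

open Cardinal Ordinal Set Filter

/-! ## Combinatorial notions -/

/-- `FF` is closed under unions of families indexed by `W`. -/
def OmClosed {S : Type u} (W : Type u) (FF : Set (Set S)) : Prop :=
  ∀ f : W → Set S, (∀ ζ, f ζ ∈ FF) → (⋃ ζ, f ζ) ∈ FF

/-- the finite sequence `t` is captured (with respect to `FF` and `Y`) -/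
def Captured {S A : Type*} (FF : Set (Set S)) (Y : Set S → Set A) (t : List A) : Prop :=
  ∃ G ∈ FF, ∀ F ∈ FF, G ⊆ F → ∃ a ∈ t, a ∈ Y F

/-- `(F₀, b₀)` is solid -/
def Solid {S : Type*} (FF : Set (Set S)) (Y : Set S → Set (Set S)) (F₀ b₀ : Set S) : Prop :=
  ∀ G ∈ FF, ∃ F ∈ FF, F₀ ⊆ F ∧ G ⊆ F ∧ ∃! b, b ∈ Y F ∧ b ∩ F₀ = b₀

/-! ## Objects and models -/

/-- The objects which may be elements of a model: elements of `S`, subsets of `S`, sets of these, etc. -/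
inductive Obj (S W : Type u) : Type u
  | el (x : S)
  | p (F : Set S)
  | pp (A : Set (Set S))
  | ppp (E : Set (Set (Set S)))
  | fy (Y : List (Set S) → Set (Set S))
  | fam (f : W → Set S)
  | w (ζ : W)
  | lp (l : List (Set S))

variable {S W : Type u}

/-- the set `z*` -/
def zstar (FF : Set (Set S)) (Y : Set S → Set (Set S)) (F₀ b₀ : Set S) : Set S :=
  {x | ∃ F ∈ FF, F₀ ⊆ F ∧ (∃! b, b ∈ Y F ∧ b ∩ F₀ = b₀) ∧ ∃ b, (b ∈ Y F ∧ b ∩ F₀ = b₀) ∧ x ∈ b}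

/-- The closure properties of models used in the proof. -/
structure Good (g : Set S → ℕ → Set S) (M : Set (Obj S W)) : Prop where
  p_empty : Obj.p ∅ ∈ M
  p_univ : Obj.p Set.univ ∈ M
  p_inter : ∀ F F', Obj.p F ∈ M → Obj.p F' ∈ M → Obj.p (F ∩ F') ∈ M
  sep : ∀ F F', Obj.p F ∈ M → Obj.p F' ∈ M → F ≠ F' → ∃ x, Obj.el x ∈ M ∧ ¬ (x ∈ F ↔ x ∈ F')
  gmem : ∀ X, Obj.p X ∈ M → ∀ i, Obj.p (g X i) ∈ M
  fam_app : ∀ f ζ, Obj.fam f ∈ M → Obj.w ζ ∈ M → Obj.p (f ζ) ∈ M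
  fam_union : ∀ f, Obj.fam f ∈ M → Obj.p (⋃ ζ, f ζ) ∈ M
  fam_empty : Obj.fam (fun _ => ∅) ∈ M
  pp_avoid : ∀ A : Set (Set S), Obj.pp A ∈ M → (∃ F, F ∉ A) → ∃ F, Obj.p F ∈ M ∧ F ∉ A
  pp_sUnion : ∀ A, Obj.pp A ∈ M → Obj.p (⋃₀ A) ∈ M
  pp_small : ∀ F : Set S, Obj.p F ∈ M → Obj.pp {F' : Set S | F' ⊆ F ∧ #F' < #F} ∈ M
  fam_dec : ∀ F : Set S, Obj.p F ∈ M →
    (∃ f : W → Set S, (∀ ζ, f ζ ⊆ F ∧ #(f ζ) < #F) ∧ (⋃ ζ, f ζ) = F) →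
    ∃ f : W → Set S, Obj.fam f ∈ M ∧ (∀ ζ, f ζ ⊆ F ∧ #(f ζ) < #F) ∧ (⋃ ζ, f ζ) = F
  lp_nil : Obj.lp [] ∈ M
  lp_cons : ∀ F l, Obj.p F ∈ M → Obj.lp l ∈ M → Obj.lp (F :: l) ∈ M
  fy_app : ∀ Y l, Obj.fy Y ∈ M → Obj.lp l ∈ M → Obj.pp (Y l) ∈ M
  fy_cap : ∀ (FF : Set (Set S)) (Y : List (Set S) → Set (Set S)), Obj.pp FF ∈ M → Obj.fy Y ∈ M →
    (∃ Y' : List (Set S) → Set (Set S), (∀ l, (Y' l).Countable) ∧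
      ∀ l t, Captured FF (fun F => Y (F :: l)) t → ∃ a ∈ t, a ∈ Y' l) →
    ∃ Y' : List (Set S) → Set (Set S), Obj.fy Y' ∈ M ∧ (∀ l, (Y' l).Countable) ∧
      ∀ l t, Captured FF (fun F => Y (F :: l)) t → ∃ a ∈ t, a ∈ Y' l
  pp_miss : ∀ (FF : Set (Set S)) (Y : List (Set S) → Set (Set S)) (t l : List (Set S)), Obj.pp FF ∈ M →
    Obj.fy Y ∈ M → Obj.lp t ∈ M → Obj.lp l ∈ M → Obj.pp {F | F ∈ FF ∧ ∀ a ∈ t, a ∉ Y (F :: l)} ∈ M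
  fy_trace : ∀ (FF SS : Set (Set S)) (Y : List (Set S) → Set (Set S)) (l : List (Set S)),
    Obj.pp FF ∈ M → Obj.pp SS ∈ M → Obj.fy Y ∈ M → Obj.lp l ∈ M →
    (∃ Y' : List (Set S) → Set (Set S), ∀ F ∈ FF, ∃ F' ∈ SS, F ⊆ F' ∧ Y' [F] = (fun b => b ∩ F) '' Y (F' :: l)) →
    ∃ Y' : List (Set S) → Set (Set S), Obj.fy Y' ∈ M ∧
      ∀ F ∈ FF, ∃ F' ∈ SS, F ⊆ F' ∧ Y' [F] = (fun b => b ∩ F) '' Y (F' :: l)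
  p_trace : ∀ (SS : Set (Set S)) (Y Y' : List (Set S) → Set (Set S)) (l : List (Set S)) (F : Set S),
    Obj.pp SS ∈ M → Obj.fy Y ∈ M → Obj.fy Y' ∈ M → Obj.lp l ∈ M → Obj.p F ∈ M →
    (∃ F' ∈ SS, F ⊆ F' ∧ Y' [F] = (fun b => b ∩ F) '' Y (F' :: l)) →
    ∃ F' ∈ SS, Obj.p F' ∈ M ∧ F ⊆ F' ∧ Y' [F] = (fun b => b ∩ F) '' Y (F' :: l)
  p_sharp : ∀ (FF : Set (Set S)) (Y : List (Set S) → Set (Set S)), Obj.pp FF ∈ M → Obj.fy Y ∈ M →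
    (∃ F₁ ∈ FF, ∀ b ⊆ F₁, ∃ F ∈ FF, F ⊆ F₁ ∧ (b ∩ F ∉ Y [F] ∨ Solid FF (fun F => Y [F]) F (b ∩ F))) →
    ∃ F₁ ∈ FF, Obj.p F₁ ∈ M ∧
      ∀ b ⊆ F₁, ∃ F ∈ FF, F ⊆ F₁ ∧ (b ∩ F ∉ Y [F] ∨ Solid FF (fun F => Y [F]) F (b ∩ F))
  p_solid : ∀ (FF : Set (Set S)) (Y : List (Set S) → Set (Set S)) (F₁ b : Set S), Obj.pp FF ∈ M →
    Obj.fy Y ∈ M → Obj.p F₁ ∈ M → Obj.p b ∈ M →
    (∃ F ∈ FF, F ⊆ F₁ ∧ (b ∩ F ∉ Y [F] ∨ Solid FF (fun F => Y [F]) F (b ∩ F))) →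
    ∃ F ∈ FF, Obj.p F ∈ M ∧ F ⊆ F₁ ∧ (b ∩ F ∉ Y [F] ∨ Solid FF (fun F => Y [F]) F (b ∩ F))
  p_zstar : ∀ (FF : Set (Set S)) (Y : List (Set S) → Set (Set S)) (F₀ b₀ : Set S), Obj.pp FF ∈ M →
    Obj.fy Y ∈ M → Obj.p F₀ ∈ M → Obj.p b₀ ∈ M → Obj.p (zstar FF (fun F => Y [F]) F₀ b₀) ∈ M
  p_zz : ∀ (FF : Set (Set S)) (Y : List (Set S) → Set (Set S)) (F₀ b₀ : Set S) (x : S), Obj.pp FF ∈ M →
    Obj.fy Y ∈ M → Obj.p F₀ ∈ M → Obj.p b₀ ∈ M → Obj.el x ∈ M →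
    (∃ F ∈ FF, F₀ ⊆ F ∧ x ∈ F ∧ ∃! b, b ∈ Y [F] ∧ b ∩ F₀ = b₀) →
    ∃ F ∈ FF, Obj.p F ∈ M ∧ F₀ ⊆ F ∧ x ∈ F ∧ ∃! b, b ∈ Y [F] ∧ b ∩ F₀ = b₀
  p_zz' : ∀ (FF : Set (Set S)) (Y : List (Set S) → Set (Set S)) (F₀ b₀ : Set S) (x : S), Obj.pp FF ∈ M →
    Obj.fy Y ∈ M → Obj.p F₀ ∈ M → Obj.p b₀ ∈ M → Obj.el x ∈ M →
    x ∈ zstar FF (fun F => Y [F]) F₀ b₀ →
    ∃ F ∈ FF, Obj.p F ∈ M ∧ F₀ ⊆ F ∧ (∃! b, b ∈ Y [F] ∧ b ∩ F₀ = b₀) ∧ ∃ b, (b ∈ Y [F] ∧ b ∩ F₀ = b₀) ∧ x ∈ b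
  fy_E : ∀ E : Set (Set (Set S)), Obj.ppp E ∈ M →
    (∃ Y : List (Set S) → Set (Set S), ∀ l, Y l ∈ E ∧ ∀ F ∈ l, F ∈ Y l) →
    ∃ Y : List (Set S) → Set (Set S), Obj.fy Y ∈ M ∧ ∀ l, Y l ∈ E ∧ ∀ F ∈ l, F ∈ Y l
  p_retr : ∀ (Q : Set (Set S)) (X t : Set S), Obj.pp Q ∈ M → Obj.p X ∈ M → Obj.p t ∈ M →
    (∃ z ∈ Q, z ∩ X = t) → ∃ z ∈ Q, Obj.p z ∈ M ∧ z ∩ X = t

/-- the elements of `S` in `M` -/
def SM (M : Set (Obj S W)) : Set S := {x | Obj.el x ∈ M}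

/-- `z ∈ M` guesses `B ∩ F` in `M` -/
def IsGuess (M : Set (Obj S W)) (B F z : Set S) : Prop :=
  Obj.p z ∈ M ∧ z ⊆ F ∧ ∀ x, Obj.el x ∈ M → (x ∈ z ↔ x ∈ B ∧ x ∈ F)

/-- the `F ∈ M` for which `B ∩ F` is guessed in `M` -/
def GG (M : Set (Obj S W)) (B : Set S) : Set (Set S) :=
  {F | Obj.p F ∈ M ∧ ∃ z, IsGuess M B F z}

/-- closure of `GG M B` under unions of families indexed by `W` in `M` -/
def Nice (M : Set (Obj S W)) (B : Set S) : Prop :=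
  ∀ f : W → Set S, Obj.fam f ∈ M → (∀ ζ, Obj.w ζ ∈ M → f ζ ∈ GG M B) → (⋃ ζ, f ζ) ∈ GG M B

/-- `FF` is a family of guessed sets the union of which is not guessed -/
structure Br (M : Set (Obj S W)) (B : Set S) (FF : Set (Set S)) : Prop where
  mem : Obj.pp FF ∈ M
  ne : FF.Nonempty
  om : OmClosed W FF
  sub : ∀ F ∈ FF, Obj.p F ∈ M → F ∈ GG M B
  not : ⋃₀ FF ∉ GG M B

/-- matching lists: `F_j ∈ FF_j ∩ M` with guess `z_j` -/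
inductive Matches (M : Set (Obj S W)) : List (Set S) → List (Set S) → List (Set S × Set (Set S)) → Prop
  | nil : Matches M [] [] []
  | cons {F z B : Set S} {FF : Set (Set S)} {l zs : List (Set S)} {L : List (Set S × Set (Set S))} :
      F ∈ FF → Obj.p F ∈ M → IsGuess M B F z → Matches M l zs L → Matches M (F :: l) (z :: zs) ((B, FF) :: L)

/-- the indices `i` relevant for `M` -/
def IM (g : Set S → ℕ → Set S) (M : Set (Obj S W)) : Set ℕ :=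
  {i | Set.univ ∉ GG M (g (SM M) i) ∧ Nice M (g (SM M) i)}

/-- The open stationary set mapping. -/
def Sg (g : Set S → ℕ → Set S) (e : ℕ → Set S) (M : Set (Obj S W)) : Set (Set (Set S)) :=
  {Y | Y.Countable ∧ Y.Infinite ∧ ∃ n, e n ∉ Y ∧
    ∀ i ∈ IM g M, i ≤ n → ∃ F ∈ Y, ∃ z, IsGuess M (g (SM M) i) F z ∧ z ∉ Y ∧ Obj.p F ∈ M}

/-! ## Internal sequences -/

/-- `z` witnesses that the sequence `F` is internal -/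
def Wit (D : Ultrafilter ℕ) (g : Set S → ℕ → Set S) (F z : ℕ → Set S) : Prop :=
  ∀ X : Set S, X.Countable → ∀ᶠ i in (D : Filter ℕ), z i ∩ X = g X i ∩ F i

/-- coherence of `g` -/
structure Coh (κ : Cardinal.{u}) (D : Ultrafilter ℕ) (g : Set S → ℕ → Set S) : Prop where
  sub : ∀ X i, g X i ⊆ X
  coh : ∀ X X' : Set S, X ⊆ X' → #X' < κ → ∀ᶠ i in (D : Filter ℕ), g X' i ∩ X = g X i

/-- `X` decides `Wit` for sequences in `m` -/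
def X1spec (κ : Cardinal.{u}) (D : Ultrafilter ℕ) (g : Set S → ℕ → Set S) (m : Set (Set S)) (X : Set S) : Prop :=
  #X < κ ∧ ∀ F z : ℕ → Set S, (∀ i, F i ∈ m) → (∀ i, z i ∈ m) →
    (∀ᶠ i in (D : Filter ℕ), z i ∩ X = g X i ∩ F i) → Wit D g F z

/-- `Q` contains witnesses for the internal sequences in `m`, and is separated by `X` -/
def X2spec (κ : Cardinal.{u}) (D : Ultrafilter ℕ) (g : Set S → ℕ → Set S) (m : Set (Set S)) (X : Set S)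
    (Q : Set (Set S)) : Prop :=
  #X < κ ∧ (∀ F : ℕ → Set S, (∀ i, F i ∈ m) → (∃ z, Wit D g F z) → ∃ z, Wit D g F z ∧ ∀ i, z i ∈ Q) ∧
    ∀ z ∈ Q, ∀ z' ∈ Q, z ∩ X = z' ∩ X → z = z'

/-- The properties of the union of the chain of models. -/
structure Big (κ : Cardinal.{u}) (D : Ultrafilter ℕ) (g : Set S → ℕ → Set S) (N : Set (Obj S W)) : Prop where
  good : Good g N
  small : #(SM N) < κ
  allW : ∀ ζ, Obj.w ζ ∈ N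
  code : ∀ C : Set (Set S), C.Countable → (∀ F ∈ C, Obj.p F ∈ N) →
    ∃ (m : Set (Set S)) (X₁ X₂ : Set S) (Q : Set (Set S)), C ⊆ m ∧ Obj.p X₁ ∈ N ∧ Obj.p X₂ ∈ N ∧ Obj.pp Q ∈ N ∧
      X1spec κ D g m X₁ ∧ X2spec κ D g m X₂ Q

end Pool.Agent.H215_MRP
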