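import Pool.Agent.H215_MRP.Ultra

set_option autoImplicit false

universe u

namespace Pool.Agent.H215_MRP

open Cardinal Ordinal Set Filter

/-- `I` is a P-ideal of countable subsets of `S`: it contains all finite subsets, is closed under subsets and
finite unions, and every countable family in `I` has an upper bound in `I` modulo finite sets. -/
structure IsPIdeal {S : Type u} (I : Set (Set S)) : Prop where
  ctbl : ∀ A ∈ I, A.Countable
  fin : ∀ A : Set S, A.Finite → A ∈ I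
  sub : ∀ A B : Set S, A ∈ I → B ⊆ A → B ∈ I
  union : ∀ A B : Set S, A ∈ I → B ∈ I → A ∪ B ∈ I
  pseudo : ∀ A : ℕ → Set S, (∀ n, A n ∈ I) → ∃ B ∈ I, ∀ n, (A n \ B).Finite

/-- The P-ideal dichotomy. -/
def PID : Prop :=
  ∀ (S : Type u) (I : Set (Set S)), IsPIdeal I →
    (∃ A : Set S, ¬ A.Countable ∧ ∀ B : Set S, B ⊆ A → B.Countable → B ∈ I) ∨
    ∃ s : ℕ → Set S, (⋃ n, s n) = Set.univ ∧ ∀ n, ∀ A ∈ I, (s n ∩ A).Finite


section

theorem pid_subadditive_transfer {Z : Type u} [LinearOrder Z] (e : Z → Z → ℕ)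
    (h1 : ∀ α β γ, α < β → β < γ → e α γ ≤ max (e α β) (e β γ))
    (h2 : ∀ α β γ, α < β → β < γ → e α β ≤ max (e α γ) (e β γ)) (X : Set Z) (γ γ' : Z)
    (hγ : ∀ β ∈ X, β < γ) (hγ' : ∀ β ∈ X, β < γ')
    (h : ∀ k, {β ∈ X | e β γ ≤ k}.Finite) (k : ℕ) : {β ∈ X | e β γ' ≤ k}.Finite := by
  rcases lt_trichotomy γ γ' with hlt | heq | hgt
  · refine (h (max k (e γ γ'))).subset ?_
    rintro β ⟨hβ, hk⟩
    refine ⟨hβ, (h2 β γ γ' (hγ β hβ) hlt).trans (max_le_max hk le_rfl)⟩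
  · subst heq
    exact h k
  · refine (h (max k (e γ' γ))).subset ?_
    rintro β ⟨hβ, hk⟩
    refine ⟨hβ, (h1 β γ' γ (hγ' β hβ) hgt).trans (max_le_max hk le_rfl)⟩

theorem pid_subadditive (hP : PID.{u}) {Z : Type u} [LinearOrder Z] [Nonempty Z]
    (hb : ∀ X : Set Z, #X ≤ ℵ₁ → ∃ γ, ∀ β ∈ X, β < γ) (e : Z → Z → ℕ)
    (h1 : ∀ α β γ, α < β → β < γ → e α γ ≤ max (e α β) (e β γ))
    (h2 : ∀ α β γ, α < β → β < γ → e α β ≤ max (e α γ) (e β γ)) :
    ∃ (k : ℕ) (A : Set Z), (∀ x, ∃ y ∈ A, x < y) ∧ ∀ β ∈ A, ∀ γ ∈ A, β < γ → e β γ ≤ k := by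
  have hbc : ∀ X : Set Z, X.Countable → ∃ γ, ∀ β ∈ X, β < γ := by
    intro X hX
    exact hb X (Cardinal.countable_iff_lt_aleph_one X |>.1 hX).le
  have htr := pid_subadditive_transfer e h1 h2
  let I : Set (Set Z) := {X | X.Countable ∧ ∃ γ, (∀ β ∈ X, β < γ) ∧ ∀ k, {β ∈ X | e β γ ≤ k}.Finite}
  have hIall : ∀ X ∈ I, ∀ γ, (∀ β ∈ X, β < γ) → ∀ k, {β ∈ X | e β γ ≤ k}.Finite := by
    rintro X ⟨-, γ₀, hγ₀, hfin⟩ γ hγ k
    exact htr X γ₀ γ hγ₀ hγ hfin k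
  have hI : IsPIdeal I := by
    refine ⟨fun A hA => hA.1, ?_, ?_, ?_, ?_⟩
    · intro A hA
      obtain ⟨γ, hγ⟩ := hbc A hA.countable
      exact ⟨hA.countable, γ, hγ, fun k => hA.subset fun β hβ => hβ.1⟩
    · rintro A B ⟨hc, γ, hγ, hfin⟩ hBA
      exact ⟨hc.mono hBA, γ, fun β hβ => hγ β (hBA hβ), fun k => (hfin k).subset
        fun β hβ => ⟨hBA hβ.1, hβ.2⟩⟩
    · intro A B hA hB
      obtain ⟨γ, hγ⟩ := hbc (A ∪ B) (hA.1.union hB.1)
      refine ⟨hA.1.union hB.1, γ, hγ, fun k => ?_⟩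
      have e1 := hIall A hA γ (fun β hβ => hγ β (Or.inl hβ)) k
      have e2 := hIall B hB γ (fun β hβ => hγ β (Or.inr hβ)) k
      refine (e1.union e2).subset ?_
      rintro β ⟨hβ | hβ, hk⟩
      · exact Or.inl ⟨hβ, hk⟩
      · exact Or.inr ⟨hβ, hk⟩
    · intro A hA
      have hcU : (⋃ n, A n).Countable := Set.countable_iUnion fun n => (hA n).1
      obtain ⟨γ, hγ⟩ := hbc _ hcU
      have hfin : ∀ n k, {β ∈ A n | e β γ ≤ k}.Finite := fun n k =>
        hIall (A n) (hA n) γ (fun β hβ => hγ β (Set.mem_iUnion.2 ⟨n, hβ⟩)) k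
      refine ⟨⋃ n, {β ∈ A n | n ≤ e β γ}, ⟨?_, γ, ?_, ?_⟩, ?_⟩
      · exact hcU.mono (Set.iUnion_mono fun n β hβ => hβ.1)
      · intro β hβ
        obtain ⟨n, hn⟩ := Set.mem_iUnion.1 hβ
        exact hγ β (Set.mem_iUnion.2 ⟨n, hn.1⟩)
      · intro k
        have : (⋃ n ∈ Set.Iic k, {β ∈ A n | e β γ ≤ k}).Finite :=
          (Set.finite_Iic k).biUnion fun n _ => hfin n k
        refine this.subset ?_
        rintro β ⟨hβ, hk⟩
        obtain ⟨n, hn⟩ := Set.mem_iUnion.1 hβ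
        refine Set.mem_iUnion₂.2 ⟨n, ?_, hn.1, hk⟩
        exact hn.2.trans hk
      · intro n
        refine (hfin n n).subset ?_
        rintro β ⟨hβ, hnot⟩
        refine ⟨hβ, ?_⟩
        by_contra hlt
        push Not at hlt
        exact hnot (Set.mem_iUnion.2 ⟨n, hβ, hlt.le⟩)
  rcases hP Z I hI with ⟨A, hAunc, hA⟩ | ⟨s, hs, hsI⟩
  · exfalso
    have hle : ℵ₁ ≤ #A := by
      by_contra hlt
      push Not at hlt
      exact hAunc ((Cardinal.countable_iff_lt_aleph_one A).2 hlt)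
    obtain ⟨A', hA'A, hA'⟩ := Cardinal.le_mk_iff_exists_subset.1 hle
    obtain ⟨γ, hγ⟩ := hb A' hA'.le
    have hex : ∃ k, ¬ {β ∈ A' | e β γ ≤ k}.Finite := by
      by_contra hcon
      push Not at hcon
      have hc : A'.Countable := by
        have : A' = ⋃ k, {β ∈ A' | e β γ ≤ k} := by
          ext β
          constructor
          · intro hβ
            exact Set.mem_iUnion.2 ⟨e β γ, hβ, le_rfl⟩
          · intro hβ
            obtain ⟨n, hn⟩ := Set.mem_iUnion.1 hβ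
            exact hn.1
        rw [this]
        exact Set.countable_iUnion fun k => (hcon k).countable
      have := (Cardinal.countable_iff_lt_aleph_one A').1 hc
      rw [hA'] at this
      exact lt_irrefl _ this
    obtain ⟨k, hk⟩ := hex
    have hinf : {β ∈ A' | e β γ ≤ k}.Infinite := hk
    let g := hinf.natEmbedding
    let X : Set Z := Set.range fun n => (g n : Z)
    have hXsub : ∀ β ∈ X, β ∈ A' ∧ e β γ ≤ k := by
      rintro β ⟨n, rfl⟩
      exact (g n).2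
    have hXI : X ∈ I := hA X (fun β hβ => hA'A (hXsub β hβ).1) (Set.countable_range _)
    have hfin := hIall X hXI γ (fun β hβ => hγ β (hXsub β hβ).1) k
    have hXfin : X.Finite := hfin.subset fun β hβ => ⟨hβ, (hXsub β hβ).2⟩
    have hXinf : X.Infinite := Set.infinite_range_of_injective
      (Subtype.val_injective.comp g.injective)
    exact hXinf hXfin
  · -- some `s n` is unbounded
    have hunb : ∃ n, ∀ x, ∃ y ∈ s n, x < y := by
      by_contra hcon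
      push Not at hcon
      choose x hx using hcon
      obtain ⟨γ, hγ⟩ := hbc (Set.range x) (Set.countable_range x)
      have hmem : γ ∈ ⋃ n, s n := by rw [hs]; trivial
      obtain ⟨n, hn⟩ := Set.mem_iUnion.1 hmem
      exact absurd (hγ (x n) ⟨n, rfl⟩) (not_lt.2 (hx n γ hn))
    obtain ⟨n, hn⟩ := hunb
    have hbd : ∀ γ, ∃ k, ∀ β ∈ s n, β < γ → e β γ ≤ k := by
      intro γ
      by_contra hcon
      push Not at hcon
      choose b hb1 hb2 hb3 using hcon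
      have hXI : Set.range b ∈ I := by
        refine ⟨Set.countable_range b, γ, ?_, fun k => ?_⟩
        · rintro β ⟨j, rfl⟩
          exact hb2 j
        · have : (b '' Set.Iic k).Finite := (Set.finite_Iic k).image b
          refine this.subset ?_
          rintro β ⟨⟨j, rfl⟩, hj⟩
          exact ⟨j, ((hb3 j).trans_le hj).le, rfl⟩
      have hfin := hsI n _ hXI
      have hXfin : (Set.range b).Finite := hfin.subset (by
        rintro β ⟨j, rfl⟩
        exact ⟨hb1 j, j, rfl⟩)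
      obtain ⟨K, hK⟩ := (hXfin.image fun β => e β γ).bddAbove
      have h3 := hK ⟨b K, ⟨K, rfl⟩, rfl⟩
      exact absurd h3 (not_le.2 (hb3 K))
    choose kf hkf using hbd
    have hunb2 : ∃ k, ∀ x, ∃ y, (y ∈ s n ∧ kf y ≤ k) ∧ x < y := by
      by_contra hcon
      push Not at hcon
      choose x hx using hcon
      obtain ⟨γ, hγ⟩ := hbc (Set.range x) (Set.countable_range x)
      obtain ⟨y, hy, hyγ⟩ := hn γ
      have h3 := hx (kf y) y ⟨hy, le_rfl⟩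
      have h4 := hγ (x (kf y)) ⟨kf y, rfl⟩
      exact absurd (h4.trans hyγ) (not_lt.2 h3)
    obtain ⟨k, hk⟩ := hunb2
    refine ⟨k, {y | y ∈ s n ∧ kf y ≤ k}, hk, ?_⟩
    rintro β ⟨hβ, -⟩ γ ⟨-, hγ⟩ hlt
    exact (hkf γ β hβ hlt).trans hγ

end

section

theorem pid_trivial_bdd {κ : Cardinal.{u}} (hr : κ.IsRegular) (X : Set (Car κ)) (hX : #X < κ) :
    ∃ γ, ∀ β ∈ X, β < γ := by
  have h1 : Order.cof (Car κ) = κ := by
    rw [show Order.cof (Car κ) = κ.ord.cof from Ordinal.cof_toType _, hr.cof_eq]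
  by_contra hcon
  push Not at hcon
  have h2 : IsCofinal X := fun γ => by
    obtain ⟨β, hβ, hle⟩ := hcon γ
    exact ⟨β, hβ, hle⟩
  have h3 := Order.cof_le h2
  rw [h1] at h3
  exact absurd hX (not_lt.2 h3)

theorem pid_trivial_gt {κ : Cardinal.{u}} (hκ : ℵ₀ < κ) {U : Ultrafilter (Car κ)}
    (hu : IsUniform κ U) (β : Car κ) : ∀ᶠ γ in (U : Filter (Car κ)), β < γ := by
  have h1 : Iic β ∉ U := by
    intro hmem
    have h2 := hu _ hmem
    have h3 : #(Iio β) < κ := Cardinal.mk_Iio_toType_ord_lt β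
    have h4 : #(Iic β) < κ := by
      have : Iic β = insert β (Iio β) := by
        ext x; simp [le_iff_eq_or_lt]
      rw [this]
      exact lt_of_le_of_lt (Cardinal.mk_insert_le) (Cardinal.add_lt_of_lt hκ.le h3
        (lt_of_lt_of_le Cardinal.one_lt_aleph0 hκ.le))
    exact absurd h2 h4.ne
  have h2 : (Iic β)ᶜ ∈ U := Ultrafilter.compl_mem_iff_notMem.2 h1
  filter_upwards [h2] with γ hγ
  exact not_le.1 hγ

/-- The set of coherent indices. -/
def pid_trivial_E {κ : Cardinal.{u}} (b : Car κ → ℕ → Set (Car κ)) (β γ : Car κ) : Set ℕ :=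
  {i | b γ i ∩ Iio β = b β i}

theorem pid_trivial_E1 {κ : Cardinal.{u}} (b : Car κ → ℕ → Set (Car κ)) {α β γ : Car κ}
    (h1 : α < β) {i : ℕ} (hi : i ∈ pid_trivial_E b α β) (hj : i ∈ pid_trivial_E b β γ) :
    i ∈ pid_trivial_E b α γ := by
  simp only [pid_trivial_E, Set.mem_setOf_eq] at *
  rw [← hi, ← hj, Set.inter_assoc]
  congr 1
  ext x
  simp only [Set.mem_inter_iff, Set.mem_Iio]
  exact ⟨fun h => ⟨h.trans h1, h⟩, fun h => h.2⟩

theorem pid_trivial_E2 {κ : Cardinal.{u}} (b : Car κ → ℕ → Set (Car κ)) {α β γ : Car κ}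
    (h1 : α < β) {i : ℕ} (hi : i ∈ pid_trivial_E b α γ) (hj : i ∈ pid_trivial_E b β γ) :
    i ∈ pid_trivial_E b α β := by
  simp only [pid_trivial_E, Set.mem_setOf_eq] at *
  rw [← hi, ← hj, Set.inter_assoc]
  congr 1
  ext x
  simp only [Set.mem_inter_iff, Set.mem_Iio]
  exact ⟨fun h => h.2, fun h => ⟨h.trans h1, h⟩⟩

theorem pid_trivial (hP : PID.{u}) {κ : Cardinal.{u}} (hκ : ℵ₀ < κ) (hs : κ.IsStrongLimit) (hr : κ.IsRegular)
    {U : Ultrafilter (Car κ)} (hu : IsUniform κ U) (hi : IsIndecomposable κ U) {h : Car κ → ℕ}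
    (A : Car κ → Set (Car κ)) (b : Car κ → ℕ → Set (Car κ)) (hb : ∀ γ i, b γ i ⊆ Iio γ)
    (hA : ∀ γ, ∀ᶠ α in (U : Filter (Car κ)), {ξ | ξ < γ ∧ α ∈ A ξ} = b γ (h α)) :
    ∃ G : ℕ → Set (Car κ), ∀ γ, ∀ᶠ α in (U : Filter (Car κ)), G (h α) ∩ Iio γ = {ξ | ξ < γ ∧ α ∈ A ξ} := by
  classical
  have hgt := fun β => pid_trivial_gt hκ hu β
  -- the coherence of two levels
  have hE : ∀ β γ, β < γ → ∀ᶠ α in (U : Filter (Car κ)), h α ∈ pid_trivial_E b β γ := by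
    intro β γ hβγ
    filter_upwards [hA β, hA γ] with α h1 h2
    show b γ (h α) ∩ Iio β = b β (h α)
    rw [← h1, ← h2]
    ext ξ
    simp only [Set.mem_inter_iff, Set.mem_setOf_eq, Set.mem_Iio]
    exact ⟨fun hx => ⟨hx.2, hx.1.2⟩, fun hx => ⟨⟨hx.1.trans hβγ, hx.2⟩, hx.1⟩⟩
  have hc : (2 : Cardinal.{u}) ^ (ℵ₀ : Cardinal.{u}) < κ := hs.two_power_lt hκ
  have hT1 : #(ULift.{u} (Set ℕ)) < κ := by
    rw [Cardinal.mk_uLift, Cardinal.mk_set, Cardinal.mk_nat]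
    simpa using hc
  have hT2 : #(ULift.{u} (ℕ → Set ℕ)) < κ := by
    have : #(ℕ → Set ℕ) = 2 ^ (ℵ₀ : Cardinal.{0}) := by
      rw [← Cardinal.power_def, Cardinal.mk_set, Cardinal.mk_nat, ← Cardinal.power_mul,
        Cardinal.aleph0_mul_aleph0]
    rw [Cardinal.mk_uLift, this]
    simpa using hc
  -- Step 1
  have step1 : ∀ β : Car κ, ∃ q : ℕ → Set ℕ,
      ∀ᶠ γ in (U : Filter (Car κ)), ∃ n, pid_trivial_E b β γ = q n := by
    intro β
    obtain ⟨B, hB, hBU⟩ := ctbl_valued hi hT1 (fun γ => ULift.up (pid_trivial_E b β γ))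
    have hne : B.Nonempty := by
      obtain ⟨γ, hγ⟩ := U.nonempty_of_mem hBU
      exact ⟨_, hγ⟩
    obtain ⟨f, hf⟩ := hB.exists_eq_range hne
    refine ⟨fun n => (f n).down, ?_⟩
    filter_upwards [hBU] with γ hγ
    rw [Set.mem_preimage, hf] at hγ
    obtain ⟨n, hn⟩ := hγ
    exact ⟨n, by rw [hn]⟩
  choose q hq using step1
  -- Step 2
  obtain ⟨Q, hQ, hQU⟩ := ctbl_valued hi hT2 (fun β => ULift.up (q β))
  obtain ⟨HH, hHH⟩ : ∃ HH : Set (Set ℕ), HH = {H | (∃ p ∈ Q, ∃ n, H = p.down n)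
    ∧ ∀ᶠ α in (U : Filter (Car κ)), h α ∈ H} := ⟨_, rfl⟩
  have hHHc : HH.Countable := by
    have h1 : {H : Set ℕ | ∃ p ∈ Q, ∃ n, H = p.down n}.Countable := by
      have : {H : Set ℕ | ∃ p ∈ Q, ∃ n, H = p.down n} = ⋃ p ∈ Q, Set.range p.down := by
        ext H
        simp only [Set.mem_setOf_eq, Set.mem_iUnion, Set.mem_range, exists_prop]
        exact ⟨fun ⟨p, hp, n, hn⟩ => ⟨p, hp, n, hn.symm⟩, fun ⟨p, hp, n, hn⟩ => ⟨p, hp, n, hn.symm⟩⟩
      rw [this]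
      exact hQ.biUnion fun p _ => Set.countable_range _
    refine h1.mono ?_
    rw [hHH]
    exact fun H hH => hH.1
  set Z : Set (Car κ) := (fun β => ULift.up (q β)) ⁻¹' Q with hZ
  have hZE : ∀ β ∈ Z, ∀ᶠ γ in (U : Filter (Car κ)), pid_trivial_E b β γ ∈ HH := by
    intro β hβ
    filter_upwards [hq β, hgt β] with γ h1 h2
    obtain ⟨n, hn⟩ := h1
    rw [hHH]
    exact ⟨⟨ULift.up (q β), hβ, n, hn⟩, hE β γ h2⟩
  have hHne : HH.Nonempty := by
    obtain ⟨β, hβ⟩ := U.nonempty_of_mem hQU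
    obtain ⟨γ, hγ⟩ := U.nonempty_of_mem (hZE β hβ)
    exact ⟨_, hγ⟩
  obtain ⟨Hm, hHm⟩ := hHHc.exists_eq_range hHne
  obtain ⟨Gk, hGk⟩ : ∃ Gk : ℕ → Set ℕ, Gk = fun k => {i | ∀ m ≤ k, i ∈ Hm m} := ⟨_, rfl⟩
  have hGm : ∀ k m, m ≤ k → Gk k ⊆ Hm m := by
    intro k m hm i hi
    rw [hGk] at hi
    exact hi m hm
  have hGa : ∀ k l, k ≤ l → Gk l ⊆ Gk k := by
    intro k l hkl i hi
    rw [hGk] at hi ⊢
    exact fun m hm => hi m (hm.trans hkl)
  have hGU : ∀ k, ∀ᶠ α in (U : Filter (Car κ)), h α ∈ Gk k := by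
    intro k
    have h1 : ∀ m ∈ Finset.range (k + 1), ∀ᶠ α in (U : Filter (Car κ)), h α ∈ Hm m := by
      intro m _
      have : Hm m ∈ HH := by rw [hHm]; exact ⟨m, rfl⟩
      rw [hHH] at this
      exact this.2
    filter_upwards [(Filter.eventually_all_finset _).2 h1] with α hα
    rw [hGk]
    exact fun m hm => hα m (Finset.mem_range.2 (Nat.lt_succ_of_le hm))
  -- Step 3
  have hex : ∀ β ∈ Z, ∀ γ ∈ Z, β < γ → ∃ k, Gk k ⊆ pid_trivial_E b β γ := by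
    intro β hβ γ hγ hβγ
    obtain ⟨δ, hδ⟩ := U.nonempty_of_mem
      ((hZE β hβ).and ((hZE γ hγ).and (hgt γ)))
    obtain ⟨h1, h2, h3⟩ := hδ
    rw [hHm] at h1 h2
    obtain ⟨m1, hm1⟩ := h1
    obtain ⟨m2, hm2⟩ := h2
    refine ⟨max m1 m2, fun i hi => ?_⟩
    have a1 : i ∈ pid_trivial_E b β δ := by rw [← hm1]; exact hGm _ _ (le_max_left _ _) hi
    have a2 : i ∈ pid_trivial_E b γ δ := by rw [← hm2]; exact hGm _ _ (le_max_right _ _) hi
    exact pid_trivial_E2 b hβγ a1 a2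
  let e : Z → Z → ℕ := fun β γ =>
    if hh : ∃ k, Gk k ⊆ pid_trivial_E b β γ then Nat.find hh else 0
  have he : ∀ β γ : Z, β < γ → Gk (e β γ) ⊆ pid_trivial_E b β γ := by
    intro β γ hlt
    have hh := hex β β.2 γ γ.2 hlt
    have : e β γ = Nat.find hh := dif_pos hh
    rw [this]
    exact Nat.find_spec hh
  have hle : ∀ (β γ : Z) (k : ℕ), Gk k ⊆ pid_trivial_E b β γ → e β γ ≤ k := by
    intro β γ k hk
    have hh : ∃ k, Gk k ⊆ pid_trivial_E b β γ := ⟨k, hk⟩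
    have : e β γ = Nat.find hh := dif_pos hh
    rw [this]
    exact Nat.find_min' hh hk
  have hZunb : ∀ x : Car κ, ∃ z ∈ Z, x < z := by
    intro x
    obtain ⟨z, hz⟩ := U.nonempty_of_mem (Filter.inter_mem hQU (hgt x))
    exact ⟨z, hz.1, hz.2⟩
  have hZne : Nonempty Z := by
    obtain ⟨z, hz⟩ := U.nonempty_of_mem hQU
    exact ⟨⟨z, hz⟩⟩
  have haleph : (ℵ₁ : Cardinal.{u}) < κ := by
    have h1 : (ℵ₁ : Cardinal.{u}) ≤ 2 ^ (ℵ₀ : Cardinal.{u}) := by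
      rw [← Cardinal.succ_aleph0]
      exact Order.succ_le_of_lt (Cardinal.cantor _)
    exact lt_of_le_of_lt h1 hc
  obtain ⟨k, A', hA'1, hA'2⟩ := pid_subadditive hP (Z := Z) (by
      intro X hX
      have h1 : #(Subtype.val '' X : Set (Car κ)) < κ :=
        lt_of_le_of_lt (Cardinal.mk_image_le.trans hX) haleph
      obtain ⟨γ, hγ⟩ := pid_trivial_bdd hr _ h1
      obtain ⟨z, hz, hγz⟩ := hZunb γ
      refine ⟨⟨z, hz⟩, fun β hβ => ?_⟩
      exact (hγ β.1 ⟨β, hβ, rfl⟩).trans hγz) e (by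
      intro α β γ h1 h2
      refine hle α γ _ fun i hi => ?_
      exact pid_trivial_E1 b h1 (he α β h1 (hGa _ _ (le_max_left _ _) hi))
        (he β γ h2 (hGa _ _ (le_max_right _ _) hi))) (by
      intro α β γ h1 h2
      refine hle α β _ fun i hi => ?_
      exact pid_trivial_E2 b h1 (he α γ (h1.trans h2) (hGa _ _ (le_max_left _ _) hi))
        (he β γ h2 (hGa _ _ (le_max_right _ _) hi)))
  -- Step 4
  have hsub : ∀ β ∈ A', ∀ γ ∈ A', β < γ → ∀ i ∈ Gk k, b γ.1 i ∩ Iio β.1 = b β.1 i := by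
    intro β hβ γ hγ hlt i hi
    exact he β γ hlt (hGa _ _ (hA'2 β hβ γ hγ hlt) hi)
  have hGG : ∀ β ∈ A', ∀ i ∈ Gk k, (⋃ γ ∈ A', b γ.1 i) ∩ Iio β.1 = b β.1 i := by
    intro β hβ i hi
    ext ξ
    simp only [Set.mem_inter_iff, Set.mem_iUnion, Set.mem_Iio, exists_prop]
    constructor
    · rintro ⟨⟨γ, hγ, hξ⟩, hξβ⟩
      rcases lt_trichotomy γ β with hlt | heq | hlt
      · have := hsub γ hγ β hβ hlt i hi
        rw [← this] at hξ
        exact hξ.1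
      · rw [← heq]; exact hξ
      · have := hsub β hβ γ hγ hlt i hi
        rw [← this]
        exact ⟨hξ, hξβ⟩
    · intro hξ
      exact ⟨⟨β, hβ, hξ⟩, hb _ _ hξ⟩
  refine ⟨fun i => ⋃ γ ∈ A', b γ.1 i, fun γ0 => ?_⟩
  obtain ⟨z, hz, hγz⟩ := hZunb γ0
  obtain ⟨β, hβ, hzβ⟩ := hA'1 ⟨z, hz⟩
  have hγβ : γ0 < β.1 := hγz.trans hzβ
  filter_upwards [hGU k, hA β.1] with α h1 h2
  have h3 := hGG β hβ (h α) h1
  rw [← h2] at h3
  ext ξ
  constructor
  · rintro ⟨hx1, hx2⟩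
    have hx2' : ξ < γ0 := hx2
    have : ξ ∈ (⋃ γ ∈ A', b γ.1 (h α)) ∩ Iio β.1 := ⟨hx1, hx2'.trans hγβ⟩
    rw [h3] at this
    exact ⟨hx2', this.2⟩
  · rintro ⟨hx1, hx2⟩
    have : ξ ∈ {ξ | ξ < β.1 ∧ α ∈ A ξ} := ⟨hx1.trans hγβ, hx2⟩
    rw [← h3] at this
    exact ⟨this.1, hx1⟩

end

section

/-- a subset of size less than `κ` is bounded -/
theorem pid_local_bdd {κ : Cardinal.{u}} (hr : κ.IsRegular) (s : Set (Car κ)) (hs : #s < κ) :
    ∃ γ, ∀ x ∈ s, x < γ := by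
  apply not_isCofinal_iff.1
  intro h
  have h1 := Order.cof_le h
  rw [Ordinal.cof_toType, hr.cof_ord] at h1
  exact absurd hs (not_lt.2 h1)

theorem pid_local_card {κ : Cardinal.{u}} (A : Set (Car κ)) : #A ≤ κ := by
  have := Cardinal.mk_set_le A
  rwa [mk_ord_toType] at this

theorem pid_local_Iio {κ : Cardinal.{u}} (γ : Car κ) : #(Iio γ) < κ := by
  simpa using mk_Iio_lt γ

theorem pid_local (hP : PID.{u}) {κ : Cardinal.{u}} (hκ : ℵ₀ < κ) (hs : κ.IsStrongLimit) (hr : κ.IsRegular)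
    (U : Ultrafilter (Car κ)) (hu : IsUniform κ U) (hi : IsIndecomposable κ U)
    (S : Set (Set (Car κ))) (hS : #S ≤ κ) :
    ∃ (D : Ultrafilter ℕ) (G : ℕ → Set (Set (Car κ))),
      (∀ i, ∀ Y : Set (Set (Car κ)), Y ⊆ S → #Y < κ → #{α : Car κ | ∀ B ∈ Y, (B ∈ G i ↔ α ∈ B)} = κ) ∧
      ∀ B ∈ S, (B ∈ U ↔ ∀ᶠ i in (D : Filter ℕ), B ∈ G i) := by
  classical
  obtain ⟨h, hh⟩ := silver hκ hs hi
  rcases S.eq_empty_or_nonempty with hSe | hSne
  · refine ⟨U.map h, fun _ => ∅, ?_, ?_⟩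
    · intro i Y hY _
      have hYe : Y = ∅ := by rw [hSe] at hY; exact Set.subset_empty_iff.1 hY
      have : {α : Car κ | ∀ B ∈ Y, (B ∈ (∅ : Set (Set (Car κ))) ↔ α ∈ B)} = Set.univ := by
        ext α; simp [hYe]
      rw [this, Cardinal.mk_univ, mk_ord_toType]
    · intro B hB
      rw [hSe] at hB
      exact absurd hB (Set.notMem_empty B)
  -- an enumeration of `S`
  obtain ⟨A, hA⟩ : ∃ A : Car κ → Set (Car κ), Set.range A = S := by
    have h1 : #S ≤ #(Car κ) := by rwa [mk_ord_toType]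
    obtain ⟨e⟩ := Cardinal.le_def _ _ |>.1 h1
    obtain ⟨s0, hs0⟩ := hSne
    have : Nonempty S := ⟨⟨s0, hs0⟩⟩
    refine ⟨fun ξ => (Function.invFun e ξ : S), ?_⟩
    ext B
    constructor
    · rintro ⟨ξ, rfl⟩
      exact (Function.invFun e ξ).2
    · intro hB
      exact ⟨e ⟨B, hB⟩, congrArg Subtype.val (Function.leftInverse_invFun e.injective ⟨B, hB⟩)⟩
  have hix : ∀ B : Set (Car κ), ∃ ξ : Car κ, B ∈ S → A ξ = B := by
    intro B
    by_cases hB : B ∈ S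
    · rw [← hA] at hB
      obtain ⟨ξ, hξ⟩ := hB
      exact ⟨ξ, fun _ => hξ⟩
    · obtain ⟨s0, hs0⟩ := hSne
      rw [← hA] at hs0
      obtain ⟨ξ, _⟩ := hs0
      exact ⟨ξ, fun h => absurd h hB⟩
  choose ix hix using hix
  -- the traces
  have htr : ∀ γ : Car κ, ∃ b : ℕ → Set (Car κ), (∀ i, b i ⊆ Iio γ) ∧
      ∀ᶠ α in (U : Filter (Car κ)), {ξ | ξ < γ ∧ α ∈ A ξ} = b (h α) := by
    intro γ
    have hT : #(Set (Iio γ)) < κ := by
      rw [Cardinal.mk_set]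
      exact hs.two_power_lt (pid_local_Iio γ)
    obtain ⟨t, ht⟩ := hh (Set (Iio γ)) hT (fun α => {ξ : Iio γ | α ∈ A ξ})
    refine ⟨fun i => Subtype.val '' (t i), ?_, ?_⟩
    · rintro i _ ⟨ξ, _, rfl⟩
      exact ξ.2
    · filter_upwards [ht] with α hα
      rw [← hα]
      ext ξ
      constructor
      · rintro ⟨h1, h2⟩
        exact ⟨⟨ξ, h1⟩, h2, rfl⟩
      · rintro ⟨ξ', h1, rfl⟩
        exact ⟨ξ'.2, h1⟩
  choose b hb hbA using htr
  obtain ⟨G0, hG0⟩ := pid_trivial hP hκ hs hr hu hi (h := h) A b hb hbA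
  obtain ⟨G1, hG1⟩ : ∃ G1 : ℕ → Set (Set (Car κ)), G1 = fun i => {B | B ∈ S ∧ ix B ∈ G0 i} :=
    ⟨_, rfl⟩
  have c1 : ∀ γ, ∀ᶠ α in (U : Filter (Car κ)), ∀ B ∈ S, ix B < γ → (B ∈ G1 (h α) ↔ α ∈ B) := by
    intro γ
    filter_upwards [hG0 γ] with α hα B hB hBγ
    have h1 : ix B ∈ G0 (h α) ↔ α ∈ A (ix B) := by
      constructor
      · intro h2
        have : ix B ∈ G0 (h α) ∩ Iio γ := ⟨h2, hBγ⟩
        rw [hα] at this
        exact this.2
      · intro h2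
        have : ix B ∈ {ξ | ξ < γ ∧ α ∈ A ξ} := ⟨hBγ, h2⟩
        rw [← hα] at this
        exact this.1
    rw [hix B hB] at h1
    rw [hG1]
    exact ⟨fun h2 => h1.1 h2.2, fun h2 => ⟨hB, h1.2 h2⟩⟩
  have c2 : ∀ Y : Set (Set (Car κ)), #Y < κ → ∃ γ, ∀ B ∈ Y, ix B < γ := by
    intro Y hY
    obtain ⟨γ, hγ⟩ := pid_local_bdd hr (ix '' Y) (lt_of_le_of_lt Cardinal.mk_image_le hY)
    exact ⟨γ, fun B hB => hγ _ (Set.mem_image_of_mem _ hB)⟩
  obtain ⟨good, hgood⟩ : ∃ good : ℕ → Prop, good = fun i => ∀ Y : Set (Set (Car κ)), Y ⊆ S →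
      #Y < κ → #{α : Car κ | ∀ B ∈ Y, (B ∈ G1 i ↔ α ∈ B)} = κ := ⟨_, rfl⟩
  have c3 : ∀ᶠ α in (U : Filter (Car κ)), good (h α) := by
    by_contra hcon
    rw [← Ultrafilter.eventually_not] at hcon
    have hY : ∀ i : ℕ, ∃ Y : Set (Set (Car κ)), Y ⊆ S ∧ #Y < κ ∧
        (¬ good i → #{α : Car κ | ∀ B ∈ Y, (B ∈ G1 i ↔ α ∈ B)} < κ) := by
      intro i
      by_cases hg : good i
      · refine ⟨∅, Set.empty_subset _, ?_, fun h => absurd hg h⟩
        rw [Cardinal.mk_emptyCollection]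
        exact lt_of_lt_of_le Cardinal.aleph0_pos hκ.le
      · have hg' := hg
        rw [hgood] at hg
        push Not at hg
        obtain ⟨Y, h1, h2, h3⟩ := hg
        exact ⟨Y, h1, h2, fun _ => lt_of_le_of_ne (pid_local_card _) h3⟩
    choose Y hYS hYc hYr using hY
    have hUc : #(⋃ i, Y i) < κ := by
      have h1 : (⋃ i, Y i) = ⋃ i : ULift.{u} ℕ, Y i.down := by
        ext B; simp
      rw [h1, card_iUnion_lt_iff_forall_of_isRegular hr (by simpa using hκ)]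
      exact fun i => hYc i.down
    obtain ⟨γ, hγ⟩ := c2 _ hUc
    have hR : (⋃ i : ULift.{u} ℕ, {α : Car κ | ¬ good i.down ∧
        ∀ B ∈ Y i.down, (B ∈ G1 i.down ↔ α ∈ B)}) ∈ U := by
      rw [← Ultrafilter.mem_coe]
      filter_upwards [hcon, c1 γ] with α h1 h2
      rw [Set.mem_iUnion]
      exact ⟨⟨h α⟩, h1, fun B hB => h2 B (hYS _ hB) (hγ B (Set.mem_iUnion.2 ⟨_, hB⟩))⟩
    have hRc := hu _ hR
    have hRc' : #(⋃ i : ULift.{u} ℕ, {α : Car κ | ¬ good i.down ∧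
        ∀ B ∈ Y i.down, (B ∈ G1 i.down ↔ α ∈ B)}) < κ := by
      rw [card_iUnion_lt_iff_forall_of_isRegular hr (by simpa using hκ)]
      intro i
      by_cases hg : good i.down
      · have : {α : Car κ | ¬ good i.down ∧ ∀ B ∈ Y i.down, (B ∈ G1 i.down ↔ α ∈ B)} = ∅ := by
          ext α; simp [hg]
        rw [this, Cardinal.mk_emptyCollection]
        exact lt_of_lt_of_le Cardinal.aleph0_pos hκ.le
      · refine lt_of_le_of_lt (Cardinal.mk_le_mk_of_subset ?_) (hYr i.down hg)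
        exact fun α hα => hα.2
    exact absurd hRc hRc'.ne
  obtain ⟨α0, hα0⟩ := c3.exists
  refine ⟨U.map h, fun i => if good i then G1 i else G1 (h α0), ?_, ?_⟩
  · intro i Y hYS hYc
    by_cases hg : good i
    · simp only [hg, if_true]
      rw [hgood] at hg
      exact hg Y hYS hYc
    · simp only [hg, if_false]
      rw [hgood] at hα0
      exact hα0 Y hYS hYc
  · intro B hB
    obtain ⟨γ, hγ⟩ := c2 {B} (by
      rw [Cardinal.mk_singleton]
      exact lt_trans Cardinal.one_lt_aleph0 hκ)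
    have hγ' := hγ B rfl
    have c4 : ∀ᶠ α in (U : Filter (Car κ)),
        (B ∈ (if good (h α) then G1 (h α) else G1 (h α0)) ↔ α ∈ B) := by
      filter_upwards [c1 γ, c3] with α h1 h2
      rw [if_pos h2]
      exact h1 B hB hγ'
    rw [Ultrafilter.coe_map, Filter.eventually_map]
    constructor
    · intro h1
      filter_upwards [c4, (Ultrafilter.mem_coe.2 h1 : B ∈ (U : Filter (Car κ)))] with α h2 h3
      exact h2.2 h3
    · intro h1
      rw [← Ultrafilter.mem_coe]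
      filter_upwards [c4, h1] with α h2 h3
      exact h2.1 h3

end

end Pool.Agent.H215_MRP
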