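import Pool.Agent.H215_MRP.Base

set_option autoImplicit false

universe u

namespace Pool.Agent.H215_MRP

open Cardinal Ordinal Set Filter

variable {S W : Type u}

/-- closure of a `ZFSet` under functions -/
def ClZ (f : ℕ → List ZFSet.{u} → ZFSet.{u}) (M : ZFSet.{u}) : Prop := ∀ n l, (∀ x ∈ l, x ∈ M) → f n l ∈ M

section

theorem club_closed_toSet (A : Set ZFSet.{u}) (hA : A.Countable) (hne : A.Nonempty) :
    ∃ Z : ZFSet.{u}, (Z : Set ZFSet.{u}) = A := by
  obtain ⟨g, hg⟩ := hA.exists_eq_range hne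
  refine ⟨ZFSet.range g, ?_⟩
  ext x
  simp only [SetLike.mem_coe, ZFSet.mem_range, hg, Set.mem_range]

/-- one step of the closure -/
def club_closed_step (f : ℕ → List ZFSet.{u} → ZFSet.{u}) (A : Set ZFSet.{u}) : Set ZFSet.{u} :=
  A ∪ ⋃ m : ℕ, f m '' {l | ∀ x ∈ l, x ∈ A}

theorem club_closed_step_countable (f : ℕ → List ZFSet.{u} → ZFSet.{u}) {A : Set ZFSet.{u}}
    (hA : A.Countable) : (club_closed_step f A).Countable := by
  have h1 : ({l : List ZFSet.{u} | ∀ x ∈ l, x ∈ A}).Countable := by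
    have : Countable A := hA.to_subtype
    rw [← Set.range_list_map_coe A]
    exact Set.countable_range _
  exact hA.union (Set.countable_iUnion fun m => h1.image _)

/-- a finite list in an increasing union lies in one of the sets -/
theorem club_closed_list {A : ℕ → Set ZFSet.{u}} (hA : Monotone A) (l : List ZFSet.{u})
    (hl : ∀ x ∈ l, ∃ n, x ∈ A n) : ∃ n, ∀ x ∈ l, x ∈ A n := by
  induction l with
  | nil => exact ⟨0, by simp⟩
  | cons a l ih =>
    obtain ⟨n, hn⟩ := ih fun x hx => hl x (List.mem_cons_of_mem _ hx)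
    obtain ⟨m, hm⟩ := hl a (by simp)
    refine ⟨max n m, fun x hx => ?_⟩
    rcases List.mem_cons.1 hx with rfl | hx
    · exact hA (le_max_right _ _) hm
    · exact hA (le_max_left _ _) (hn x hx)

theorem club_closed (θ : Cardinal.{u}) (hθ : ℵ₀ < θ) (f : ℕ → List ZFSet.{u} → ZFSet.{u})
    (hf : ∀ n l, (∀ x ∈ l, x ∈ H θ) → f n l ∈ H θ) :
    IsClubIn (H θ) {M | M ∈ CtblSub (H θ) ∧ ClZ f M} := by
  refine ⟨fun M hM => hM.1, ?_, ?_⟩
  · rintro Y ⟨hY1, hY2, hY3⟩
    let A : ℕ → Set ZFSet.{u} := fun n => Nat.rec (Y : Set ZFSet.{u}) (fun _ B => club_closed_step f B) n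
    have hA0 : A 0 = (Y : Set ZFSet.{u}) := rfl
    have hAs : ∀ n, A (n + 1) = club_closed_step f (A n) := fun n => rfl
    have hmono : Monotone A := monotone_nat_of_le_succ fun n => by
      rw [hAs]; exact Set.subset_union_left
    have hc : ∀ n, (A n).Countable := by
      intro n
      induction n with
      | zero => exact hY2
      | succ n ih => rw [hAs]; exact club_closed_step_countable f ih
    have hH : ∀ n, A n ⊆ H θ := by
      intro n
      induction n with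
      | zero => exact hY1
      | succ n ih =>
        rw [hAs]
        refine Set.union_subset ih (Set.iUnion_subset fun m => ?_)
        rintro _ ⟨l, hl, rfl⟩
        exact hf m l fun x hx => ih (hl x hx)
    obtain ⟨Z, hZ⟩ := club_closed_toSet (⋃ n, A n) (Set.countable_iUnion hc) (by
      obtain ⟨y, hy⟩ := hY3.nonempty
      exact ⟨y, Set.mem_iUnion.2 ⟨0, hy⟩⟩)
    have hmem : ∀ x, x ∈ Z ↔ ∃ n, x ∈ A n := by
      intro x
      rw [← SetLike.mem_coe, hZ, Set.mem_iUnion]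
    have hYZ : (Y : Set ZFSet.{u}) ⊆ (Z : Set ZFSet.{u}) := by
      intro y hy
      rw [SetLike.mem_coe, hmem]
      exact ⟨0, hy⟩
    refine ⟨Z, ⟨⟨?_, ?_, ?_⟩, ?_⟩, ?_⟩
    · rw [hZ]; exact Set.iUnion_subset hH
    · rw [hZ]; exact Set.countable_iUnion hc
    · exact hY3.mono hYZ
    · intro m l hl
      obtain ⟨n, hn⟩ := club_closed_list hmono l fun x hx => (hmem x).1 (hl x hx)
      rw [hmem]
      refine ⟨n + 1, ?_⟩
      rw [hAs]
      exact Or.inr (Set.mem_iUnion.2 ⟨m, l, hn, rfl⟩)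
    · intro y hy
      exact hYZ hy
  · intro s hs hsub Z hZ
    have hmono : Monotone fun n => (s n : Set ZFSet.{u}) := monotone_nat_of_le_succ fun n x hx =>
      hsub n hx
    have hZ' : (Z : Set ZFSet.{u}) = ⋃ n, (s n : Set ZFSet.{u}) := by
      ext x
      rw [SetLike.mem_coe, hZ, Set.mem_iUnion]
      rfl
    refine ⟨⟨?_, ?_, ?_⟩, ?_⟩
    · rw [hZ']
      exact Set.iUnion_subset fun n => (hs n).1.1
    · rw [hZ']
      exact Set.countable_iUnion fun n => (hs n).1.2.1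
    · refine (hs 0).1.2.2.mono ?_
      rw [hZ']
      exact Set.subset_iUnion (fun n => (s n : Set ZFSet.{u})) 0
    · intro m l hl
      obtain ⟨n, hn⟩ := club_closed_list hmono l fun x hx => (hZ x).1 (hl x hx)
      rw [hZ]
      exact ⟨n, (hs n).2 m l hn⟩

end

section

theorem exists_skolem_ctbl : Countable (Σ n, langMem.BoundedFormula Empty n) := by
  have : Countable (Σ l, langMem.Functions l) := by
    have : IsEmpty (Σ l, langMem.Functions l) := ⟨fun x => x.2.elim⟩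
    infer_instance
  have : Countable (Σ l, langMem.Relations l) := by
    have : Subsingleton (Σ l, langMem.Relations l) := by
      constructor
      rintro ⟨_, ⟨⟩⟩ ⟨_, ⟨⟩⟩
      rfl
    infer_instance
  have : Countable langMem.Symbols := by
    unfold FirstOrder.Language.Symbols
    infer_instance
  infer_instance

/-- the witness function for a formula -/
noncomputable def exists_skolem_wit (θ : Cardinal.{u}) (k : ℕ) (φ : langMem.BoundedFormula Empty (k + 1))
    (l : List ZFSet.{u}) : ZFSet.{u} :=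
  open Classical in
  if h : ∃ a : H θ, ∃ x : Fin k → H θ, l = List.ofFn (fun i => (x i : ZFSet.{u})) ∧
      φ.Realize default (Fin.snoc x a) then (h.choose : ZFSet.{u}) else ∅

theorem exists_skolem_empty (θ : Cardinal.{u}) (hθ : 0 < θ) : (∅ : ZFSet.{u}) ∈ H θ :=
  ⟨∅, ZFSet.isTransitive_empty, fun _ h => h, by simpa using hθ⟩

theorem exists_skolem_wit_mem (θ : Cardinal.{u}) (hθ : 0 < θ) (k : ℕ)
    (φ : langMem.BoundedFormula Empty (k + 1)) (l : List ZFSet.{u}) :
    exists_skolem_wit θ k φ l ∈ H θ := by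
  unfold exists_skolem_wit
  split_ifs with h
  · exact h.choose.2
  · exact exists_skolem_empty θ hθ

theorem exists_skolem_wit_spec (θ : Cardinal.{u}) (k : ℕ)
    (φ : langMem.BoundedFormula Empty (k + 1)) (x : Fin k → H θ) (a : H θ)
    (h : φ.Realize default (Fin.snoc x a : _ → H θ)) :
    ∃ b : H θ, (b : ZFSet.{u}) = exists_skolem_wit θ k φ (List.ofFn (fun i => (x i : ZFSet.{u}))) ∧
      φ.Realize default (Fin.snoc x b : _ → H θ) := by
  unfold exists_skolem_wit
  have h' : ∃ a : H θ, ∃ y : Fin k → H θ, List.ofFn (fun i => (x i : ZFSet.{u})) =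
      List.ofFn (fun i => (y i : ZFSet.{u})) ∧
      φ.Realize default (Fin.snoc y a) := ⟨a, x, rfl, h⟩
  rw [dif_pos h']
  refine ⟨h'.choose, rfl, ?_⟩
  obtain ⟨y, hy, hr⟩ := h'.choose_spec
  have : y = x := by
    funext i
    exact (Subtype.ext (congrFun (List.ofFn_injective hy) i)).symm
  rwa [this] at hr

theorem exists_skolem (θ : Cardinal.{u}) (hθ : 0 < θ) :
    ∃ f : ℕ → List ZFSet.{u} → ZFSet.{u}, (∀ n l, (∀ x ∈ l, x ∈ H θ) → f n l ∈ H θ) ∧
      ∀ M : ZFSet.{u}, (M : Set ZFSet.{u}) ⊆ H θ → ClZ f M → IsElem θ M := by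
  have hc := exists_skolem_ctbl
  have hc' : Countable (Σ k, langMem.BoundedFormula Empty (k + 1)) := by
    refine Function.Injective.countable
      (f := fun p : (Σ k, langMem.BoundedFormula Empty (k + 1)) =>
        (⟨p.1 + 1, p.2⟩ : Σ n, langMem.BoundedFormula Empty n)) ?_
    rintro ⟨k, φ⟩ ⟨k', φ'⟩ h
    simp only [Sigma.mk.injEq, Nat.add_right_cancel_iff] at h
    obtain ⟨rfl, h2⟩ := h
    rw [eq_of_heq h2]
  have hne : Nonempty (Σ k, langMem.BoundedFormula Empty (k + 1)) :=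
    ⟨⟨0, FirstOrder.Language.BoundedFormula.falsum⟩⟩
  obtain ⟨e, he⟩ := exists_surjective_nat (Σ k, langMem.BoundedFormula Empty (k + 1))
  refine ⟨fun n l => exists_skolem_wit θ (e n).1 (e n).2 l,
    fun n l _ => exists_skolem_wit_mem θ hθ _ _ _, fun M hM hcl => ⟨hM, ?_⟩⟩
  let T : langMem.Substructure (H θ) :=
    { carrier := {x | (x : ZFSet.{u}) ∈ M}
      fun_mem := fun f => f.elim }
  have htv : ∀ (n : ℕ) (φ : langMem.BoundedFormula Empty (n + 1)) (x : Fin n → T) (a : H θ),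
      φ.Realize default (Fin.snoc ((↑) ∘ x) a : _ → H θ) →
        ∃ b : T, φ.Realize default (Fin.snoc ((↑) ∘ x) b : _ → H θ) := by
    intro n φ x a h
    obtain ⟨b, hb, hr⟩ := exists_skolem_wit_spec θ n φ _ a h
    obtain ⟨m, hm⟩ := he ⟨n, φ⟩
    have hbM : (b : ZFSet.{u}) ∈ M := by
      rw [hb]
      have := hcl m (List.ofFn (fun i => (((x i : T) : H θ) : ZFSet.{u}))) (by
        intro y hy
        rw [List.mem_ofFn] at hy
        obtain ⟨i, rfl⟩ := hy
        exact (x i).2)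
      have hh : ∀ p : (Σ k, langMem.BoundedFormula Empty (k + 1)), e m = p →
          exists_skolem_wit θ p.1 p.2 (List.ofFn (fun i => (((x i : T) : H θ) : ZFSet.{u}))) ∈ M := by
        rintro p rfl
        exact this
      exact hh ⟨n, φ⟩ hm
    exact ⟨⟨b, hbM⟩, hr⟩
  exact ⟨T.toElementarySubstructure htv, fun x => Iff.rfl⟩

end

section

/-! ### auxiliary lemmas -/

theorem amrp_of_mrp_inj (O : Type u) : ∃ io : O → ZFSet.{u}, Function.Injective io :=
  ⟨fun o => (Ordinal.typein (WellOrderingRel : O → O → Prop) o).toZFSet, fun _ _ h =>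
    Ordinal.typein_injective _ (Ordinal.toZFSet_injective h)⟩

/-- properties of countable sets which follow from closure under suitable functions -/
def amrp_of_mrp_Good (Hs : Set ZFSet.{u}) (φ : ZFSet.{u} → Prop) : Prop :=
  ∃ f : ℕ → List ZFSet.{u} → ZFSet.{u}, (∀ n l, (∀ x ∈ l, x ∈ Hs) → f n l ∈ Hs) ∧
    ∀ M, M ∈ CtblSub Hs → ClZ f M → φ M

theorem amrp_of_mrp_and {Hs : Set ZFSet.{u}} {φ ψ : ZFSet.{u} → Prop}
    (h1 : amrp_of_mrp_Good Hs φ) (h2 : amrp_of_mrp_Good Hs ψ) :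
    amrp_of_mrp_Good Hs (fun M => φ M ∧ ψ M) := by
  obtain ⟨f, hf, hf'⟩ := h1
  obtain ⟨g, hg, hg'⟩ := h2
  refine ⟨fun n => if n % 2 = 0 then f (n / 2) else g (n / 2), ?_, ?_⟩
  · intro n l hl
    dsimp only
    split_ifs
    · exact hf _ _ hl
    · exact hg _ _ hl
  · intro M hM hcl
    refine ⟨hf' M hM ?_, hg' M hM ?_⟩
    · intro n l hl
      have h := hcl (2 * n) l hl
      have e1 : 2 * n % 2 = 0 := by omega
      have e2 : 2 * n / 2 = n := by omega
      simpa [e1, e2] using h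
    · intro n l hl
      have h := hcl (2 * n + 1) l hl
      have e1 : (2 * n + 1) % 2 ≠ 0 := by omega
      have e2 : (2 * n + 1) / 2 = n := by omega
      simp only [if_neg e1, e2] at h
      exact h

theorem amrp_of_mrp_const {Hs : Set ZFSet.{u}} {X : ZFSet.{u}} (hX : X ∈ Hs) :
    amrp_of_mrp_Good Hs (fun M => X ∈ M) := by
  refine ⟨fun _ _ => X, fun _ _ _ => hX, fun M _ hcl => ?_⟩
  exact hcl 0 [] (by simp)

theorem amrp_of_mrp_unary {Hs : Set ZFSet.{u}} {e : ZFSet.{u}} (he : e ∈ Hs)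
    (g : ℕ → ZFSet.{u} → ZFSet.{u}) (hg : ∀ n, ∀ x ∈ Hs, g n x ∈ Hs) :
    amrp_of_mrp_Good Hs (fun M => ∀ x ∈ M, ∀ n, g n x ∈ M) := by
  refine ⟨fun n l => match l with
    | [] => e
    | x :: _ => g n x, ?_, ?_⟩
  · intro n l hl
    cases l with
    | nil => exact he
    | cons x l => exact hg n x (hl x (by simp))
  · intro M _ hcl x hx n
    exact hcl n [x] (by simpa using hx)

theorem amrp_of_mrp_list {Hs : Set ZFSet.{u}} {e : ZFSet.{u}} (he : e ∈ Hs) {O : Type u}
    {io : O → ZFSet.{u}} (hio : Function.Injective io) (hH : ∀ o, io o ∈ Hs)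
    (f : ℕ → List O → O) :
    amrp_of_mrp_Good Hs (fun M => Cl f {o | io o ∈ M}) := by
  classical
  refine ⟨fun n L => if h : ∃ l : List O, L = l.map io then io (f n h.choose) else e, ?_, ?_⟩
  · intro n L _
    dsimp only
    split_ifs
    · exact hH _
    · exact he
  · intro M _ hcl n l hl
    have h := hcl n (l.map io) (by
      intro x hx
      obtain ⟨o, ho, rfl⟩ := List.mem_map.1 hx
      exact hl o ho)
    have hex : ∃ l' : List O, l.map io = l'.map io := ⟨l, rfl⟩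
    have hch : hex.choose = l := (List.map_injective_iff.2 hio hex.choose_spec).symm
    simp only [dif_pos hex, hch] at h
    exact h

theorem amrp_of_mrp_pfn {Hs : Set ZFSet.{u}} {e : ZFSet.{u}} (he : e ∈ Hs) {P : Type u}
    (a b : P → ZFSet.{u}) (ha : Function.Injective a) (hb : ∀ p, b p ∈ Hs) :
    amrp_of_mrp_Good Hs (fun M => ∀ p, a p ∈ M → b p ∈ M) := by
  classical
  obtain ⟨f, hf, hf'⟩ := amrp_of_mrp_unary he
    (fun _ x => if h : ∃ p, x = a p then b h.choose else e) (by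
      intro n x _
      split_ifs
      · exact hb _
      · exact he)
  refine ⟨f, hf, fun M hM hcl p hp => ?_⟩
  have h := hf' M hM hcl (a p) hp 0
  have hex : ∃ p', a p = a p' := ⟨p, rfl⟩
  have hch : hex.choose = p := (ha hex.choose_spec).symm
  simp only [dif_pos hex, hch] at h
  exact h

theorem amrp_of_mrp_enum {Hs : Set ZFSet.{u}} {e : ZFSet.{u}} (he : e ∈ Hs)
    (htr : ∀ x ∈ Hs, ∀ y ∈ x, y ∈ Hs) :
    amrp_of_mrp_Good Hs (fun M => ∀ x ∈ M, (x : Set ZFSet.{u}).Countable → x ⊆ M) := by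
  classical
  have key : ∀ x : ZFSet.{u}, ∃ s : ℕ → ZFSet.{u}, (x ∈ Hs → ∀ n, s n ∈ Hs) ∧
      ((x : Set ZFSet.{u}).Countable → ∀ y ∈ x, ∃ n, s n = y) := by
    intro x
    by_cases h : (x : Set ZFSet.{u}).Countable ∧ (x : Set ZFSet.{u}).Nonempty
    · obtain ⟨s, hs⟩ := h.1.exists_eq_range h.2
      refine ⟨s, fun hx n => htr x hx _ ?_, fun _ y hy => ?_⟩
      · have : s n ∈ (x : Set ZFSet.{u}) := by rw [hs]; exact ⟨n, rfl⟩
        exact this
      · have : y ∈ (x : Set ZFSet.{u}) := hy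
        rw [hs] at this
        exact this
    · refine ⟨fun _ => e, fun _ _ => he, fun hx y hy => ?_⟩
      exact absurd ⟨hx, ⟨y, hy⟩⟩ h
  choose s hs1 hs2 using key
  obtain ⟨f, hf, hf'⟩ := amrp_of_mrp_unary he (fun n x => s x n) (fun n x hx => hs1 x hx n)
  refine ⟨f, hf, fun M hM hcl x hx hxc y hy => ?_⟩
  obtain ⟨n, rfl⟩ := hs2 x hxc y hy
  exact hf' M hM hcl x hx n

theorem amrp_of_mrp (h : MRP.{u}) : AMRP.{u} := by
  classical
  intro O P jp jpp jppp hjp hjpp hjppp hP f c Sg hyp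
  obtain ⟨io, hio⟩ := amrp_of_mrp_inj O
  set A0 : ZFSet.{u} := ZFSet.range io with hA0
  set T : ZFSet.{u} := ZFSet.vonNeumann (ZFSet.rank A0 + 1) with hT
  have hTtr : T.IsTransitive := ZFSet.isTransitive_vonNeumann _
  have hA0mem : ∀ x : ZFSet.{u}, x ⊆ A0 → x ∈ T := by
    intro x hx
    rw [hT, ZFSet.mem_vonNeumann]
    exact lt_of_le_of_lt (ZFSet.rank_mono hx) (Order.lt_add_one_iff.2 le_rfl)
  set θ : Cardinal.{u} := Order.succ (max ℵ₀ T.card) with hθ
  have hθreg : θ.IsRegular := Cardinal.isRegular_succ (le_max_left _ _)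
  have hθω : ℵ₀ < θ := lt_of_le_of_lt (le_max_left _ _) (Order.lt_succ _)
  have hTcard : T.card < θ := lt_of_le_of_lt (le_max_right _ _) (Order.lt_succ _)
  have hθ0 : 0 < θ := lt_trans Cardinal.aleph0_pos hθω
  have hHT : ∀ x : ZFSet.{u}, x ⊆ T → x ∈ H θ := fun x hx => ⟨T, hTtr, hx, hTcard⟩
  have hHtr : ∀ x ∈ H θ, ∀ y ∈ x, y ∈ H θ := by
    rintro x ⟨t, ht, hxt, htc⟩ y hy
    exact ⟨t, ht, ht.subset_of_mem (hxt hy), htc⟩
  have hA0H : ∀ x : ZFSet.{u}, x ⊆ A0 → x ∈ H θ := fun x hx =>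
    hHT x (hTtr.subset_of_mem (hA0mem x hx))
  have hioH : ∀ o, io o ∈ H θ := fun o => hHtr A0 (hA0H A0 (fun _ h => h)) _
    (ZFSet.mem_range.2 ⟨o, rfl⟩)
  have heH : (∅ : ZFSet.{u}) ∈ H θ := hA0H ∅ (ZFSet.empty_subset _)
  set X : ZFSet.{u} := ZFSet.range (fun F : P => io (jp F)) with hX
  have hXA0 : X ⊆ A0 := by
    intro x hx
    obtain ⟨F, rfl⟩ := ZFSet.mem_range.1 hx
    exact ZFSet.mem_range.2 ⟨jp F, rfl⟩
  have hinj2 : Function.Injective (fun F : P => io (jp F)) := hio.comp hjp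
  -- codes
  let code : Set P → ZFSet.{u} := fun Y => ZFSet.range (fun F : Y => io (jp F.1))
  have hcode : ∀ (Y : Set P) (x : ZFSet.{u}), x ∈ code Y ↔ ∃ F ∈ Y, io (jp F) = x := by
    intro Y x
    simp only [code, ZFSet.mem_range, Subtype.exists, exists_prop]
  have hcode' : ∀ (Y : Set P) (F : P), io (jp F) ∈ code Y ↔ F ∈ Y := by
    intro Y F
    rw [hcode]
    constructor
    · rintro ⟨F', hF', he⟩
      rwa [← hinj2 he]
    · exact fun hF => ⟨F, hF, rfl⟩
  have hcodeX : ∀ Y, code Y ⊆ X := by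
    intro Y x hx
    obtain ⟨F, _, rfl⟩ := (hcode Y x).1 hx
    exact ZFSet.mem_range.2 ⟨F, rfl⟩
  have hcodeset : ∀ Y : Set P, (code Y : Set ZFSet.{u}) = (fun F : P => io (jp F)) '' Y := by
    intro Y
    ext x
    exact hcode Y x
  have hcodeinj : Function.Injective code := by
    intro Y Y' he
    ext F
    rw [← hcode' Y, ← hcode' Y', he]
  have hcodeH : ∀ Y, code Y ∈ H θ := fun Y => hA0H _ (fun x hx => hXA0 (hcodeX Y hx))
  have hcodeC : ∀ Y : Set P, Y.Countable → Y.Infinite → code Y ∈ CtblSub (X : Set ZFSet.{u}) := by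
    intro Y hYc hYi
    refine ⟨fun x hx => hcodeX Y hx, ?_, ?_⟩
    · rw [hcodeset]
      exact hYc.image _
    · rw [hcodeset]
      exact hYi.image hinj2.injOn
  have hdecode : ∀ z : ZFSet.{u}, z ⊆ X → z = code {F | io (jp F) ∈ z} := by
    intro z hz
    ext x
    rw [hcode]
    constructor
    · intro hx
      obtain ⟨F, rfl⟩ := ZFSet.mem_range.1 (hz hx)
      exact ⟨F, hx, rfl⟩
    · rintro ⟨F, hF, rfl⟩
      exact hF
  have hcodeC' : ∀ Y : Set P, code Y ∈ CtblSub (X : Set ZFSet.{u}) → Y.Countable ∧ Y.Infinite := by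
    rintro Y ⟨_, h1, h2⟩
    rw [hcodeset] at h1 h2
    exact ⟨Set.countable_of_injective_of_countable_image hinj2.injOn h1, Set.Infinite.of_image _ h2⟩
  have hXH : X ∈ H θ := hA0H X hXA0
  -- the Skolem functions
  obtain ⟨sk, hsk, hsk'⟩ := exists_skolem θ hθ0
  have hG : amrp_of_mrp_Good (H θ) (fun M => X ∈ M ∧ Cl f {o | io o ∈ M} ∧
      (∀ x ∈ M, ∀ k, io (c k {o | io o ∈ x}) ∈ M) ∧
      (∀ x ∈ M, ∀ _ : ℕ, io (jppp {Y | code Y ∈ x}) ∈ M) ∧
      (∀ Y : Set P, io (jpp Y) ∈ M → code Y ∈ M) ∧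
      (∀ x ∈ M, (x : Set ZFSet.{u}).Countable → x ⊆ M) ∧ IsElem θ M) := by
    refine amrp_of_mrp_and (amrp_of_mrp_const hXH) ?_
    refine amrp_of_mrp_and (amrp_of_mrp_list heH hio hioH f) ?_
    refine amrp_of_mrp_and (amrp_of_mrp_unary heH (fun k x => io (c k {o | io o ∈ x}))
      (fun _ _ _ => hioH _)) ?_
    refine amrp_of_mrp_and (amrp_of_mrp_unary heH (fun _ x => io (jppp {Y | code Y ∈ x}))
      (fun _ _ _ => hioH _)) ?_
    refine amrp_of_mrp_and (amrp_of_mrp_pfn heH (fun Y => io (jpp Y)) code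
      (hio.comp hjpp) hcodeH) ?_
    refine amrp_of_mrp_and (amrp_of_mrp_enum heH hHtr) ?_
    exact ⟨sk, hsk, fun M hM hcl => hsk' M hM.1 hcl⟩
  obtain ⟨Fn, hFn, hFn'⟩ := hG
  set 𝒟 : Set ZFSet.{u} := {M | M ∈ CtblSub (H θ) ∧ ClZ Fn M} with h𝒟
  have hall : ∀ M ∈ 𝒟, _ := fun M hM => hFn' M hM.1 hM.2
  have hctbl : ∀ M ∈ 𝒟, ({o | io o ∈ M} : Set O).Countable := by
    intro M hM
    exact hM.1.2.1.preimage_of_injOn (f := io) hio.injOn
  have hmap : IsOpenStationaryMapping X θ 𝒟 (fun M => {y | ∃ Y ∈ Sg {o | io o ∈ M}, y = code Y}) := by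
    refine ⟨?_, hθreg, ?_, club_closed θ hθω Fn hFn, ?_, ?_, ?_, ?_⟩
    · intro hcount
      rw [ZFSet.coe_range] at hcount
      have : Countable P := by
        rw [← Set.countable_univ_iff]
        refine Set.countable_of_injective_of_countable_image hinj2.injOn ?_
        rwa [Set.image_univ]
      exact not_countable (α := P) this
    · refine ⟨ZFSet.sep (fun Y => Y ∈ CtblSub (X : Set ZFSet.{u})) (ZFSet.powerset X), ?_, ?_⟩
      · refine hHT _ ?_
        intro y hy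
        rw [ZFSet.mem_sep, ZFSet.mem_powerset] at hy
        exact hA0mem y (fun x hx => hXA0 (hy.1 hx))
      · intro Y
        rw [ZFSet.mem_sep, ZFSet.mem_powerset]
        constructor
        · exact fun hY => hY.2
        · exact fun hY => ⟨fun x hx => hY.1 hx, hY⟩
    · exact fun M hM => (hall M hM).2.2.2.2.2.2
    · exact fun M hM => (hall M hM).1
    · intro M hM
      obtain ⟨h1, h2, h3⟩ := hyp {o | io o ∈ M} (hctbl M hM) (hall M hM).2.1
      refine ⟨?_, ?_⟩
      · rintro y ⟨Y, hY, rfl⟩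
        exact hcodeC Y (h1 Y hY).1 (h1 Y hY).2
      · rintro y ⟨Y, hY, rfl⟩
        obtain ⟨x, hxY, hx⟩ := h2 Y hY
        refine ⟨x.image (fun F => io (jp F)), code Y, hcodeC Y (h1 Y hY).1 (h1 Y hY).2, ?_, ?_,
          fun _ h => h, ?_⟩
        · intro z hz
          obtain ⟨F, hF, rfl⟩ := Finset.mem_image.1 hz
          exact (hcode' Y F).2 (hxY hF)
        · intro z hz
          obtain ⟨F, hF, rfl⟩ := Finset.mem_image.1 hz
          exact (hcode' Y F).2 (hxY hF)
        · intro Y' hY' hxY' hY'Y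
          have hY'X : Y' ⊆ X := fun x hx => hY'.1 hx
          refine ⟨{F | io (jp F) ∈ Y'}, ?_, hdecode Y' hY'X⟩
          refine hx _ ?_ ?_ ?_
          · intro F hF
            exact hxY' _ (Finset.mem_image.2 ⟨F, hF, rfl⟩)
          · intro F hF
            exact (hcode' Y F).1 (hY'Y hF)
          · refine (hcodeC' _ ?_).2
            rw [← hdecode Y' hY'X]
            exact hY'
    · intro M hM E hEM hE
      obtain ⟨h1, h2, h3⟩ := hyp {o | io o ∈ M} (hctbl M hM) (hall M hM).2.1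
      obtain ⟨hE1, hE2, _⟩ := hE
      have hd : jppp {Y | code Y ∈ E} ∈ ({o | io o ∈ M} : Set O) := (hall M hM).2.2.2.1 E hEM 0
      obtain ⟨Y, hYE, hYS, hYM⟩ := h3 {Y | code Y ∈ E} hd
        (fun Y hY => hcodeC' Y (hE1 hY)) (by
          intro t ht
          have : Infinite P := inferInstance
          let s0 : Set P := Set.range (Infinite.natEmbedding P)
          have hs0i : s0.Infinite := Set.infinite_range_of_injective (Infinite.natEmbedding P).injective
          have hs0c : s0.Countable := Set.countable_range _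
          obtain ⟨Z, hZE, hZ⟩ := hE2 (code (t ∪ s0)) (hcodeC _ (ht.union hs0c)
            (hs0i.mono Set.subset_union_right))
          have hZX : Z ⊆ X := fun x hx => (hE1 hZE).1 hx
          refine ⟨{F | io (jp F) ∈ Z}, ?_, ?_⟩
          · show code _ ∈ E
            rw [← hdecode Z hZX]
            exact hZE
          · intro F hF
            exact hZ ((hcode' _ F).2 (Or.inl hF)))
      exact ⟨code Y, hYE, ⟨Y, hYS, rfl⟩, (hall M hM).2.2.2.2.1 Y hYM⟩
  obtain ⟨N, hN1, hN2, hN3, hN4⟩ := h X θ 𝒟 _ hmap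
  have hlim : Order.IsSuccLimit (ω₁ : Ordinal.{0}) := by
    rw [← Cardinal.ord_aleph]
    exact Cardinal.isSuccLimit_ord (Cardinal.aleph0_le_aleph 1)
  have hsucc : ∀ ν < (ω₁ : Ordinal.{0}), ν + 1 < ω₁ := by
    intro ν hν
    exact hlim.add_one_lt hν
  have hmono : ∀ ν < (ω₁ : Ordinal.{0}), ∀ ξ ≤ ν, N ξ ⊆ N ν := by
    intro ν
    induction ν using Ordinal.limitRecOn with
    | zero =>
      intro _ ξ hξ
      have : ξ = 0 := le_antisymm hξ zero_le
      rw [this]
    | add_one ν ih =>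
      intro hν ξ hξ
      have hν' : ν < ω₁ := lt_trans (Order.lt_add_one_iff.2 le_rfl) hν
      rcases hξ.lt_or_eq with hlt | rfl
      · have h1 := ih hν' ξ (Order.lt_add_one_iff.1 hlt)
        have h2 : N ν ⊆ N (ν + 1) :=
          (hall _ (hN1 _ hν)).2.2.2.2.2.1 (N ν) (hN2 ν hν') (hN1 ν hν').1.2.1
        exact fun x hx => h2 (h1 hx)
      · exact fun _ h => h
    | limit ν hl ih =>
      intro hν ξ hξ
      rcases hξ.lt_or_eq with hlt | rfl
      · intro x hx
        exact (hN3 ν hν hl x).2 ⟨ξ, hlt, hx⟩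
      · exact fun _ h => h
  refine ⟨fun ν => {o | io o ∈ N ν}, ?_, ?_, ?_, ?_, ?_, ?_⟩
  · exact fun ν hν => hctbl _ (hN1 ν hν)
  · exact fun ν hν => (hall _ (hN1 ν hν)).2.1
  · intro ν hν ξ hξ o ho
    exact hmono ν hν ξ hξ ho
  · intro ν hν k
    exact (hall _ (hN1 _ (hsucc ν hν))).2.2.1 (N ν) (hN2 ν hν) k
  · intro ν hν hl o ho
    exact (hN3 ν hν hl (io o)).1 ho
  · intro ν hν hl
    obtain ⟨ν₀, hν₀, hr⟩ := hN4 ν hν hl
    refine ⟨ν₀, hν₀, fun ξ h1 h2 => ?_⟩
    obtain ⟨Y, hY, he⟩ := hr ξ h1 h2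
    have : ({F | jp F ∈ ({o | io o ∈ N ξ} : Set O)} : Set P) = Y := by
      ext F
      rw [← hcode' Y, ← he, ZFSet.mem_inter]
      constructor
      · exact fun hF => ⟨hF, ZFSet.mem_range.2 ⟨F, rfl⟩⟩
      · exact fun hF => hF.1
    rw [this]
    exact hY

end

end Pool.Agent.H215_MRP
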